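import Mathlib

/-!
# Combinatorial core for sublinear shift-complex classes

Multi-scale hitting sets for blocks of binary strings.
-/

set_option autoImplicit false

namespace Pool.Agent.H81.SC

/-- finite binary strings -/
abbrev Str := List Bool

/-- the denominator of the density at stage `t` -/
def Dt (t : ℕ) : ℕ := 4 * (t + 1)

/-- the scale units -/
def u (t : ℕ) : ℕ → ℕ
  | 0 => 8 * (t + 1)
  | i + 1 => u t i * (Dt t * 2 ^ (Dt t * u t i))

/-- the lengths of the scales -/
def len (t i : ℕ) : ℕ := Dt t * u t i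

/-- number of aligned blocks -/
def qq (t i : ℕ) : ℕ := Dt t * 2 ^ (Dt t * u t i)

/-- the exponent of the richness threshold -/
def bt (t i : ℕ) : ℕ := u t i * (Dt t - 2 * i - 3)

/-- the length of the strings on which game `t` is played -/
def NN (t : ℕ) : ℕ := len t (2 * t + 1)

lemma u_succ (t i : ℕ) : u t (i + 1) = u t i * qq t i := rfl

lemma len_succ (t i : ℕ) : len t (i + 1) = len t i * qq t i := by
  unfold len
  rw [u_succ, mul_assoc]

lemma u_pos (t i : ℕ) : 0 < u t i := by
  induction i with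
  | zero => simp [u]
  | succ i ih =>
    rw [u_succ]
    unfold qq Dt
    positivity

lemma Dt_pos (t : ℕ) : 0 < Dt t := by unfold Dt; omega

lemma len_pos (t i : ℕ) : 0 < len t i := Nat.mul_pos (Dt_pos t) (u_pos t i)

lemma u_ge (t i : ℕ) : 8 * (t + 1) + i ≤ u t i := by
  induction i with
  | zero => simp [u]
  | succ i ih =>
    rw [u_succ]
    have h1 : 2 ≤ qq t i := by
      unfold qq
      have : 1 ≤ 2 ^ (Dt t * u t i) := Nat.one_le_two_pow
      calc 2 ≤ Dt t := by unfold Dt; omega
        _ = Dt t * 1 := (mul_one _).symm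
        _ ≤ _ := Nat.mul_le_mul_left _ this
    have h2 := u_pos t i
    nlinarith

/-- Poor strings at level `i`: hereditarily few distinct blocks. -/
def Poor (t : ℕ) : ℕ → Str → Prop
  | 0 => fun ρ => ρ.length = len t 0
  | i + 1 => fun ρ => ρ.length = len t (i + 1) ∧
      (∀ τ : Str, τ <:+: ρ → τ.length = len t i → Poor t i τ) ∧
      {τ : Str | τ <:+: ρ ∧ τ.length = len t i}.ncard < 2 ^ bt t i

lemma Poor.length {t i : ℕ} {ρ : Str} (h : Poor t i ρ) : ρ.length = len t i := by
  cases i with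
  | zero => exact h
  | succ i => exact h.1

lemma finite_length (n : ℕ) : {ρ : Str | ρ.length = n}.Finite := by
  have : {ρ : Str | ρ.length = n} = Set.range (fun v : List.Vector Bool n => v.toList) := by
    ext ρ
    constructor
    · intro h
      exact ⟨⟨ρ, h⟩, rfl⟩
    · rintro ⟨v, rfl⟩
      exact v.2
  rw [this]
  exact Set.finite_range _

lemma ncard_length (n : ℕ) : {ρ : Str | ρ.length = n}.ncard = 2 ^ n := by
  have h : {ρ : Str | ρ.length = n} = Set.range (fun v : List.Vector Bool n => v.toList) := by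
    ext ρ
    constructor
    · intro h
      exact ⟨⟨ρ, h⟩, rfl⟩
    · rintro ⟨v, rfl⟩
      exact v.2
  rw [h, ← Set.image_univ,
    Set.ncard_image_of_injective _ (List.Vector.toList_injective (α := Bool) (n := n)),
    Set.ncard_univ]
  simp

lemma poor_finite (t i : ℕ) : {ρ | Poor t i ρ}.Finite :=
  (finite_length (len t i)).subset (fun _ h => h.length)

/-- splitting a string of length `q * m` into `q` aligned blocks -/
lemma exists_blocks (m q : ℕ) (ρ : Str) (h : ρ.length = m * q) :
    ∃ g : Fin q → Str, (∀ j, (g j).length = m ∧ g j <:+: ρ) ∧ ρ = (List.ofFn g).flatten := by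
  induction q generalizing ρ with
  | zero =>
    refine ⟨fun j => j.elim0, fun j => j.elim0, ?_⟩
    simp only [mul_zero, List.length_eq_zero_iff] at h
    simp [h]
  | succ q ih =>
    have h1 : (ρ.drop m).length = m * q := by
      rw [List.length_drop, h]
      rw [Nat.mul_succ]; omega
    obtain ⟨g, hg1, hg2⟩ := ih (ρ.drop m) h1
    refine ⟨Fin.cons (ρ.take m) g, ?_, ?_⟩
    · intro j
      refine Fin.cases ?_ ?_ j
      · simp only [Fin.cons_zero]
        refine ⟨?_, (List.take_prefix m ρ).isInfix⟩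
        rw [List.length_take, h, Nat.mul_succ]; omega
      · intro j
        simp only [Fin.cons_succ]
        exact ⟨(hg1 j).1, (hg1 j).2.trans (List.drop_suffix m ρ).isInfix⟩
    · rw [List.ofFn_succ]
      simp only [Fin.cons_zero, Fin.cons_succ, List.flatten_cons]
      rw [← hg2, List.take_append_drop]

/-- the number of poor strings -/
lemma poor_card (t i : ℕ) (hi : i ≤ 2 * t + 1) :
    {ρ | Poor t i ρ}.ncard ≤ 2 ^ (u t i * (Dt t - 2 * i)) := by
  induction i with
  | zero =>
    have h1 : {ρ | Poor t 0 ρ} = {ρ : Str | ρ.length = len t 0} := rfl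
    rw [h1, ncard_length]
    unfold len
    rw [mul_comm]
    simp
  | succ i ih =>
    have ih := ih (by omega)
    set P : Set Str := {ρ | Poor t i ρ} with hP
    set b : ℕ := 2 ^ bt t i with hb
    set q : ℕ := qq t i with hq
    have hPfin : P.Finite := poor_finite t i
    have : Finite P := hPfin
    let F : (Fin b → P) × (Fin q → Fin b) → Str := fun x =>
      (List.ofFn (fun j => (x.1 (x.2 j) : Str))).flatten
    have hsub : {ρ | Poor t (i + 1) ρ} ⊆ F '' Set.univ := by
      rintro ρ ⟨h1, h2, h3⟩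
      have hlen : ρ.length = len t i * q := by rw [h1, len_succ]
      obtain ⟨g, hg1, hg2⟩ := exists_blocks (len t i) q ρ hlen
      set A : Set Str := {τ : Str | τ <:+: ρ ∧ τ.length = len t i} with hA
      have hAfin : A.Finite := (finite_length (len t i)).subset (fun _ h => h.2)
      have hgA : ∀ j, g j ∈ A := fun j => ⟨(hg1 j).2, (hg1 j).1⟩
      have hAP : A ⊆ P := fun τ hτ => h2 τ hτ.1 hτ.2
      have hqpos : 0 < q := by
        rw [hq]; unfold qq; have := Dt_pos t; positivity
      -- enumerate `A`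
      have : Finite A := hAfin
      obtain ⟨n, ⟨e⟩⟩ := Finite.exists_equiv_fin A
      have hn : n < b := by
        have : A.ncard = n := by
          rw [← Nat.card_coe_set_eq]
          rw [Nat.card_congr e]
          simp
        rw [← this]
        exact h3
      have a0 : A := ⟨g ⟨0, hqpos⟩, hgA _⟩
      let e' : Fin b → P := fun j => if h : j.1 < n then
        ⟨(e.symm ⟨j.1, h⟩ : A), hAP (e.symm ⟨j.1, h⟩).2⟩ else ⟨a0, hAP a0.2⟩
      let g' : Fin q → Fin b := fun j => ⟨(e ⟨g j, hgA j⟩).1, lt_trans (e ⟨g j, hgA j⟩).2 hn⟩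
      refine ⟨(e', g'), Set.mem_univ _, ?_⟩
      have h4 : ∀ j, ((e' (g' j) : P) : Str) = g j := by
        intro j
        have h5 : ((e ⟨g j, hgA j⟩).1) < n := (e ⟨g j, hgA j⟩).2
        simp only [e', g', dif_pos h5]
        simp
      show (List.ofFn (fun j => ((e' (g' j) : P) : Str))).flatten = ρ
      rw [funext h4, ← hg2]
    have h5 : {ρ | Poor t (i + 1) ρ}.ncard ≤ P.ncard ^ b * b ^ q := by
      calc {ρ | Poor t (i + 1) ρ}.ncard ≤ (F '' Set.univ).ncard :=
            Set.ncard_le_ncard hsub (Set.toFinite _)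
        _ ≤ (Set.univ : Set ((Fin b → P) × (Fin q → Fin b))).ncard :=
            Set.ncard_image_le (Set.toFinite _)
        _ = P.ncard ^ b * b ^ q := by
            rw [Set.ncard_univ, Nat.card_prod, Nat.card_fun, Nat.card_fun]
            simp [Nat.card_coe_set_eq]
    refine h5.trans ?_
    have h6 : P.ncard ^ b * b ^ q ≤ (2 ^ (u t i * (Dt t - 2 * i))) ^ b * b ^ q :=
      Nat.mul_le_mul_right _ (Nat.pow_le_pow_left ih b)
    refine h6.trans ?_
    rw [hb, ← pow_mul, ← pow_mul, ← pow_add]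
    refine Nat.pow_le_pow_right (by norm_num) ?_
    rw [u_succ]
    have hbt : bt t i = u t i * (Dt t - 2 * i - 3) := rfl
    have hbt2 : bt t i ≤ Dt t * u t i := by
      rw [hbt, mul_comm (Dt t)]
      exact Nat.mul_le_mul_left _ (by omega)
    have hqq : Dt t * 2 ^ bt t i ≤ qq t i := by
      unfold qq
      exact Nat.mul_le_mul_left _ (Nat.pow_le_pow_right (by norm_num) hbt2)
    have h7 : u t i * (Dt t - 2 * i) * 2 ^ bt t i ≤ u t i * qq t i := by
      rw [mul_assoc]
      refine Nat.mul_le_mul_left _ (le_trans ?_ hqq)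
      exact Nat.mul_le_mul_right _ (by omega)
    have hD : 2 * (i + 1) + 2 ≤ Dt t := by unfold Dt; omega
    by_cases h3 : 2 * i + 3 ≤ Dt t
    · have h8 : Dt t - 2 * (i + 1) = (Dt t - 2 * i - 3) + 1 := by omega
      rw [h8, Nat.mul_add, mul_one, hbt, ← hq]
      rw [← hq] at h7
      rw [← hbt]
      have h9 : bt t i * q = u t i * q * (Dt t - 2 * i - 3) := by
        rw [hbt]; ring
      rw [h9]
      omega
    · omega

/-- the poor blocks of level `i` of a string -/
def poorBlocks (t i : ℕ) (σ : Str) : Set Str := {τ | Poor t i τ ∧ τ <:+: σ}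

/-- Every string of length `NN t` is rich at some level. -/
lemma exists_rich (t : ℕ) (σ : Str) (hσ : σ.length = NN t) :
    ∃ i, i ≤ 2 * t + 1 ∧ 2 ^ bt t i ≤ (poorBlocks t i σ).ncard := by
  by_contra hcon
  push Not at hcon
  have hfin : ∀ i, (poorBlocks t i σ).Finite := fun i =>
    (poor_finite t i).subset (fun _ h => h.1)
  have key : ∀ i, i ≤ 2 * t + 1 → ∀ τ : Str, τ <:+: σ → τ.length = len t i → Poor t i τ := by
    intro i
    induction i with
    | zero => exact fun _ τ _ h => h
    | succ i ih =>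
      intro hi τ hτ hlen
      refine ⟨hlen, fun ρ hρ hρl => ih (by omega) ρ (hρ.trans hτ) hρl, ?_⟩
      refine lt_of_le_of_lt (Set.ncard_le_ncard ?_ (hfin i)) (hcon i (by omega))
      rintro ρ ⟨h1, h2⟩
      exact ⟨ih (by omega) ρ (h1.trans hτ) h2, h1.trans hτ⟩
  have h1 : Poor t (2 * t + 1) σ := key _ le_rfl σ List.infix_rfl hσ
  have h2 := hcon (2 * t + 1) le_rfl
  have h3 : bt t (2 * t + 1) = 0 := by
    unfold bt Dt
    have : 4 * (t + 1) - 2 * (2 * t + 1) - 3 = 0 := by omega
    rw [this, mul_zero]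
  rw [h3, pow_zero, Nat.lt_one_iff, Set.ncard_eq_zero (hfin _)] at h2
  have h4 : σ ∈ poorBlocks t (2 * t + 1) σ := ⟨h1, List.infix_rfl⟩
  rw [h2] at h4
  exact h4

/-- an elementary inequality -/
lemma pow_half (p b W : ℕ) (hbp : b ≤ p) (hW : p ≤ W * b) (hp : 0 < p) :
    2 * (p - b) ^ W ≤ p ^ W := by
  obtain ⟨k, rfl⟩ := Nat.exists_eq_add_of_le hbp
  have hb : 0 < b := by
    rcases Nat.eq_zero_or_pos b with h | h
    · subst h; omega
    · exact h
  have hW0 : W ≠ 0 := by
    rintro rfl
    omega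
  rw [Nat.add_sub_cancel_left]
  obtain ⟨V, rfl⟩ := Nat.exists_eq_succ_of_ne_zero hW0
  -- `(k + b)^(V+1) ≥ k^(V+1) + (V+1) b k^V`
  have h1 : ∀ n : ℕ, k ^ (n + 1) + (n + 1) * b * k ^ n ≤ (b + k) ^ (n + 1) := by
    intro n
    induction n with
    | zero => simp; omega
    | succ n ih =>
      calc k ^ (n + 1 + 1) + (n + 1 + 1) * b * k ^ (n + 1)
          ≤ (b + k) * (k ^ (n + 1) + (n + 1) * b * k ^ n) := by
            have : 0 ≤ b * ((n + 1) * b * k ^ n) := Nat.zero_le _
            rw [pow_succ, pow_succ]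
            nlinarith
        _ ≤ (b + k) * (b + k) ^ (n + 1) := Nat.mul_le_mul_left _ ih
        _ = _ := by rw [← pow_succ']
  have h2 := h1 V
  have h3 : k ^ (V + 1) ≤ (V + 1) * b * k ^ V := by
    rw [pow_succ']
    refine Nat.mul_le_mul_right _ ?_
    rw [Nat.succ_eq_add_one] at hW
    omega
  show 2 * k ^ (V + 1) ≤ (b + k) ^ (V + 1)
  omega

/-- A random choice of `W` elements hits at least half of the weight. -/
lemma exists_hitting {α : Type*} (S : Finset α) (w : α → ℝ) (hw : ∀ a ∈ S, 0 ≤ w a)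
    (P : Finset Str) (hP : P.Nonempty) (B : α → Finset Str) (b W : ℕ)
    (hB : ∀ a ∈ S, B a ⊆ P ∧ b ≤ (B a).card) (hW : P.card ≤ W * b) :
    ∃ e : Fin W → P, (∑ a ∈ S, w a) / 2 ≤
      ∑ a ∈ S.filter (fun a => ∃ j, (e j : Str) ∈ B a), w a := by
  classical
  have : Nonempty P := hP.to_subtype
  by_contra hcon
  push Not at hcon
  -- missed weight
  have h1 : ∀ e : Fin W → P, (∑ a ∈ S, w a) / 2 <
      ∑ a ∈ S, if (∃ j, (e j : Str) ∈ B a) then 0 else w a := by
    intro e
    have h2 := hcon e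
    rw [Finset.sum_filter] at h2
    have h3 : ∑ a ∈ S, w a = (∑ a ∈ S, if (∃ j, (e j : Str) ∈ B a) then w a else 0) +
        ∑ a ∈ S, if (∃ j, (e j : Str) ∈ B a) then 0 else w a := by
      rw [← Finset.sum_add_distrib]
      refine Finset.sum_congr rfl (fun a _ => ?_)
      split_ifs <;> simp
    linarith
  have h4 : ∑ e : Fin W → P, (∑ a ∈ S, w a) / 2 <
      ∑ e : Fin W → P, ∑ a ∈ S, if (∃ j, (e j : Str) ∈ B a) then 0 else w a :=
    Finset.sum_lt_sum_of_nonempty Finset.univ_nonempty (fun e _ => h1 e)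
  rw [Finset.sum_const, Finset.sum_comm] at h4
  have h5 : ∀ a ∈ S, (∑ e : Fin W → P, if (∃ j, (e j : Str) ∈ B a) then 0 else w a) ≤
      (P.card : ℝ) ^ W / 2 * w a := by
    intro a ha
    have h6 : (∑ e : Fin W → P, if (∃ j, (e j : Str) ∈ B a) then 0 else w a) =
        ((Finset.univ.filter (fun e : Fin W → P => ¬ ∃ j, (e j : Str) ∈ B a)).card : ℝ) * w a := by
      rw [Finset.card_eq_sum_ones, Nat.cast_sum, Finset.sum_mul, Finset.sum_filter]
      refine Finset.sum_congr rfl (fun e _ => ?_)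
      by_cases h : ∃ j, (e j : Str) ∈ B a
      · simp [h]
      · rw [if_neg h, if_pos h]; simp
    rw [h6]
    refine mul_le_mul_of_nonneg_right ?_ (hw a ha)
    have h7 : (Finset.univ.filter (fun e : Fin W → P => ¬ ∃ j, (e j : Str) ∈ B a)).card =
        (P.card - (B a).card) ^ W := by
      have h8 : Finset.univ.filter (fun e : Fin W → P => ¬ ∃ j, (e j : Str) ∈ B a) =
          Fintype.piFinset (fun _ : Fin W => Finset.univ.filter
            (fun p : P => (p : Str) ∉ B a)) := by
        ext e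
        simp
      rw [h8, Fintype.card_piFinset, Finset.prod_const, Finset.card_univ, Fintype.card_fin]
      congr 1
      have h9 : (Finset.univ.filter (fun p : P => (p : Str) ∉ B a)).card =
          (P \ B a).card := by
        refine Finset.card_bij (fun p _ => (p : Str)) ?_ ?_ ?_
        · intro p hp
          simp only [Finset.mem_filter, Finset.mem_univ, true_and] at hp
          exact Finset.mem_sdiff.2 ⟨p.2, hp⟩
        · intro p _ q _ hpq
          exact Subtype.ext hpq
        · intro p hp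
          obtain ⟨hp1, hp2⟩ := Finset.mem_sdiff.1 hp
          exact ⟨⟨p, hp1⟩, by simpa using hp2, rfl⟩
      rw [h9, Finset.card_sdiff_of_subset (hB a ha).1]
    rw [h7]
    have h10 : 2 * (P.card - b) ^ W ≤ P.card ^ W :=
      pow_half _ _ _ ((hB a ha).2.trans (Finset.card_le_card (hB a ha).1)) hW
        (Finset.card_pos.2 hP)
    have h11 : (P.card - (B a).card) ^ W ≤ (P.card - b) ^ W :=
      Nat.pow_le_pow_left (Nat.sub_le_sub_left (hB a ha).2 _) W
    have h12 : 2 * (P.card - (B a).card) ^ W ≤ P.card ^ W := by omega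
    have h13 : (2 : ℝ) * ((P.card - (B a).card : ℕ) : ℝ) ^ W ≤ (P.card : ℝ) ^ W := by
      exact_mod_cast h12
    push_cast
    linarith
  have h14 := Finset.sum_le_sum h5
  rw [← Finset.mul_sum] at h14
  have h15 : ((Finset.univ : Finset (Fin W → P)).card : ℝ) = (P.card : ℝ) ^ W := by
    rw [Finset.card_univ, Fintype.card_fun, Fintype.card_fin, Fintype.card_coe]
    push_cast
    rfl
  rw [nsmul_eq_mul, h15] at h4
  linarith

/-- a list `E` hits `σ` if some element of `E` is a block of `σ` -/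
def Hits (E : List Str) (σ : Str) : Prop := ∃ τ ∈ E, τ <:+: σ

/-- Main combinatorial lemma. -/
theorem exists_move (t : ℕ) (A : Finset Str) (hA : ∀ σ ∈ A, σ.length = NN t) (w : Str → ℝ)
    (hw : ∀ σ, 0 ≤ w σ) :
    ∃ i, i ≤ 2 * t + 1 ∧ ∃ E : List Str, E.length = 2 ^ (3 * u t i) ∧
      (∀ τ ∈ E, τ.length = len t i) ∧ ∀ S : Finset Str, (∀ σ ∈ A, Hits E σ → σ ∈ S) →
        (∑ σ ∈ A, w σ) ≤ (2 * (2 * t + 2) : ℝ) * ∑ σ ∈ S, w σ := by
  classical
  -- the parts of `A`
  let T : ℕ → Finset Str := fun i => A.filter (fun σ => 2 ^ bt t i ≤ (poorBlocks t i σ).ncard)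
  have h1 : (∑ σ ∈ A, w σ) ≤ ∑ i ∈ Finset.range (2 * t + 2), ∑ σ ∈ T i, w σ := by
    calc (∑ σ ∈ A, w σ) ≤ ∑ σ ∈ A, ∑ i ∈ Finset.range (2 * t + 2),
          (if 2 ^ bt t i ≤ (poorBlocks t i σ).ncard then w σ else 0) := by
          refine Finset.sum_le_sum (fun σ hσ => ?_)
          obtain ⟨i, hi, hi2⟩ := exists_rich t σ (hA σ hσ)
          have h2 := Finset.single_le_sum
            (f := fun i => if 2 ^ bt t i ≤ (poorBlocks t i σ).ncard then w σ else 0)
            (s := Finset.range (2 * t + 2)) (fun j _ => by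
              show 0 ≤ if 2 ^ bt t j ≤ (poorBlocks t j σ).ncard then w σ else 0
              split_ifs
              · exact hw σ
              · exact le_rfl) (Finset.mem_range.2 (show i < 2 * t + 2 by omega))
          refine le_trans ?_ h2
          simp [hi2]
      _ = ∑ i ∈ Finset.range (2 * t + 2), ∑ σ ∈ A,
          (if 2 ^ bt t i ≤ (poorBlocks t i σ).ncard then w σ else 0) := Finset.sum_comm
      _ = _ := by
          refine Finset.sum_congr rfl (fun i _ => ?_)
          rw [Finset.sum_filter]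
  -- a level carrying much weight
  obtain ⟨i, hi, hi2⟩ : ∃ i ∈ Finset.range (2 * t + 2),
      (∑ σ ∈ A, w σ) ≤ (2 * t + 2 : ℝ) * ∑ σ ∈ T i, w σ := by
    by_contra hcon
    push Not at hcon
    have h2 : ∑ i ∈ Finset.range (2 * t + 2), ((2 * t + 2 : ℝ) * ∑ σ ∈ T i, w σ) <
        ∑ i ∈ Finset.range (2 * t + 2), ∑ σ ∈ A, w σ :=
      Finset.sum_lt_sum_of_nonempty ⟨0, Finset.mem_range.2 (by omega)⟩ hcon
    rw [← Finset.mul_sum, Finset.sum_const, Finset.card_range, nsmul_eq_mul] at h2
    push_cast at h2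
    have h3 : (0 : ℝ) < 2 * t + 2 := by positivity
    have h4 := lt_of_mul_lt_mul_left h2 h3.le
    linarith
  have hi' : i ≤ 2 * t + 1 := by
    have := Finset.mem_range.1 hi
    omega
  refine ⟨i, hi', ?_⟩
  set P : Finset Str := (poor_finite t i).toFinset with hP
  by_cases hPne : P.Nonempty
  · have hfin : ∀ σ, (poorBlocks t i σ).Finite := fun σ =>
      (poor_finite t i).subset (fun _ h => h.1)
    have hcard : P.card ≤ 2 ^ (3 * u t i) * 2 ^ bt t i := by
      have h2 : P.card = {ρ | Poor t i ρ}.ncard := by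
        rw [Set.ncard_eq_toFinset_card _ (poor_finite t i)]
      rw [h2, ← pow_add]
      refine (poor_card t i hi').trans (Nat.pow_le_pow_right (by norm_num) ?_)
      unfold bt
      have h3 : Dt t - 2 * i ≤ 3 + (Dt t - 2 * i - 3) := by omega
      calc u t i * (Dt t - 2 * i) ≤ u t i * (3 + (Dt t - 2 * i - 3)) := Nat.mul_le_mul_left _ h3
        _ = _ := by ring
    obtain ⟨e, he⟩ := exists_hitting (T i) w (fun a _ => hw a) P hPne
      (fun σ => (hfin σ).toFinset) (2 ^ bt t i) (2 ^ (3 * u t i)) (by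
        intro σ hσ
        constructor
        · intro τ hτ
          rw [Set.Finite.mem_toFinset] at hτ
          rw [hP, Set.Finite.mem_toFinset]
          exact hτ.1
        · have h3 := (Finset.mem_filter.1 hσ).2
          rwa [Set.ncard_eq_toFinset_card _ (hfin σ)] at h3) hcard
    refine ⟨List.ofFn (fun j => (e j : Str)), by simp, ?_, ?_⟩
    · intro τ hτ
      obtain ⟨j, rfl⟩ := (List.mem_ofFn' _ _).1 hτ
      have h3 : (e j : Str) ∈ P := (e j).2
      exact Poor.length ((Set.Finite.mem_toFinset (poor_finite t i)).1 h3)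
    · intro S hS
      have h3 : ∑ a ∈ (T i).filter (fun a => ∃ j, (e j : Str) ∈ (hfin a).toFinset), w a ≤
          ∑ σ ∈ S, w σ := by
        refine Finset.sum_le_sum_of_subset_of_nonneg ?_ (fun _ _ _ => hw _)
        intro σ hσ
        obtain ⟨h4, j, hj⟩ := Finset.mem_filter.1 hσ
        refine hS σ (Finset.mem_filter.1 h4).1 ⟨e j, ?_, ?_⟩
        · exact (List.mem_ofFn' _ _).2 ⟨j, rfl⟩
        · rw [Set.Finite.mem_toFinset] at hj
          exact hj.2
      have h4 : (∑ σ ∈ T i, w σ) ≤ 2 * ∑ σ ∈ S, w σ := by linarith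
      have h5 : (0 : ℝ) ≤ 2 * t + 2 := by positivity
      calc (∑ σ ∈ A, w σ) ≤ (2 * t + 2 : ℝ) * ∑ σ ∈ T i, w σ := hi2
        _ ≤ (2 * t + 2 : ℝ) * (2 * ∑ σ ∈ S, w σ) := mul_le_mul_of_nonneg_left h4 h5
        _ = _ := by ring
  · -- no poor strings: nothing can be rich
    have h2 : T i = ∅ := by
      rw [Finset.eq_empty_iff_forall_notMem]
      intro σ hσ
      have h3 := (Finset.mem_filter.1 hσ).2
      have h4 : poorBlocks t i σ = ∅ := by
        rw [Set.eq_empty_iff_forall_notMem]
        intro τ hτ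
        refine hPne ⟨τ, ?_⟩
        rw [hP, Set.Finite.mem_toFinset]
        exact hτ.1
      rw [h4, Set.ncard_empty] at h3
      have : 0 < 2 ^ bt t i := by positivity
      omega
    rw [h2, Finset.sum_empty, mul_zero] at hi2
    refine ⟨List.replicate (2 ^ (3 * u t i)) (List.replicate (len t i) false), by simp, ?_, ?_⟩
    · intro τ hτ
      rw [(List.mem_replicate.1 hτ).2, List.length_replicate]
    · intro S _
      refine hi2.trans ?_
      have : 0 ≤ ∑ σ ∈ S, w σ := Finset.sum_nonneg (fun _ _ => hw _)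
      positivity

end Pool.Agent.H81.SC
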