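import Mathlib

/-!
# Definitions: prefix-free complexity, semimeasures, shift-complex classes, deep and negligible classes
-/

set_option autoImplicit false

namespace Pool.Agent.H81.SC

open MeasureTheory

/-- The string `X(i) X(i+1) ... X(i+n-1)`: a block of `n` consecutive bits of `X`. -/
def block (X : ℕ → Bool) (i n : ℕ) : List Bool := (List.range n).map (fun j => X (i + j))

/-- A prefix-free machine: a partial computable function on strings with prefix-free domain. -/
def IsPrefixFreeMachine (U : List Bool →. List Bool) : Prop :=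
  Partrec U ∧ ∀ p q : List Bool, (U p).Dom → (U q).Dom → p <+: q → p = q

/-- A universal (optimal) prefix-free machine: it simulates every prefix-free machine with a
constant overhead in program length. -/
def IsUniversalMachine (U : List Bool →. List Bool) : Prop :=
  IsPrefixFreeMachine U ∧ ∀ V : List Bool →. List Bool, IsPrefixFreeMachine V →
    ∃ c : ℕ, ∀ p x : List Bool, x ∈ V p → ∃ q : List Bool, q.length ≤ p.length + c ∧ x ∈ U q

/-- Prefix-free complexity of `x` relative to the machine `U`: the length of a shortest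
program for `x`. -/
noncomputable def K (U : List Bool →. List Bool) (x : List Bool) : ℕ :=
  sInf {n | ∃ p : List Bool, p.length = n ∧ x ∈ U p}

/-- A continuous semimeasure on strings. -/
structure IsSemimeasure (M : List Bool → ℝ) : Prop where
  nonneg : ∀ σ, 0 ≤ M σ
  root : M [] ≤ 1
  split : ∀ σ, M (σ ++ [false]) + M (σ ++ [true]) ≤ M σ

/-- Left-c.e. (lower semicomputable) real-valued functions on strings: the set of `(σ, a, b)` with
`a / (b + 1) < M σ` is recursively enumerable. -/
def IsLeftCE (M : List Bool → ℝ) : Prop :=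
  REPred (fun x : List Bool × ℕ × ℕ => (x.2.1 : ℝ) / (x.2.2 + 1) < M x.1)

/-- A universal left-c.e. continuous semimeasure. -/
def IsUniversalSemimeasure (M : List Bool → ℝ) : Prop :=
  IsSemimeasure M ∧ IsLeftCE M ∧ ∀ M' : List Bool → ℝ, IsSemimeasure M' → IsLeftCE M' →
    ∃ C : ℝ, ∀ σ, M' σ ≤ C * M σ

/-- `M(S) = ∑_{σ ∈ S} M(σ)`. -/
noncomputable def mass (M : List Bool → ℝ) (S : Set (List Bool)) : ℝ := ∑ᶠ σ ∈ S, M σ

/-- `P ↾ m`, the set of initial segments of length `m` of elements of `P`. -/
def trace (P : Set (ℕ → Bool)) (m : ℕ) : Set (List Bool) := {σ | ∃ X ∈ P, σ = block X 0 m}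

/-- `Π⁰₁` classes in Cantor space. -/
def IsPi01 (P : Set (ℕ → Bool)) : Prop :=
  ∃ W : List Bool → Prop, REPred W ∧ P = {X | ∀ m, ¬ W (block X 0 m)}

/-- Order functions with natural number values: total computable, nondecreasing, unbounded. -/
def IsOrder (f : ℕ → ℕ) : Prop := Computable f ∧ Monotone f ∧ ∀ b, ∃ n, b ≤ f n

/-- Deep `Π⁰₁` classes (with respect to the semimeasure `M`). -/
def IsDeep (M : List Bool → ℝ) (P : Set (ℕ → Bool)) : Prop :=
  IsPi01 P ∧ ∃ h : ℕ → ℕ, IsOrder h ∧ ∀ n, mass M (trace P (h n)) ≤ (1 / 2) ^ n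

/-- The uniform (Lebesgue, fair coin) measure on Cantor space. -/
noncomputable def coin : Measure (ℕ → Bool) :=
  Measure.infinitePi (fun _ : ℕ => (PMF.uniformOfFintype Bool).toMeasure)

/-- A point of Cantor space as a (total) function on the natural numbers. -/
def toFun (X : ℕ → Bool) : ℕ →. ℕ := fun n => Part.some (cond (X n) 1 0)

/-- Negligible classes: almost no oracle Turing computes a member. -/
def IsNegligible (P : Set (ℕ → Bool)) : Prop :=
  coin {Y | ∃ X ∈ P, TuringReducible (toFun X) (toFun Y)} = 0

/-- The shift-complex class `SC(f, c)`: all blocks `τ` satisfy `K(τ) ≥ f(|τ|) - c`. -/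
def ShiftComplex (U : List Bool →. List Bool) (f : ℕ → ℝ) (c : ℕ) : Set (ℕ → Bool) :=
  {X | ∀ i n, f n - c ≤ K U (block X i n)}

end Pool.Agent.H81.SC
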