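import Mathlib

/-!
# Closure properties of recursively enumerable predicates
-/

set_option autoImplicit false

namespace Pool.Agent.H81.SC

open Nat.Partrec (Code)
open Nat.Partrec.Code

variable {α β : Type*} [Primcodable α] [Primcodable β]

/-- An r.e. predicate is the projection of a primitive recursive one. -/
theorem REPred.exists_approx {p : α → Prop} (hp : REPred p) :
    ∃ q : α → ℕ → Bool, Primrec₂ q ∧ ∀ a, p a ↔ ∃ k, q a k = true := by
  obtain ⟨c, hc⟩ := exists_code.1 hp
  refine ⟨fun a k => (evaln k c (Encodable.encode a)).isSome, ?_, ?_⟩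
  · have h1 : Primrec (fun x : α × ℕ => ((x.2, c), Encodable.encode x.1)) :=
      (Primrec.snd.pair (Primrec.const c)).pair (Primrec.encode.comp Primrec.fst)
    exact Primrec.option_isSome.comp (primrec_evaln.comp h1)
  · intro a
    have h1 := congrFun hc (Encodable.encode a)
    simp only [Encodable.encodek, Part.coe_some, Part.bind_some] at h1
    constructor
    · intro ha
      have h2 : (eval c (Encodable.encode a)).Dom := by
        rw [h1]
        exact ⟨ha, trivial⟩
      obtain ⟨x, hx⟩ := Part.dom_iff_mem.1 h2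
      obtain ⟨k, hk⟩ := evaln_complete.1 hx
      exact ⟨k, Option.isSome_iff_exists.2 ⟨x, hk⟩⟩
    · rintro ⟨k, hk⟩
      obtain ⟨x, hx⟩ := Option.isSome_iff_exists.1 hk
      have h2 : x ∈ eval c (Encodable.encode a) := evaln_sound (Option.mem_def.2 hx)
      rw [h1] at h2
      by_contra hcon
      simp [Part.assert_neg hcon] at h2

/-- Projections of computable predicates are r.e. -/
theorem REPred.of_exists {p : α → Prop} (q : α → ℕ → Bool) (hq : Computable₂ q)
    (h : ∀ a, p a ↔ ∃ k, q a k = true) : REPred p := by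
  have h1 : Partrec (fun a => Nat.rfind (fun k => Part.some (q a k))) :=
    Partrec.rfind hq.partrec₂
  refine h1.dom_re.of_eq (fun a => ?_)
  rw [h a]
  refine Iff.trans Nat.rfind_dom ?_
  constructor
  · rintro ⟨k, hk, -⟩
    exact ⟨k, (Part.mem_some_iff.1 hk).symm⟩
  · rintro ⟨k, hk⟩
    exact ⟨k, Part.mem_some_iff.2 hk.symm, fun _ => trivial⟩

/-- R.e. predicates are closed under existential quantification. -/
theorem REPred.exists' {p : α → β → Prop} (hp : REPred (fun x : α × β => p x.1 x.2)) :
    REPred (fun a => ∃ b, p a b) := by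
  obtain ⟨q, hq, hq'⟩ := REPred.exists_approx hp
  refine REPred.of_exists
    (fun a k => ((Encodable.decode (α := β) k.unpair.1).map
      (fun b => q (a, b) k.unpair.2)).getD false) ?_ ?_
  · have h1 : Primrec (fun x : α × ℕ => Encodable.decode (α := β) x.2.unpair.1) :=
      Primrec.decode.comp (Primrec.fst.comp (Primrec.unpair.comp Primrec.snd))
    have h2 : Primrec₂ (fun (x : α × ℕ) (b : β) => q (x.1, b) x.2.unpair.2) :=
      hq.comp (Primrec.pair (Primrec.fst.comp Primrec.fst) Primrec.snd)
        (Primrec.snd.comp (Primrec.unpair.comp (Primrec.snd.comp Primrec.fst)))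
    exact (Primrec.option_getD.comp (Primrec.option_map h1 h2) (Primrec.const false)).to_comp
  · intro a
    constructor
    · rintro ⟨b, hb⟩
      obtain ⟨k, hk⟩ := (hq' (a, b)).1 hb
      refine ⟨Nat.pair (Encodable.encode b) k, ?_⟩
      simp [hk]
    · rintro ⟨k, hk⟩
      cases hdec : Encodable.decode (α := β) k.unpair.1 with
      | none => simp [hdec] at hk
      | some b =>
        simp only [hdec, Option.map_some, Option.getD_some] at hk
        exact ⟨b, (hq' (a, b)).2 ⟨_, hk⟩⟩

theorem REPred.comp {p : β → Prop} (hp : REPred p) {f : α → β} (hf : Computable f) :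
    REPred (fun a => p (f a)) :=
  Partrec.comp hp hf

theorem REPred.and {p r : α → Prop} (hp : REPred p) (hr : REPred r) :
    REPred (fun a => p a ∧ r a) := by
  have h1 : Partrec (fun a : α => (Part.assert (p a) fun _ => Part.some ()).bind
      (fun _ => Part.assert (r a) fun _ => Part.some ())) :=
    Partrec.bind hp (Partrec.to₂ (Partrec.comp hr Computable.fst))
  refine h1.dom_re.of_eq (fun a => ?_)
  by_cases ha : p a <;> by_cases hb : r a <;> simp [Part.assert, ha, hb]

theorem REPred.of_primrecPred {p : α → Prop} (hp : PrimrecPred p) : REPred p :=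
  hp.computablePred.to_re

/-- R.e. predicates are closed under universal quantification over the members of a list. -/
theorem REPred.forall_mem_list {p : β → α → Prop} (hp : REPred (fun x : β × α => p x.1 x.2)) :
    REPred (fun x : List β × α => ∀ b ∈ x.1, p b x.2) := by
  obtain ⟨q, hq, hq'⟩ := REPred.exists_approx hp
  -- a common stage for all the elements
  have h0 : ∀ x : List β × α, (∀ b ∈ x.1, p b x.2) ↔
      ∃ k : ℕ, ∀ b ∈ x.1, ∃ j < k, q (b, x.2) j = true := by
    rintro ⟨l, a⟩
    constructor
    · intro h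
      induction l with
      | nil => exact ⟨0, by simp⟩
      | cons b l ih =>
        obtain ⟨k, hk⟩ := ih (fun c hc => h c (List.mem_cons_of_mem _ hc))
        obtain ⟨j, hj⟩ := (hq' (b, a)).1 (h b List.mem_cons_self)
        refine ⟨max k (j + 1), ?_⟩
        intro c hc
        rcases List.mem_cons.1 hc with rfl | hc
        · exact ⟨j, by omega, hj⟩
        · obtain ⟨j', hj', hj''⟩ := hk c hc
          exact ⟨j', by omega, hj''⟩
    · rintro ⟨k, hk⟩ b hb
      obtain ⟨j, -, hj⟩ := hk b hb
      exact (hq' (b, a)).2 ⟨j, hj⟩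
  have h1 : PrimrecRel (fun (j : ℕ) (y : β × α) => q y j = true) := by
    have : Primrec (fun x : ℕ × (β × α) => q x.2 x.1) := hq.comp Primrec.snd Primrec.fst
    exact Primrec.eq.comp this (Primrec.const true)
  have h2 : PrimrecRel (fun (l : List ℕ) (y : β × α) => ∃ j ∈ l, q y j = true) :=
    h1.exists_mem_list
  have h3 : PrimrecRel (fun (b : β) (z : ℕ × α) => ∃ j ∈ List.range z.1, q (b, z.2) j = true) := by
    refine h2.comp (f := fun x : β × (ℕ × α) => List.range x.2.1)
      (g := fun x : β × (ℕ × α) => (x.1, x.2.2)) ?_ ?_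
    · exact Primrec.list_range.comp (Primrec.fst.comp Primrec.snd)
    · exact Primrec.fst.pair (Primrec.snd.comp Primrec.snd)
  have h4 := h3.forall_mem_list
  have h5 : REPred (fun x : List β × α => ∃ k : ℕ, ∀ b ∈ x.1,
      ∃ j ∈ List.range k, q (b, x.2) j = true) := by
    refine REPred.exists' (p := fun (x : List β × α) (k : ℕ) => ∀ b ∈ x.1,
      ∃ j ∈ List.range k, q (b, x.2) j = true) ?_
    refine REPred.of_primrecPred ?_
    exact h4.comp (f := fun y : (List β × α) × ℕ => y.1.1)
      (g := fun y : (List β × α) × ℕ => (y.2, y.1.2))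
      (Primrec.fst.comp Primrec.fst) (Primrec.snd.pair (Primrec.snd.comp Primrec.fst))
  refine h5.of_eq (fun x => ?_)
  rw [h0]
  simp only [List.mem_range]

end Pool.Agent.H81.SC
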