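import Mathlib
import Pool.Agent.H81.SC.Comb
import Pool.Agent.H81.SC.RE
import Pool.Agent.H81.SC.Defs

/-!
# The game strategy and the prefix-free machine
-/

set_option autoImplicit false

namespace Pool.Agent.H81.SC

open Primrec

/-! ### Primitive recursiveness of the parameters -/

lemma primrec_pow : Primrec₂ (fun a b : ℕ => a ^ b) :=
  Primrec₂.unpaired'.1 Nat.Primrec.pow

lemma primrec_Dt : Primrec Dt :=
  Primrec.nat_mul.comp (Primrec.const 4) (Primrec.nat_add.comp Primrec.id (Primrec.const 1))

lemma primrec_u : Primrec₂ u := by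
  have h : Primrec₂ (fun (t i : ℕ) => (Nat.rec (8 * (t + 1))
      (fun _ v => v * (Dt t * 2 ^ (Dt t * v))) i : ℕ)) := by
    refine Primrec.nat_rec (f := fun t : ℕ => 8 * (t + 1))
      (g := fun (t : ℕ) (p : ℕ × ℕ) => p.2 * (Dt t * 2 ^ (Dt t * p.2))) ?_ ?_
    · exact Primrec.nat_mul.comp (Primrec.const 8)
        (Primrec.nat_add.comp Primrec.id (Primrec.const 1))
    · have hv : Primrec (fun x : ℕ × (ℕ × ℕ) => x.2.2) := Primrec.snd.comp Primrec.snd
      have hD : Primrec (fun x : ℕ × (ℕ × ℕ) => Dt x.1) := primrec_Dt.comp Primrec.fst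
      exact Primrec.nat_mul.comp hv (Primrec.nat_mul.comp hD
        (primrec_pow.comp (Primrec.const 2) (Primrec.nat_mul.comp hD hv)))
  refine h.of_eq (fun t i => ?_)
  induction i with
  | zero => rfl
  | succ i ih =>
    show _ = u t i * (Dt t * 2 ^ (Dt t * u t i))
    rw [← ih]

lemma primrec_len : Primrec₂ len := Primrec.nat_mul.comp (primrec_Dt.comp Primrec.fst) primrec_u

lemma primrec_NN : Primrec NN :=
  primrec_len.comp Primrec.id (Primrec.nat_add.comp
    (Primrec.nat_mul.comp (Primrec.const 2) Primrec.id) (Primrec.const 1))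

lemma infix_iff (τ σ : Str) :
    τ <:+: σ ↔ ∃ i ∈ List.range (σ.length + 1), (σ.drop i).take τ.length = τ := by
  constructor
  · rintro ⟨a, b, rfl⟩
    refine ⟨a.length, ?_, ?_⟩
    · simp only [List.mem_range, List.length_append]
      omega
    · simp
  · rintro ⟨i, -, h⟩
    rw [← h]
    exact (List.take_prefix _ _).isInfix.trans (List.drop_suffix _ _).isInfix

lemma primrec_infix : PrimrecRel (fun τ σ : Str => τ <:+: σ) := by
  have h1 : PrimrecRel (fun (i : ℕ) (y : Str × Str) => (y.2.drop i).take y.1.length = y.1) := by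
    refine Primrec.eq.comp ?_ (Primrec.fst.comp Primrec.snd)
    refine Primrec.list_take.comp (Primrec.list_length.comp (Primrec.fst.comp Primrec.snd)) ?_
    exact Primrec.list_drop.comp Primrec.fst (Primrec.snd.comp Primrec.snd)
  have h2 := h1.exists_mem_list
  have h3 : PrimrecRel (fun τ σ : Str =>
      ∃ i ∈ List.range (σ.length + 1), (σ.drop i).take τ.length = τ) :=
    h2.comp (f := fun x : Str × Str => List.range (x.2.length + 1)) (g := fun x : Str × Str => x)
      (Primrec.list_range.comp (Primrec.succ.comp (Primrec.list_length.comp Primrec.snd)))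
      Primrec.id
  exact h3.of_eq (fun τ σ => (infix_iff τ σ).symm)

lemma primrec_Hits : PrimrecRel (fun (E : List Str) (σ : Str) => Hits E σ) :=
  primrec_infix.exists_mem_list

lemma primrec_nodup : PrimrecPred (fun l : List Str => l.Nodup) := by
  have h1 : PrimrecRel (fun (a : Str) (l : List Str) => (l.filter (fun b => b = a)).length ≤ 1) := by
    have h2 : PrimrecRel (fun (b a : Str) => b = a) := Primrec.eq
    refine Primrec.nat_le.comp (Primrec.list_length.comp ?_) (Primrec.const 1)
    exact h2.listFilter.comp Primrec.snd Primrec.fst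
  have h3 := h1.forall_mem_list
  have h4 : PrimrecPred (fun l : List Str => ∀ a ∈ l, (l.filter (fun b => b = a)).length ≤ 1) :=
    h3.comp (f := fun l : List Str => l) (g := fun l : List Str => l) Primrec.id Primrec.id
  refine h4.of_eq (fun l => ?_)
  rw [List.nodup_iff_count_le_one]
  have h5 : ∀ a, (l.filter (fun b => b = a)).length = l.count a := by
    intro a
    rw [List.count_eq_countP, List.countP_eq_length_filter]
    congr 1
    refine List.filter_congr (fun x _ => ?_)
    by_cases h : x = a
    · simp [h]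
    · simp [h]
  constructor
  · intro h a
    by_cases ha : a ∈ l
    · rw [← h5]; exact h a ha
    · rw [List.count_eq_zero_of_not_mem ha]; omega
  · intro h a _
    rw [h5]; exact h a

/-! ### Certificates and moves -/

/-- a move: a level and a list of strings of the length of that level -/
abbrev Move := ℕ × List Str

/-- a move together with a certificate that it kills much mass -/
abbrev Cert := Move × ℕ × List (Str × ℕ × ℕ)

variable (app : (Str × ℕ × ℕ) → ℕ → Bool)

/-- the certificate `C` is correct in game `t` after history `H` -/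
def Chk (t : ℕ) (H : List Move) (C : Cert) : Prop :=
  C.1.1 ≤ 2 * t + 1 ∧ C.1.2.length = 2 ^ (3 * u t C.1.1) ∧
  (∀ τ ∈ C.1.2, τ.length = len t C.1.1) ∧
  (C.2.2.map Prod.fst).Nodup ∧
  (∀ e ∈ C.2.2, e.1.length = NN t ∧ Hits C.1.2 e.1 ∧ (∀ m ∈ H, ¬ Hits m.2 e.1) ∧
    app (e.1, e.2.1, C.2.1) e.2.2 = true) ∧
  C.2.1 + 1 ≤ 2 ^ (t + 1) * (2 * t + 2) * (C.2.2.map (fun e => e.2.1)).sum

lemma primrec_Chk (happ : Primrec₂ app) :
    PrimrecPred (fun x : (ℕ × List Move) × Cert => Chk app x.1.1 x.1.2 x.2) := by
  have ht : Primrec (fun x : (ℕ × List Move) × Cert => x.1.1) := Primrec.fst.comp Primrec.fst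
  have hH : Primrec (fun x : (ℕ × List Move) × Cert => x.1.2) := Primrec.snd.comp Primrec.fst
  have hi : Primrec (fun x : (ℕ × List Move) × Cert => x.2.1.1) :=
    Primrec.fst.comp (Primrec.fst.comp Primrec.snd)
  have hE : Primrec (fun x : (ℕ × List Move) × Cert => x.2.1.2) :=
    Primrec.snd.comp (Primrec.fst.comp Primrec.snd)
  have hq : Primrec (fun x : (ℕ × List Move) × Cert => x.2.2.1) :=
    Primrec.fst.comp (Primrec.snd.comp Primrec.snd)
  have hL : Primrec (fun x : (ℕ × List Move) × Cert => x.2.2.2) :=
    Primrec.snd.comp (Primrec.snd.comp Primrec.snd)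
  refine PrimrecPred.and ?_ (PrimrecPred.and ?_ (PrimrecPred.and ?_ (PrimrecPred.and ?_
    (PrimrecPred.and ?_ ?_))))
  · exact Primrec.nat_le.comp hi (Primrec.nat_add.comp
      (Primrec.nat_mul.comp (Primrec.const 2) ht) (Primrec.const 1))
  · exact Primrec.eq.comp (Primrec.list_length.comp hE) (primrec_pow.comp (Primrec.const 2)
      (Primrec.nat_mul.comp (Primrec.const 3) (primrec_u.comp ht hi)))
  · have h1 : PrimrecRel (fun (τ : Str) (y : ℕ × ℕ) => τ.length = len y.1 y.2) :=
      Primrec.eq.comp (Primrec.list_length.comp Primrec.fst)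
        (primrec_len.comp (Primrec.fst.comp Primrec.snd) (Primrec.snd.comp Primrec.snd))
    exact h1.forall_mem_list.comp (f := fun x : (ℕ × List Move) × Cert => x.2.1.2)
      (g := fun x : (ℕ × List Move) × Cert => (x.1.1, x.2.1.1)) hE (ht.pair hi)
  · exact primrec_nodup.comp (Primrec.list_map hL (Primrec.fst.comp Primrec.snd).to₂)
  · have h2 : PrimrecRel (fun (m : Move) (σ : Str) => ¬ Hits m.2 σ) := by
      refine PrimrecPred.not ?_
      exact primrec_Hits.comp (f := fun x : Move × Str => x.1.2) (g := fun x : Move × Str => x.2)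
        (Primrec.snd.comp Primrec.fst) Primrec.snd
    have h3 : PrimrecRel (fun (H : List Move) (σ : Str) => ∀ m ∈ H, ¬ Hits m.2 σ) :=
      h2.forall_mem_list
    have h4 : PrimrecRel (fun (e : Str × ℕ × ℕ) (x : (ℕ × List Move) × Cert) =>
        e.1.length = NN x.1.1 ∧ Hits x.2.1.2 e.1 ∧ (∀ m ∈ x.1.2, ¬ Hits m.2 e.1) ∧
        app (e.1, e.2.1, x.2.2.1) e.2.2 = true) := by
      have he1 : Primrec (fun y : (Str × ℕ × ℕ) × ((ℕ × List Move) × Cert) => y.1.1) :=
        Primrec.fst.comp Primrec.fst
      have he2 : Primrec (fun y : (Str × ℕ × ℕ) × ((ℕ × List Move) × Cert) => y.1.2.1) :=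
        Primrec.fst.comp (Primrec.snd.comp Primrec.fst)
      have he3 : Primrec (fun y : (Str × ℕ × ℕ) × ((ℕ × List Move) × Cert) => y.1.2.2) :=
        Primrec.snd.comp (Primrec.snd.comp Primrec.fst)
      refine PrimrecPred.and ?_ (PrimrecPred.and ?_ (PrimrecPred.and ?_ ?_))
      · exact Primrec.eq.comp (Primrec.list_length.comp he1)
          (primrec_NN.comp (ht.comp Primrec.snd))
      · exact primrec_Hits.comp
          (f := fun y : (Str × ℕ × ℕ) × ((ℕ × List Move) × Cert) => y.2.2.1.2)
          (g := fun y : (Str × ℕ × ℕ) × ((ℕ × List Move) × Cert) => y.1.1)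
          (hE.comp Primrec.snd) he1
      · exact h3.comp
          (f := fun y : (Str × ℕ × ℕ) × ((ℕ × List Move) × Cert) => y.2.1.2)
          (g := fun y : (Str × ℕ × ℕ) × ((ℕ × List Move) × Cert) => y.1.1)
          (hH.comp Primrec.snd) he1
      · exact Primrec.eq.comp (happ.comp (he1.pair (he2.pair (hq.comp Primrec.snd))) he3)
          (Primrec.const true)
    exact h4.forall_mem_list.comp (f := fun x : (ℕ × List Move) × Cert => x.2.2.2)
      (g := fun x : (ℕ × List Move) × Cert => x) hL Primrec.id
  · refine Primrec.nat_le.comp (Primrec.nat_add.comp hq (Primrec.const 1)) ?_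
    refine Primrec.nat_mul.comp (Primrec.nat_mul.comp ?_ ?_) ?_
    · exact primrec_pow.comp (Primrec.const 2) (Primrec.nat_add.comp ht (Primrec.const 1))
    · exact Primrec.nat_add.comp (Primrec.nat_mul.comp (Primrec.const 2) ht) (Primrec.const 2)
    · have h5 : Primrec (fun l : List (Str × ℕ × ℕ) => (l.map (fun e => e.2.1)).sum) := by
        have h6 : Primrec (fun l : List (Str × ℕ × ℕ) =>
            l.foldr (fun e s => e.2.1 + s) 0) :=
          Primrec.list_foldr Primrec.id (Primrec.const 0)
            (Primrec.nat_add.comp (Primrec.fst.comp (Primrec.snd.comp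
              (Primrec.fst.comp Primrec.snd))) (Primrec.snd.comp Primrec.snd)).to₂
        refine h6.of_eq (fun l => ?_)
        induction l with
        | nil => rfl
        | cons a l ih => simp [ih]
      exact h5.comp hL

open Classical in
/-- the next move: the first move found together with a correct certificate -/
noncomputable def step (x : ℕ × List Move) : Part Move :=
  Nat.rfindOpt (fun n => (Encodable.decode (α := Cert) n).bind
    (fun C => if Chk app x.1 x.2 C then some C.1 else none))

lemma partrec_step (happ : Primrec₂ app) : Partrec (step app) := by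
  classical
  refine Partrec.rfindOpt ?_
  refine Primrec₂.to_comp ?_
  refine Primrec.option_bind (Primrec.decode.comp Primrec.snd) ?_
  refine Primrec.ite ?_ ?_ (Primrec.const none)
  · exact (primrec_Chk app happ).comp (f := fun y : ((ℕ × List Move) × ℕ) × Cert => (y.1.1, y.2))
      ((Primrec.fst.comp Primrec.fst).pair Primrec.snd)
  · exact Primrec.option_some.comp (Primrec.fst.comp Primrec.snd)

lemma step_spec {t : ℕ} {H : List Move} {m : Move} (h : m ∈ step app (t, H)) :
    ∃ C, Chk app t H C ∧ C.1 = m := by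
  classical
  obtain ⟨n, hn⟩ := Nat.rfindOpt_spec h
  rw [Option.mem_def, Option.bind_eq_some_iff] at hn
  obtain ⟨C, -, hC⟩ := hn
  split_ifs at hC with h1
  exact ⟨C, h1, by simpa using hC⟩

lemma step_dom {t : ℕ} {H : List Move} {C : Cert} (h : Chk app t H C) :
    (step app (t, H)).Dom := by
  classical
  refine Nat.rfindOpt_dom.2 ⟨Encodable.encode C, C.1, ?_⟩
  rw [Encodable.encodek]
  simp [h]

/-- the history after `r` rounds of game `t` -/
noncomputable def hist (t r : ℕ) : Part (List Move) :=
  Nat.rec (Part.some []) (fun _ IH => IH.bind (fun H => (step app (t, H)).map (fun m => H ++ [m]))) r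

lemma partrec_hist (happ : Primrec₂ app) : Partrec₂ (hist app) := by
  refine Partrec.nat_rec (f := fun x : ℕ × ℕ => x.2) (g := fun _ : ℕ × ℕ => Part.some [])
    (h := fun (x : ℕ × ℕ) (y : ℕ × List Move) => (step app (x.1, y.2)).map (fun m => y.2 ++ [m]))
    Computable.snd (Computable.const []).partrec ?_
  refine Partrec.map ?_ ?_
  · exact (partrec_step app happ).comp
      ((Computable.fst.comp Computable.fst).pair (Computable.snd.comp Computable.snd))
  · have h1 : Primrec₂ (fun (l : List Move) (m : Move) => l ++ [m]) := Primrec.list_concat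
    have h2 : Primrec (fun z : ((ℕ × ℕ) × (ℕ × List Move)) × Move => z.1.2.2) :=
      Primrec.snd.comp (Primrec.snd.comp Primrec.fst)
    have h3 : Primrec (fun z : ((ℕ × ℕ) × (ℕ × List Move)) × Move => z.1.2.2 ++ [z.2]) :=
      h1.comp h2 Primrec.snd
    exact h3.to_comp

lemma hist_zero (t : ℕ) : hist app t 0 = Part.some [] := rfl

lemma hist_succ (t r : ℕ) : hist app t (r + 1) =
    (hist app t r).bind (fun H => (step app (t, H)).map (fun m => H ++ [m])) := rfl

end Pool.Agent.H81.SC
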