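import Mathlib
import Pool.Agent.H81.SC.Game

/-!
# Semimeasures and the outcome of the game
-/

set_option autoImplicit false

namespace Pool.Agent.H81.SC

lemma sum_dropLast {M : Str → ℝ} (hM : IsSemimeasure M) (n : ℕ) (S : Finset Str)
    (hS : ∀ σ ∈ S, σ.length = n + 1) :
    ∑ σ ∈ S, M σ ≤ ∑ τ ∈ S.image List.dropLast, M τ := by
  classical
  rw [← Finset.sum_fiberwise_of_maps_to (g := List.dropLast) (t := S.image List.dropLast)
    (fun σ hσ => Finset.mem_image_of_mem _ hσ)]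
  refine Finset.sum_le_sum (fun τ _ => ?_)
  have h1 : S.filter (fun σ => σ.dropLast = τ) ⊆ {τ ++ [false], τ ++ [true]} := by
    intro σ hσ
    obtain ⟨h2, h3⟩ := Finset.mem_filter.1 hσ
    have h4 : σ ≠ [] := by
      intro h
      have := hS σ h2
      rw [h] at this
      simp at this
    have h5 := List.dropLast_append_getLast h4
    rw [h3] at h5
    rw [← h5, Finset.mem_insert, Finset.mem_singleton]
    cases σ.getLast h4 <;> simp
  refine (Finset.sum_le_sum_of_subset_of_nonneg h1 (fun _ _ _ => hM.nonneg _)).trans ?_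
  rw [Finset.sum_pair (by simp)]
  exact hM.split τ

lemma sum_take {M : Str → ℝ} (hM : IsSemimeasure M) (m k : ℕ) (S : Finset Str)
    (hS : ∀ σ ∈ S, σ.length = m + k) :
    ∑ σ ∈ S, M σ ≤ ∑ τ ∈ S.image (List.take m), M τ := by
  classical
  induction k generalizing S with
  | zero =>
    refine le_of_eq ?_
    have : S.image (List.take m) = S := by
      have h1 : ∀ σ ∈ S, List.take m σ = id σ := by
        intro σ hσ
        have := hS σ hσ
        exact List.take_of_length_le (by omega)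
      rw [Finset.image_congr h1, Finset.image_id]
    rw [this]
  | succ k ih =>
    have h1 : ∀ σ ∈ S.image List.dropLast, σ.length = m + k := by
      intro σ hσ
      obtain ⟨ρ, hρ, rfl⟩ := Finset.mem_image.1 hσ
      rw [List.length_dropLast, hS ρ hρ]
      omega
    refine (sum_dropLast hM (m + k) S (fun σ hσ => by rw [hS σ hσ]; omega)).trans ?_
    refine (ih _ h1).trans (le_of_eq ?_)
    rw [Finset.image_image]
    refine Finset.sum_congr (Finset.image_congr ?_) (fun _ _ => rfl)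
    intro σ hσ
    have h2 := hS σ hσ
    show List.take m σ.dropLast = List.take m σ
    rw [List.dropLast_eq_take, List.take_take]
    congr 1
    omega

lemma sum_le_one {M : Str → ℝ} (hM : IsSemimeasure M) (n : ℕ) (S : Finset Str)
    (hS : ∀ σ ∈ S, σ.length = n) : ∑ σ ∈ S, M σ ≤ 1 := by
  classical
  have h1 := sum_take hM 0 n S (fun σ hσ => by rw [hS σ hσ]; omega)
  refine h1.trans ?_
  have h2 : S.image (List.take 0) ⊆ {[]} := by
    intro σ hσ
    obtain ⟨ρ, -, rfl⟩ := Finset.mem_image.1 hσ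
    simp
  refine (Finset.sum_le_sum_of_subset_of_nonneg h2 (fun _ _ _ => hM.nonneg _)).trans ?_
  rw [Finset.sum_singleton]
  exact hM.root

section game

variable {M : Str → ℝ} (hM : IsSemimeasure M) {app : (Str × ℕ × ℕ) → ℕ → Bool}
  (happ : ∀ x : Str × ℕ × ℕ, ((x.2.1 : ℝ) / (x.2.2 + 1) < M x.1) ↔ ∃ k, app x k = true)

include hM happ

/-- a correct certificate certifies mass -/
lemma Chk.mass {t : ℕ} {H : List Move} {C : Cert} (h : Chk app t H C) :
    ∃ L : Finset Str, (∀ σ ∈ L, σ.length = NN t ∧ Hits C.1.2 σ ∧ ∀ m ∈ H, ¬ Hits m.2 σ) ∧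
      1 ≤ (2 ^ (t + 1) * (2 * t + 2) : ℝ) * ∑ σ ∈ L, M σ := by
  classical
  obtain ⟨-, -, -, h4, h5, h6⟩ := h
  refine ⟨(C.2.2.map Prod.fst).toFinset, ?_, ?_⟩
  · intro σ hσ
    rw [List.mem_toFinset, List.mem_map] at hσ
    obtain ⟨e, he, rfl⟩ := hσ
    exact ⟨(h5 e he).1, (h5 e he).2.1, (h5 e he).2.2.1⟩
  · rw [List.sum_toFinset _ h4]
    have h7 : (0 : ℝ) < C.2.1 + 1 := by positivity
    have h8 : (((C.2.2.map (fun e => e.2.1)).sum : ℕ) : ℝ) ≤
        (C.2.1 + 1) * ((C.2.2.map Prod.fst).map M).sum := by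
      have h9 : ∀ l : List (Str × ℕ × ℕ), (∀ e ∈ l, app (e.1, e.2.1, C.2.1) e.2.2 = true) →
          (((l.map (fun e => e.2.1)).sum : ℕ) : ℝ) ≤
            (C.2.1 + 1) * ((l.map Prod.fst).map M).sum := by
        intro l
        induction l with
        | nil => intro _; simp
        | cons e l ih =>
          intro hl
          have h10 := ih (fun e' he' => hl e' (List.mem_cons_of_mem _ he'))
          have h11 : ((e.2.1 : ℕ) : ℝ) / (C.2.1 + 1) < M e.1 :=
            (happ (e.1, e.2.1, C.2.1)).2 ⟨_, hl e List.mem_cons_self⟩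
          rw [div_lt_iff₀ h7] at h11
          simp only [List.map_cons, List.sum_cons, Nat.cast_add]
          rw [mul_add]
          have h12 : M e.1 * (C.2.1 + 1) = (C.2.1 + 1) * M e.1 := mul_comm _ _
          linarith
      exact h9 C.2.2 (fun e he => (h5 e he).2.2.2)
    have h13 : (C.2.1 : ℝ) + 1 ≤ (2 ^ (t + 1) * (2 * t + 2) : ℝ) *
        (((C.2.2.map (fun e => e.2.1)).sum : ℕ) : ℝ) := by
      have h14 : ((C.2.1 + 1 : ℕ) : ℝ) ≤
          ((2 ^ (t + 1) * (2 * t + 2) * (C.2.2.map (fun e => e.2.1)).sum : ℕ) : ℝ) := by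
        exact_mod_cast h6
      push_cast at h14 ⊢
      exact h14
    have h15 : (0 : ℝ) ≤ 2 ^ (t + 1) * (2 * t + 2) := by positivity
    have h16 := h13.trans (mul_le_mul_of_nonneg_left h8 h15)
    rw [← mul_assoc, mul_comm _ ((C.2.1 : ℝ) + 1), mul_assoc] at h16
    by_contra hcon
    push Not at hcon
    nlinarith

/-- the mass killed during `r` rounds -/
lemma hist_mass {t r : ℕ} {H : List Move} (h : H ∈ hist app t r) :
    H.length = r ∧ ∃ S : Finset Str, (∀ σ ∈ S, σ.length = NN t ∧ ∃ m ∈ H, Hits m.2 σ) ∧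
      (r : ℝ) ≤ (2 ^ (t + 1) * (2 * t + 2) : ℝ) * ∑ σ ∈ S, M σ := by
  classical
  induction r generalizing H with
  | zero =>
    rw [hist_zero, Part.mem_some_iff] at h
    subst h
    exact ⟨rfl, ∅, by simp, by simp⟩
  | succ r ih =>
    rw [hist_succ, Part.mem_bind_iff] at h
    obtain ⟨H', hH', h⟩ := h
    rw [Part.mem_map_iff] at h
    obtain ⟨m, hm, rfl⟩ := h
    obtain ⟨h1, S, h2, h3⟩ := ih hH'
    obtain ⟨C, hC, rfl⟩ := step_spec app hm
    obtain ⟨L, h4, h5⟩ := hC.mass hM happ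
    refine ⟨by simp [h1], S ∪ L, ?_, ?_⟩
    · intro σ hσ
      rcases Finset.mem_union.1 hσ with h | h
      · obtain ⟨h6, m, hm, h7⟩ := h2 σ h
        exact ⟨h6, m, List.mem_append_left _ hm, h7⟩
      · exact ⟨(h4 σ h).1, C.1, by simp, (h4 σ h).2.1⟩
    · rw [Finset.sum_union]
      · push_cast
        rw [mul_add]
        linarith
      · rw [Finset.disjoint_left]
        intro σ h6 h7
        obtain ⟨-, m, hm, h8⟩ := h2 σ h6
        exact (h4 σ h7).2.2 m hm h8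

/-- few rounds -/
lemma hist_rounds {t r : ℕ} {H : List Move} (h : H ∈ hist app t r) :
    r ≤ 2 ^ (t + 1) * (2 * t + 2) := by
  obtain ⟨-, S, h1, h2⟩ := hist_mass hM happ h
  have h3 := sum_le_one hM (NN t) S (fun σ hσ => (h1 σ hσ).1)
  have h4 : (0 : ℝ) ≤ 2 ^ (t + 1) * (2 * t + 2) := by positivity
  have h5 : (r : ℝ) ≤ 2 ^ (t + 1) * (2 * t + 2) := by
    calc (r : ℝ) ≤ _ := h2
      _ ≤ (2 ^ (t + 1) * (2 * t + 2) : ℝ) * 1 := mul_le_mul_of_nonneg_left h3 h4
      _ = _ := mul_one _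
  have h6 : ((r : ℕ) : ℝ) ≤ ((2 ^ (t + 1) * (2 * t + 2) : ℕ) : ℝ) := by
    push_cast
    exact h5
  exact_mod_cast h6

/-- the game gets stuck -/
lemma exists_stuck (t : ℕ) : ∃ r, ∃ H, H ∈ hist app t r ∧ ¬ (step app (t, H)).Dom := by
  by_contra hcon
  push Not at hcon
  have h1 : ∀ r, (hist app t r).Dom := by
    intro r
    induction r with
    | zero => rw [hist_zero]; trivial
    | succ r ih =>
      obtain ⟨H, hH⟩ := Part.dom_iff_mem.1 ih
      obtain ⟨m, hm⟩ := Part.dom_iff_mem.1 (hcon r H hH)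
      refine Part.dom_iff_mem.2 ⟨H ++ [m], ?_⟩
      rw [hist_succ, Part.mem_bind_iff]
      exact ⟨H, hH, Part.mem_map_iff _ |>.2 ⟨m, hm, rfl⟩⟩
  obtain ⟨H, hH⟩ := Part.dom_iff_mem.1 (h1 (2 ^ (t + 1) * (2 * t + 2) + 1))
  have := hist_rounds hM happ hH
  omega

/-- at a stuck position the surviving mass is small -/
lemma stuck_mass {t r : ℕ} {H : List Move} (h : H ∈ hist app t r)
    (hs : ¬ (step app (t, H)).Dom) (A : Finset Str)
    (hA : ∀ σ ∈ A, σ.length = NN t ∧ ∀ m ∈ H, ¬ Hits m.2 σ) :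
    ∑ σ ∈ A, M σ ≤ (1 / 2) ^ t := by
  classical
  by_contra hcon
  push Not at hcon
  obtain ⟨i, hi, E, hE1, hE2, hE3⟩ := exists_move t A (fun σ hσ => (hA σ hσ).1) M hM.nonneg
  set S : Finset Str := A.filter (fun σ => Hits E σ) with hS
  have h1 := hE3 S (fun σ h2 h3 => Finset.mem_filter.2 ⟨h2, h3⟩)
  set Q : ℝ := 2 ^ (t + 1) * (2 * t + 2) with hQ
  have hQpos : 0 < Q := by positivity
  have h2 : 1 < Q * ∑ σ ∈ S, M σ := by
    have h3 : (1 / 2 : ℝ) ^ t < (2 * (2 * t + 2) : ℝ) * ∑ σ ∈ S, M σ := lt_of_lt_of_le hcon h1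
    have h4 : (0 : ℝ) < 2 ^ t := by positivity
    have h5 : (2 : ℝ) ^ t * (1 / 2) ^ t = 1 := by
      rw [← mul_pow]; norm_num
    have h6 := mul_lt_mul_of_pos_left h3 h4
    rw [h5] at h6
    calc (1 : ℝ) < 2 ^ t * (2 * (2 * t + 2) * ∑ σ ∈ S, M σ) := h6
      _ = _ := by rw [hQ, pow_succ]; ring
  -- choose the precision
  obtain ⟨q, hq⟩ : ∃ q : ℕ, Q * S.card ≤ (q + 1 : ℝ) * (Q * ∑ σ ∈ S, M σ - 1) := by
    obtain ⟨q, hq⟩ := exists_nat_ge (Q * S.card / (Q * ∑ σ ∈ S, M σ - 1))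
    refine ⟨q, ?_⟩
    have h7 : 0 < Q * ∑ σ ∈ S, M σ - 1 := by linarith
    rw [div_le_iff₀ h7] at hq
    nlinarith
  -- approximations from below
  have h8 : ∀ σ : Str, 0 < M σ → ∃ a k : ℕ, app (σ, a, q) k = true ∧ (q + 1 : ℝ) * M σ - 1 ≤ a := by
    intro σ hσ
    have h9 : 0 < (q + 1 : ℝ) * M σ := by positivity
    obtain ⟨a, ha⟩ : ∃ a : ℕ, ⌈(q + 1 : ℝ) * M σ⌉₊ = a + 1 :=
      Nat.exists_eq_succ_of_ne_zero (Nat.ceil_pos.2 h9).ne'
    have h10 : (a : ℝ) < (q + 1 : ℝ) * M σ := by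
      have : a < ⌈(q + 1 : ℝ) * M σ⌉₊ := by omega
      exact Nat.lt_ceil.1 this
    have h11 : (q + 1 : ℝ) * M σ ≤ a + 1 := by
      have := Nat.le_ceil ((q + 1 : ℝ) * M σ)
      rw [ha] at this
      push_cast at this
      exact this
    have h12 : ((a : ℕ) : ℝ) / (q + 1) < M σ := by
      rw [div_lt_iff₀ (by positivity)]
      linarith
    obtain ⟨k, hk⟩ := (happ (σ, a, q)).1 h12
    exact ⟨a, k, hk, by linarith⟩
  choose! a k hak using h8
  set L : List (Str × ℕ × ℕ) := ((S.filter (fun σ => 0 < M σ)).toList).map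
    (fun σ => (σ, a σ, k σ)) with hL
  have hfst : L.map Prod.fst = (S.filter (fun σ => 0 < M σ)).toList := by
    rw [hL, List.map_map]
    exact List.map_id _
  apply hs
  refine step_dom app (C := ((i, E), q, L)) ⟨hi, hE1, hE2, ?_, ?_, ?_⟩
  · show (L.map Prod.fst).Nodup
    rw [hfst]
    exact Finset.nodup_toList _
  · intro e he
    obtain ⟨σ, hσ, rfl⟩ := List.mem_map.1 he
    rw [Finset.mem_toList, Finset.mem_filter, hS, Finset.mem_filter] at hσ
    obtain ⟨⟨h13, h14⟩, h15⟩ := hσ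
    exact ⟨(hA σ h13).1, h14, (hA σ h13).2, (hak σ h15).1⟩
  · have h16 : (L.map (fun e => e.2.1)).sum = ∑ σ ∈ S.filter (fun σ => 0 < M σ), a σ := by
      rw [hL, List.map_map, ← Finset.sum_map_toList]
      rfl
    show q + 1 ≤ 2 ^ (t + 1) * (2 * t + 2) * (L.map (fun e => e.2.1)).sum
    rw [h16]
    have h17 : (q + 1 : ℝ) * ∑ σ ∈ S, M σ - S.card ≤
        ((∑ σ ∈ S.filter (fun σ => 0 < M σ), a σ : ℕ) : ℝ) := by
      have h18 : ∑ σ ∈ S, M σ = ∑ σ ∈ S.filter (fun σ => 0 < M σ), M σ := by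
        symm
        refine Finset.sum_filter_of_ne (fun σ _ h => ?_)
        exact lt_of_le_of_ne (hM.nonneg σ) (Ne.symm h)
      rw [h18]
      push_cast
      have h19 : ∑ σ ∈ S.filter (fun σ => 0 < M σ), ((q + 1 : ℝ) * M σ - 1) ≤
          ∑ σ ∈ S.filter (fun σ => 0 < M σ), (a σ : ℝ) :=
        Finset.sum_le_sum (fun σ hσ => (hak σ (Finset.mem_filter.1 hσ).2).2)
      rw [Finset.sum_sub_distrib, ← Finset.mul_sum, Finset.sum_const, nsmul_eq_mul, mul_one] at h19
      have h20 : ((S.filter (fun σ => 0 < M σ)).card : ℝ) ≤ S.card := by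
        exact_mod_cast Finset.card_filter_le _ _
      linarith
    have h21 : (q + 1 : ℝ) ≤ Q * ((∑ σ ∈ S.filter (fun σ => 0 < M σ), a σ : ℕ) : ℝ) := by
      have h22 := mul_le_mul_of_nonneg_left h17 hQpos.le
      nlinarith
    have h23 : ((q + 1 : ℕ) : ℝ) ≤ ((2 ^ (t + 1) * (2 * t + 2) *
        ∑ σ ∈ S.filter (fun σ => 0 < M σ), a σ : ℕ) : ℝ) := by
      push_cast at h21 ⊢
      exact h21
    exact_mod_cast h23

end game

end Pool.Agent.H81.SC
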