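import Mathlib
import Pool.Agent.H81.SC.Semi

/-!
# The prefix-free machine playing all the games, and deepness
-/

set_option autoImplicit false

namespace Pool.Agent.H81.SC

/-- `n` zeros -/
def zeros (n : ℕ) : Str := (List.range n).map (fun _ => false)

lemma zeros_succ (n : ℕ) : zeros (n + 1) = false :: zeros n := by
  unfold zeros
  rw [List.range_succ_eq_map]
  simp [Function.comp_def]

lemma zeros_length (n : ℕ) : (zeros n).length = n := by simp [zeros]

/-- self-delimiting header -/
def code (t i : ℕ) (s : Str) : Str := zeros t ++ (true :: (zeros i ++ (true :: s)))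

lemma code_length (t i : ℕ) (s : Str) : (code t i s).length = t + i + 2 + s.length := by
  unfold code
  simp [zeros_length]
  omega

lemma takeWhile_zeros (n : ℕ) (s : Str) :
    ((zeros n ++ (true :: s)).takeWhile (fun b => !b)).length = n := by
  induction n with
  | zero => simp [zeros]
  | succ n ih => rw [zeros_succ]; simpa using ih

lemma dropWhile_zeros (n : ℕ) (s : Str) :
    (zeros n ++ (true :: s)).dropWhile (fun b => !b) = true :: s := by
  induction n with
  | zero => simp [zeros]
  | succ n ih => rw [zeros_succ]; simpa using ih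

/-- parsing -/
def pt (p : Str) : ℕ := (p.takeWhile (fun b => !b)).length
def p1 (p : Str) : Str := (p.dropWhile (fun b => !b)).tail
def pI (p : Str) : ℕ := pt (p1 p)
def ps (p : Str) : Str := p1 (p1 p)

lemma pt_code (t i : ℕ) (s : Str) : pt (code t i s) = t := takeWhile_zeros t _
lemma p1_code (t i : ℕ) (s : Str) : p1 (code t i s) = zeros i ++ (true :: s) := by
  unfold p1 code
  rw [dropWhile_zeros]
  rfl
lemma pI_code (t i : ℕ) (s : Str) : pI (code t i s) = i := by
  unfold pI
  rw [p1_code]
  exact takeWhile_zeros i _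
lemma ps_code (t i : ℕ) (s : Str) : ps (code t i s) = s := by
  unfold ps
  rw [p1_code]
  unfold p1
  rw [dropWhile_zeros]
  rfl

/-- value of a binary string -/
def val (s : Str) : ℕ := s.foldr (fun b n => 2 * n + cond b 1 0) 0

lemma exists_bits (n k : ℕ) (h : k < 2 ^ n) : ∃ s : Str, s.length = n ∧ val s = k := by
  induction n generalizing k with
  | zero => exact ⟨[], rfl, by simp at h; simp [val, h]⟩
  | succ n ih =>
    obtain ⟨s, hs, hv⟩ := ih (k / 2) (by rw [pow_succ] at h; omega)
    refine ⟨(k % 2 == 1) :: s, by simp [hs], ?_⟩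
    show 2 * val s + cond (k % 2 == 1) 1 0 = k
    rw [hv]
    rcases Nat.mod_two_eq_zero_or_one k with h1 | h1
    · rw [h1]; simp; omega
    · rw [h1]; simp; omega

/-- length of the index part of a program -/
def ilen (t i : ℕ) : ℕ := 3 * u t i + (2 * t + 2)

variable (app : (Str × ℕ × ℕ) → ℕ → Bool)

/-- valid programs -/
def okProg (p : Str) : Prop := code (pt p) (pI p) (ps p) = p ∧ (ps p).length = ilen (pt p) (pI p)

/-- extraction of the output from a history -/
def extract (p : Str) (H : List Move) : Option Str :=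
  (H[val ((ps p).take (2 * pt p + 2))]?).bind (fun m =>
    if m.1 = pI p then m.2[val ((ps p).drop (2 * pt p + 2))]? else none)

open Classical in
/-- guard for valid programs -/
noncomputable def guardProg (p : Str) : Option Unit := if okProg p then some () else none

/-- the machine -/
noncomputable def V (p : Str) : Part Str :=
  (guardProg p : Part Unit).bind (fun _ =>
    (hist app (pt p) (val ((ps p).take (2 * pt p + 2)) + 1)).bind (fun H => (extract p H : Part Str)))

lemma primrec_pt : Primrec pt :=
  Primrec.list_length.comp (Primrec.list_takeWhile (p := fun b : Bool => !b)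
    (Primrec.not.comp Primrec.id))

lemma primrec_p1 : Primrec p1 :=
  Primrec.list_tail.comp (Primrec.list_dropWhile (p := fun b : Bool => !b)
    (Primrec.not.comp Primrec.id))

lemma primrec_pI : Primrec pI := primrec_pt.comp primrec_p1

lemma primrec_ps : Primrec ps := primrec_p1.comp primrec_p1

lemma primrec_zeros : Primrec zeros :=
  Primrec.list_map Primrec.list_range (Primrec.const false).to₂

lemma primrec_code : Primrec (fun x : ℕ × ℕ × Str => code x.1 x.2.1 x.2.2) := by
  unfold code
  refine Primrec.list_append.comp (primrec_zeros.comp Primrec.fst) ?_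
  refine Primrec.list_cons.comp (Primrec.const true) ?_
  refine Primrec.list_append.comp (primrec_zeros.comp (Primrec.fst.comp Primrec.snd)) ?_
  exact Primrec.list_cons.comp (Primrec.const true) (Primrec.snd.comp Primrec.snd)

lemma primrec_val : Primrec val :=
  Primrec.list_foldr Primrec.id (Primrec.const 0)
    (Primrec.nat_add.comp (Primrec.nat_mul.comp (Primrec.const 2) (Primrec.snd.comp Primrec.snd))
      (Primrec.cond (Primrec.fst.comp Primrec.snd) (Primrec.const 1) (Primrec.const 0))).to₂

lemma primrec_ilen : Primrec₂ ilen :=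
  Primrec.nat_add.comp (Primrec.nat_mul.comp (Primrec.const 3) primrec_u)
    (Primrec.nat_add.comp (Primrec.nat_mul.comp (Primrec.const 2) Primrec.fst) (Primrec.const 2))

lemma primrec_okProg : PrimrecPred okProg := by
  refine PrimrecPred.and ?_ ?_
  · exact Primrec.eq.comp (primrec_code.comp
      (primrec_pt.pair (primrec_pI.pair primrec_ps))) Primrec.id
  · exact Primrec.eq.comp (Primrec.list_length.comp primrec_ps)
      (primrec_ilen.comp primrec_pt primrec_pI)

lemma primrec_guard : Primrec guardProg := by
  classical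
  unfold guardProg
  exact Primrec.ite primrec_okProg (Primrec.const (some ())) (Primrec.const none)

lemma primrec_cut : Primrec (fun p : Str => 2 * pt p + 2) :=
  Primrec.nat_add.comp (Primrec.nat_mul.comp (Primrec.const 2) primrec_pt) (Primrec.const 2)

lemma primrec_extract : Primrec₂ extract := by
  have h1 : Primrec (fun x : Str × List Move => x.2[val ((ps x.1).take (2 * pt x.1 + 2))]?) :=
    Primrec.list_getElem?.comp Primrec.snd (primrec_val.comp (Primrec.list_take.comp
      (primrec_cut.comp Primrec.fst) (primrec_ps.comp Primrec.fst)))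
  refine Primrec.option_bind h1 ?_
  refine Primrec.ite ?_ ?_ (Primrec.const none)
  · exact Primrec.eq.comp (Primrec.fst.comp Primrec.snd)
      (primrec_pI.comp (Primrec.fst.comp Primrec.fst))
  · exact Primrec.list_getElem?.comp (Primrec.snd.comp Primrec.snd)
      (primrec_val.comp (Primrec.list_drop.comp
        (primrec_cut.comp (Primrec.fst.comp Primrec.fst))
        (primrec_ps.comp (Primrec.fst.comp Primrec.fst))))

/-- the partial history used by the program `p` -/
noncomputable def histOf (p : Str) : Part (List Move) :=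
  hist app (pt p) (val ((ps p).take (2 * pt p + 2)) + 1)

lemma partrec_histOf (happ : Primrec₂ app) : Partrec (histOf app) := by
  have h1 : Primrec (fun p : Str => val ((ps p).take (2 * pt p + 2)) + 1) :=
    Primrec.succ.comp (primrec_val.comp (Primrec.list_take.comp primrec_cut primrec_ps))
  exact (partrec_hist app happ).comp primrec_pt.to_comp h1.to_comp

lemma partrec_V (happ : Primrec₂ app) : Partrec (V app) := by
  have h2 : Primrec (fun y : (Str × Unit) × List Move => extract y.1.1 y.2) :=
    primrec_extract.comp (Primrec.fst.comp Primrec.fst) Primrec.snd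
  have h3 : Partrec (fun y : (Str × Unit) × List Move => (extract y.1.1 y.2 : Part Str)) :=
    Computable.ofOption h2.to_comp
  have h4 : Partrec (fun x : Str × Unit => histOf app x.1) :=
    (partrec_histOf app happ).comp Computable.fst
  have h5 : Partrec (fun x : Str × Unit => (histOf app x.1).bind
      (fun H => (extract x.1 H : Part Str))) := Partrec.bind h4 h3
  have h6 : Partrec (fun p : Str => (guardProg p : Part Unit)) :=
    Computable.ofOption primrec_guard.to_comp
  have h7 : Partrec (fun p : Str => (guardProg p : Part Unit).bind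
      (fun _ => (histOf app p).bind (fun H => (extract p H : Part Str)))) := Partrec.bind h6 h5
  exact h7

lemma V_dom {p : Str} (h : (V app p).Dom) : okProg p := by
  classical
  unfold V at h
  obtain ⟨x, hx⟩ := Part.dom_iff_mem.1 h
  rw [Part.mem_bind_iff] at hx
  obtain ⟨y, hy, -⟩ := hx
  rw [Part.mem_ofOption] at hy
  unfold guardProg at hy
  by_contra hcon
  rw [if_neg hcon] at hy
  simp at hy

lemma prefixFree_V (happ : Primrec₂ app) : IsPrefixFreeMachine (V app) := by
  refine ⟨partrec_V app happ, ?_⟩
  rintro p q hp hq ⟨w, hw⟩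
  obtain ⟨h1, h2⟩ := V_dom app hp
  obtain ⟨h3, h4⟩ := V_dom app hq
  -- `q = p ++ w = code t i (s ++ w)`
  have h5 : code (pt p) (pI p) (ps p ++ w) = q := by
    rw [← hw]
    conv_rhs => rw [← h1]
    unfold code
    simp
  have h6 : pt q = pt p := by rw [← h5, pt_code]
  have h7 : pI q = pI p := by rw [← h5, pI_code]
  have h8 : ps q = ps p ++ w := by rw [← h5, ps_code]
  rw [h6, h7, h8, List.length_append, h2] at h4
  have h9 : w = [] := List.length_eq_zero_iff.1 (by omega)
  rw [← hw, h9, List.append_nil]

/-- strings played in game `t` have short programs -/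
lemma V_short {M : Str → ℝ} (hM : IsSemimeasure M)
    (happ : ∀ x : Str × ℕ × ℕ, ((x.2.1 : ℝ) / (x.2.2 + 1) < M x.1) ↔ ∃ k, app x k = true)
    {t r : ℕ} {H : List Move} (h : H ∈ hist app t r) {m : Move} (hm : m ∈ H) {τ : Str}
    (hτ : τ ∈ m.2) :
    m.1 ≤ 2 * t + 1 ∧ τ.length = len t m.1 ∧
      ∃ p : Str, p.length ≤ 3 * u t m.1 + 5 * t + 6 ∧ τ ∈ V app p := by
  classical
  induction r generalizing H with
  | zero =>
    rw [hist_zero, Part.mem_some_iff] at h
    subst h
    simp at hm
  | succ r ih =>
    have h' := h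
    rw [hist_succ, Part.mem_bind_iff] at h
    obtain ⟨H', hH', h⟩ := h
    rw [Part.mem_map_iff] at h
    obtain ⟨m', hm', rfl⟩ := h
    rcases List.mem_append.1 hm with h1 | h1
    · exact ih hH' h1
    · rw [List.mem_singleton] at h1
      subst h1
      obtain ⟨C, hC, rfl⟩ := step_spec app hm'
      have hlen := (hist_mass hM happ hH').1
      have hr := hist_rounds hM happ h'
      have hi := hC.1
      have hr2 : r < 2 ^ (2 * t + 2) := by
        have h2 : 2 * t + 2 ≤ 2 ^ (t + 1) := by
          have : ∀ n : ℕ, 2 * n + 2 ≤ 2 ^ (n + 1) := by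
            intro n
            induction n with
            | zero => norm_num
            | succ n ih => rw [pow_succ]; omega
          exact this t
        have h3 : 2 ^ (t + 1) * (2 * t + 2) ≤ 2 ^ (t + 1) * 2 ^ (t + 1) :=
          Nat.mul_le_mul_left _ h2
        have h4 : 2 ^ (t + 1) * 2 ^ (t + 1) = 2 ^ (2 * t + 2) := by
          rw [← pow_add]; congr 1; omega
        omega
      obtain ⟨j, hj, hj2⟩ := List.getElem_of_mem hτ
      have hj3 : j < 2 ^ (3 * u t C.1.1) := by rw [← hC.2.1]; exact hj
      obtain ⟨s1, hs1, hv1⟩ := exists_bits _ _ hr2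
      obtain ⟨s2, hs2, hv2⟩ := exists_bits _ _ hj3
      refine ⟨hi, hC.2.2.1 τ hτ, code t C.1.1 (s1 ++ s2), ?_, ?_⟩
      · rw [code_length, List.length_append, hs1, hs2]
        omega
      · unfold V
        have hok : okProg (code t C.1.1 (s1 ++ s2)) := by
          unfold okProg
          rw [pt_code, pI_code, ps_code]
          refine ⟨rfl, ?_⟩
          rw [List.length_append, hs1, hs2]
          unfold ilen
          omega
        have htake : (s1 ++ s2).take (2 * t + 2) = s1 := by
          rw [← hs1]; simp
        have hdrop : (s1 ++ s2).drop (2 * t + 2) = s2 := by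
          rw [← hs1]; simp
        rw [Part.mem_bind_iff]
        refine ⟨(), ?_, ?_⟩
        · rw [Part.mem_ofOption]
          unfold guardProg
          rw [if_pos hok]
          rfl
        · rw [Part.mem_bind_iff, pt_code, ps_code, htake, hv1]
          refine ⟨H' ++ [C.1], h', ?_⟩
          rw [Part.mem_ofOption]
          unfold extract
          rw [pt_code, ps_code, pI_code, htake, hv1, hdrop, hv2]
          have h5 : (H' ++ [C.1])[r]? = some C.1 := by
            rw [← hlen]; simp
          rw [h5]
          simp only [Option.bind_some, if_true]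
          rw [List.getElem?_eq_getElem hj, hj2]
          rfl

/-! ### The order function -/

/-- cumulative lengths -/
def LL : ℕ → ℕ
  | 0 => 0
  | s + 1 => LL s + NN (s + 1)

lemma NN_le_LL (s : ℕ) (hs : 1 ≤ s) : NN s ≤ LL s := by
  cases s with
  | zero => omega
  | succ s => exact Nat.le_add_left _ _

lemma LL_mono : Monotone LL := monotone_nat_of_le_succ (fun _ => Nat.le_add_right _ _)

lemma lt_NN (s : ℕ) : 4 * (s + 1) * (s + 1) < NN s := by
  unfold NN len Dt
  have h1 := u_ge s (2 * s + 1)
  nlinarith

lemma le_LL (s : ℕ) : s ≤ LL s := by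
  rcases Nat.eq_zero_or_pos s with h | h
  · omega
  · have h1 := lt_NN s
    have h2 := NN_le_LL s h
    nlinarith

/-- the sublinear order function: `f n = min_s (n / (s+1) + LL s)` -/
noncomputable def ff (n : ℕ) : ℕ := sInf (Set.range (fun s => n / (s + 1) + LL s))

lemma ff_le (n s : ℕ) : ff n ≤ n / (s + 1) + LL s := Nat.sInf_le ⟨s, rfl⟩

lemma exists_ff (n : ℕ) : ∃ s, ff n = n / (s + 1) + LL s := by
  obtain ⟨s, hs⟩ := Nat.sInf_mem (s := Set.range (fun s => n / (s + 1) + LL s)) ⟨_, 0, rfl⟩
  exact ⟨s, hs.symm⟩

lemma ff_mono : Monotone ff := by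
  intro a b hab
  obtain ⟨s, hs⟩ := exists_ff b
  rw [hs]
  exact (ff_le a s).trans (Nat.add_le_add_right (Nat.div_le_div_right hab) _)

/-- lower bound on the initial segment relevant for game `t` -/
lemma le_ff {t n : ℕ} (ht : 1 ≤ t) (h : n ≤ NN t) : n / (t + 1) ≤ ff n := by
  obtain ⟨s, hs⟩ := exists_ff n
  rw [hs]
  rcases Nat.lt_or_ge s t with h1 | h1
  · refine le_trans ?_ (Nat.le_add_right _ _)
    exact Nat.div_le_div_left (by omega) (by omega)
  · have h2 : n ≤ LL s := h.trans ((NN_le_LL t ht).trans (LL_mono h1))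
    have h3 : n / (t + 1) ≤ n := Nat.div_le_self _ _
    exact h3.trans (h2.trans (Nat.le_add_left _ _))

lemma ff_unbounded (b : ℕ) : ∃ n, b ≤ ff n := by
  refine ⟨NN (b + 1), ?_⟩
  have h1 := le_ff (t := b + 1) (n := NN (b + 1)) (by omega) le_rfl
  have h2 : b ≤ NN (b + 1) / (b + 1 + 1) := by
    rw [Nat.le_div_iff_mul_le (by omega)]
    have := lt_NN (b + 1)
    nlinarith
  omega

lemma ff_tendsto : Filter.Tendsto (fun n : ℕ => (ff n : ℝ) / n) Filter.atTop (nhds 0) := by
  rw [Metric.tendsto_atTop]
  intro ε hε
  obtain ⟨s, hs⟩ := exists_nat_gt (2 / ε)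
  obtain ⟨N, hN⟩ := exists_nat_gt (2 * (LL s : ℝ) / ε)
  refine ⟨N + 1, fun n hn => ?_⟩
  have hn0 : (0 : ℝ) < n := by
    have : 0 < n := by omega
    exact_mod_cast this
  rw [Real.dist_eq, sub_zero, abs_of_nonneg (by positivity), div_lt_iff₀ hn0]
  have h1 : (ff n : ℝ) ≤ (n : ℝ) / (s + 1) + LL s := by
    have h2 : (ff n : ℝ) ≤ ((n / (s + 1) + LL s : ℕ) : ℝ) := by exact_mod_cast ff_le n s
    refine h2.trans ?_
    push_cast
    have h3 : ((n / (s + 1) : ℕ) : ℝ) ≤ (n : ℝ) / ((s + 1 : ℕ) : ℝ) := Nat.cast_div_le
    push_cast at h3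
    linarith
  have h4 : (n : ℝ) / (s + 1) < ε / 2 * n := by
    rw [div_lt_iff₀ (by positivity)]
    have h5 : 2 < ε * s := by
      rw [div_lt_iff₀ hε] at hs
      linarith
    have h6 : 0 < ε := hε
    nlinarith
  have h7 : (LL s : ℝ) < ε / 2 * n := by
    rw [div_lt_iff₀ hε] at hN
    have h8 : (N : ℝ) < n := by exact_mod_cast (by omega : N < n)
    nlinarith
  linarith

lemma primrec_LL : Primrec LL := by
  have h : Primrec (fun s : ℕ => (Nat.rec 0 (fun s v => v + NN (s + 1)) s : ℕ)) := by
    refine (Primrec.nat_rec₁ (f := fun s v => v + NN (s + 1)) 0 ?_)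
    exact Primrec.nat_add.comp Primrec.snd (primrec_NN.comp (Primrec.succ.comp Primrec.fst))
  refine h.of_eq (fun s => ?_)
  induction s with
  | zero => rfl
  | succ s ih =>
    show _ = LL s + NN (s + 1)
    rw [← ih]

lemma computable_ff : Computable ff := by
  -- `ff n` is the least value `v` such that some `s ≤ v` has `n / (s+1) + LL s = v`
  have h1 : PrimrecRel (fun (s : ℕ) (x : ℕ × ℕ) => x.1 / (s + 1) + LL s = x.2) := by
    refine Primrec.eq.comp (Primrec.nat_add.comp ?_ (primrec_LL.comp Primrec.fst))
      (Primrec.snd.comp Primrec.snd)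
    exact Primrec.nat_div.comp (Primrec.fst.comp Primrec.snd)
      (Primrec.succ.comp Primrec.fst)
  have h2 : PrimrecPred (fun x : ℕ × ℕ => ∃ s ∈ List.range (x.2 + 1), x.1 / (s + 1) + LL s = x.2) :=
    h1.exists_mem_list.comp (f := fun x : ℕ × ℕ => List.range (x.2 + 1))
      (g := fun x : ℕ × ℕ => x) (Primrec.list_range.comp (Primrec.succ.comp Primrec.snd)) Primrec.id
  have h3 : ∀ n, ∃ v, ∃ s ∈ List.range (v + 1), n / (s + 1) + LL s = v := by
    intro n
    refine ⟨n / (0 + 1) + LL 0, 0, by simp, rfl⟩
  classical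
  have h4 := Computable.find (P := fun n v => ∃ s ∈ List.range (v + 1), n / (s + 1) + LL s = v)
    h2.computablePred h3
  refine h4.of_eq (fun n => ?_)
  refine le_antisymm ?_ ?_
  · obtain ⟨s, hs⟩ := exists_ff n
    refine Nat.find_min' (h3 n) ⟨s, ?_, hs.symm⟩
    rw [List.mem_range]
    have h5 : LL s ≤ ff n := by rw [hs]; exact Nat.le_add_left _ _
    exact Nat.lt_succ_of_le ((le_LL s).trans h5)
  · obtain ⟨s, -, hs⟩ := Nat.find_spec (h3 n)
    rw [← hs]
    exact ff_le n s

theorem isOrder_ff : IsOrder ff := ⟨computable_ff, ff_mono, ff_unbounded⟩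

/-- sanity check: `ff n ≤ n` -/
lemma ff_le_self (n : ℕ) : ff n ≤ n := by
  have h := ff_le n 0
  simpa [LL] using h

end Pool.Agent.H81.SC
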