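import Mathlib
import Pool.Agent.H81.SC.Machine

/-!
# Deepness of a sublinear shift-complex class
-/

set_option autoImplicit false

namespace Pool.Agent.H81.SC

/-! ### blocks -/

lemma block_length (X : ℕ → Bool) (i n : ℕ) : (block X i n).length = n := by simp [block]

lemma block_take (X : ℕ → Bool) (i n m : ℕ) : (block X i n).take m = block X i (min m n) := by
  unfold block
  rw [← List.map_take, List.take_range]

lemma block_drop (X : ℕ → Bool) (i n m : ℕ) : (block X i n).drop m = block X (i + m) (n - m) := by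
  refine List.ext_getElem ?_ ?_
  · simp [block]
  · intro j h1 h2
    simp only [block, List.getElem_drop, List.getElem_map, List.getElem_range]
    congr 1
    omega

lemma infix_block {X : ℕ → Bool} {N : ℕ} {τ : Str} (h : τ <:+: block X 0 N) :
    τ.length ≤ N ∧ ∃ i, τ = block X i τ.length := by
  refine ⟨by simpa [block_length] using h.length_le, ?_⟩
  obtain ⟨i, -, hi⟩ := (infix_iff _ _).1 h
  rw [block_drop, block_take] at hi
  refine ⟨0 + i, ?_⟩
  have h1 := congrArg List.length hi
  rw [block_length] at h1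
  rw [h1] at hi
  exact hi.symm

lemma trace_finite (P : Set (ℕ → Bool)) (m : ℕ) : (trace P m).Finite := by
  refine (finite_length m).subset ?_
  rintro σ ⟨X, -, rfl⟩
  exact block_length X 0 m

lemma mass_eq (M : Str → ℝ) (P : Set (ℕ → Bool)) (m : ℕ) :
    mass M (trace P m) = ∑ σ ∈ (trace_finite P m).toFinset, M σ := by
  unfold mass
  exact finsum_mem_eq_finite_toFinset_sum _ _

lemma mass_anti {M : Str → ℝ} (hM : IsSemimeasure M) (P : Set (ℕ → Bool)) {m n : ℕ} (h : m ≤ n) :
    mass M (trace P n) ≤ mass M (trace P m) := by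
  classical
  rw [mass_eq, mass_eq]
  obtain ⟨k, rfl⟩ := Nat.exists_eq_add_of_le h
  refine (sum_take hM m k _ ?_).trans ?_
  · intro σ hσ
    rw [Set.Finite.mem_toFinset] at hσ
    obtain ⟨X, -, rfl⟩ := hσ
    exact block_length X 0 _
  · refine Finset.sum_le_sum_of_subset_of_nonneg ?_ (fun _ _ _ => hM.nonneg _)
    intro σ hσ
    obtain ⟨ρ, hρ, rfl⟩ := Finset.mem_image.1 hσ
    rw [Set.Finite.mem_toFinset] at hρ ⊢
    obtain ⟨X, hX, rfl⟩ := hρ
    refine ⟨X, hX, ?_⟩
    rw [block_take, min_eq_left (by omega)]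

/-! ### the key estimate -/

lemma key_mass {U : Str →. Str} (hU : IsUniversalMachine U) {M : Str → ℝ} (hM : IsSemimeasure M)
    (hM2 : IsLeftCE M) (c : ℕ) :
    ∃ b : ℕ, 1 ≤ b ∧ ∀ t, b ≤ t → mass M (trace (ShiftComplex U (fun n => (ff n : ℝ)) c) (NN t)) ≤
      (1 / 2) ^ t := by
  classical
  obtain ⟨app, happ, happ'⟩ := REPred.exists_approx hM2
  obtain ⟨cV, hcV⟩ := hU.2 (V app) (prefixFree_V app happ)
  refine ⟨max (max c cV) 1, le_max_right _ _, fun t ht => ?_⟩
  have ht1 : 1 ≤ t := le_trans (le_max_right _ _) ht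
  have htc : c ≤ t := le_trans (le_trans (le_max_left _ _) (le_max_left _ _)) ht
  have htV : cV ≤ t := le_trans (le_trans (le_max_right _ _) (le_max_left _ _)) ht
  obtain ⟨r, H, hH, hs⟩ := exists_stuck hM happ' t
  rw [mass_eq]
  refine stuck_mass hM happ' hH hs _ ?_
  intro σ hσ
  rw [Set.Finite.mem_toFinset] at hσ
  obtain ⟨X, hX, rfl⟩ := hσ
  refine ⟨block_length X 0 _, ?_⟩
  rintro m hm ⟨τ, hτ, hinf⟩
  obtain ⟨hi, hlen, p, hp, hVp⟩ := V_short app hM happ' hH hm hτ
  obtain ⟨q, hq, hUq⟩ := hcV p τ hVp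
  obtain ⟨hN, i, hblock⟩ := infix_block hinf
  have h1 := hX i τ.length
  rw [← hblock] at h1
  have h2 : K U τ ≤ q.length := Nat.sInf_le ⟨q, rfl, hUq⟩
  have h3 := le_ff ht1 hN
  have h4 : τ.length / (t + 1) = 4 * u t m.1 := by
    rw [hlen]
    unfold len Dt
    rw [show 4 * (t + 1) * u t m.1 = (t + 1) * (4 * u t m.1) by ring]
    exact Nat.mul_div_cancel_left _ (Nat.succ_pos t)
  rw [h4] at h3
  have h5 := u_ge t m.1
  have h6 : (ff τ.length : ℝ) ≤ K U τ + c := by linarith
  have h7 : ff τ.length ≤ K U τ + c := by exact_mod_cast h6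
  omega

/-! ### `Π⁰₁`-ness -/

/-- a simple prefix-free machine producing every string -/
def V0 (p : Str) : Part Str :=
  ((if p = zeros (pt p) ++ [true] then Encodable.decode (α := Str) (pt p) else none : Option Str) :
    Part Str)

lemma partrec_V0 : Partrec V0 := by
  have h1 : Primrec (fun p : Str =>
      (if p = zeros (pt p) ++ [true] then Encodable.decode (α := Str) (pt p) else none)) := by
    refine Primrec.ite ?_ ?_ (Primrec.const none)
    · exact Primrec.eq.comp Primrec.id
        (Primrec.list_append.comp (primrec_zeros.comp primrec_pt) (Primrec.const [true]))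
    · exact Primrec.decode.comp primrec_pt
  exact Computable.ofOption h1.to_comp

lemma pt_zeros (n : ℕ) (s : Str) : pt (zeros n ++ (true :: s)) = n := takeWhile_zeros n s

lemma prefixFree_V0 : IsPrefixFreeMachine V0 := by
  refine ⟨partrec_V0, ?_⟩
  have h1 : ∀ p : Str, (V0 p).Dom → p = zeros (pt p) ++ [true] := by
    intro p hp
    unfold V0 at hp
    by_contra hcon
    rw [if_neg hcon] at hp
    exact hp
  rintro p q hp hq ⟨w, hw⟩
  have h2 := h1 p hp
  have h3 := h1 q hq
  have h4 : pt q = pt p := by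
    rw [← hw]
    conv_lhs => rw [h2]
    rw [List.append_assoc]
    exact pt_zeros _ _
  rw [h4, ← h2] at h3
  exact h3.symm

lemma exists_program {U : Str →. Str} (hU : IsUniversalMachine U) (x : Str) :
    ∃ p : Str, x ∈ U p := by
  obtain ⟨c, hc⟩ := hU.2 V0 prefixFree_V0
  obtain ⟨q, -, hq⟩ := hc (zeros (Encodable.encode x) ++ [true]) x (by
    unfold V0
    have h1 : pt (zeros (Encodable.encode x) ++ [true]) = Encodable.encode x := pt_zeros _ []
    rw [h1, if_pos rfl, Encodable.encodek]
    exact Part.mem_some x)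
  exact ⟨q, hq⟩

lemma K_lt_iff {U : Str →. Str} (hU : IsUniversalMachine U) (x : Str) (n : ℕ) :
    K U x < n ↔ ∃ p : Str, p.length < n ∧ x ∈ U p := by
  constructor
  · intro h
    obtain ⟨p, hp⟩ := exists_program hU x
    have h1 : K U x ∈ {n | ∃ p : Str, p.length = n ∧ x ∈ U p} := Nat.sInf_mem ⟨_, p, rfl, hp⟩
    obtain ⟨q, hq, hq'⟩ := h1
    exact ⟨q, by omega, hq'⟩
  · rintro ⟨p, hp, hx⟩
    exact lt_of_le_of_lt (Nat.sInf_le ⟨p, rfl, hx⟩) hp

lemma re_graph {α β : Type*} [Primcodable α] [Primcodable β] [DecidableEq β] {f : α →. β}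
    (hf : Partrec f) : REPred (fun x : α × β => x.2 ∈ f x.1) := by
  have h1 : Primrec (fun y : (α × β) × β => if y.2 = y.1.2 then some () else none) :=
    Primrec.ite (Primrec.eq.comp Primrec.snd (Primrec.snd.comp Primrec.fst))
      (Primrec.const _) (Primrec.const _)
  have h2 : Partrec (fun x : α × β => (f x.1).bind
      (fun y => ((if y = x.2 then some () else none : Option Unit) : Part Unit))) :=
    Partrec.bind (hf.comp Computable.fst) (Computable.ofOption h1.to_comp)
  refine h2.dom_re.of_eq (fun x => ?_)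
  constructor
  · intro h
    obtain ⟨u, hu⟩ := Part.dom_iff_mem.1 h
    rw [Part.mem_bind_iff] at hu
    obtain ⟨y, hy, hy2⟩ := hu
    split_ifs at hy2 with h3
    · rw [← h3]; exact hy
    · simp at hy2
  · intro h
    refine Part.dom_iff_mem.2 ⟨(), ?_⟩
    rw [Part.mem_bind_iff]
    exact ⟨x.2, h, by simp⟩

lemma pi01 {U : Str →. Str} (hU : IsUniversalMachine U) {f : ℕ → ℕ} (hf : Computable f) (c : ℕ) :
    IsPi01 (ShiftComplex U (fun n => (f n : ℝ)) c) := by
  classical
  refine ⟨fun σ => ∃ x : ℕ × ℕ × Str, (x.1 + x.2.1 ≤ σ.length ∧ x.2.2.length + c < f x.2.1) ∧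
    (σ.drop x.1).take x.2.1 ∈ U x.2.2, ?_, ?_⟩
  · refine REPred.exists' (p := fun (σ : Str) (x : ℕ × ℕ × Str) =>
      (x.1 + x.2.1 ≤ σ.length ∧ x.2.2.length + c < f x.2.1) ∧
        (σ.drop x.1).take x.2.1 ∈ U x.2.2) ?_
    have hi : Primrec (fun y : Str × (ℕ × ℕ × Str) => y.2.1) := Primrec.fst.comp Primrec.snd
    have hn : Primrec (fun y : Str × (ℕ × ℕ × Str) => y.2.2.1) :=
      Primrec.fst.comp (Primrec.snd.comp Primrec.snd)
    have hp : Primrec (fun y : Str × (ℕ × ℕ × Str) => y.2.2.2) :=
      Primrec.snd.comp (Primrec.snd.comp Primrec.snd)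
    refine REPred.and (REPred.and ?_ ?_) ?_
    · refine REPred.of_primrecPred ?_
      exact Primrec.nat_le.comp (Primrec.nat_add.comp hi hn) (Primrec.list_length.comp Primrec.fst)
    · have h1 : Computable (fun y : Str × (ℕ × ℕ × Str) => f y.2.2.1) := hf.comp hn.to_comp
      have h2 : Computable (fun y : Str × (ℕ × ℕ × Str) => y.2.2.2.length + c) :=
        (Primrec.nat_add.comp (Primrec.list_length.comp hp) (Primrec.const c)).to_comp
      have h3 : Computable (fun y : Str × (ℕ × ℕ × Str) =>
          decide (y.2.2.2.length + c < f y.2.2.1)) := by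
        have h4 : Primrec (fun z : ℕ × ℕ => decide (z.1 < z.2)) := Primrec.nat_lt.decide
        exact h4.to_comp.comp (h2.pair h1)
      exact h3.computablePred.to_re
    · have h5 : Primrec (fun y : Str × (ℕ × ℕ × Str) =>
          (y.2.2.2, (y.1.drop y.2.1).take y.2.2.1)) :=
        hp.pair (Primrec.list_take.comp hn (Primrec.list_drop.comp hi Primrec.fst))
      exact REPred.comp (re_graph hU.1.1) h5.to_comp
  · ext X
    simp only [ShiftComplex, Set.mem_ofPred_eq]
    constructor
    · rintro h m ⟨⟨i, n, p⟩, ⟨h1, h2⟩, h3⟩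
      simp only at h1 h2 h3
      rw [block_length] at h1
      rw [block_drop, block_take, min_eq_left (by omega)] at h3
      have h4 := h (0 + i) n
      have h5 : K U (block X (0 + i) n) ≤ p.length := Nat.sInf_le ⟨p, rfl, h3⟩
      have h6 : (f n : ℝ) ≤ K U (block X (0 + i) n) + c := by linarith
      have h7 : f n ≤ K U (block X (0 + i) n) + c := by exact_mod_cast h6
      omega
    · intro h i n
      by_contra hcon
      push Not at hcon
      have h1 : (K U (block X i n) : ℝ) + c < f n := by linarith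
      have h2 : K U (block X i n) + c < f n := by exact_mod_cast h1
      have h3 : K U (block X i n) < f n - c := by omega
      obtain ⟨p, hp, hp'⟩ := (K_lt_iff hU _ _).1 h3
      refine h (i + n) ⟨(i, n, p), ⟨?_, ?_⟩, ?_⟩
      · rw [block_length]
      · show p.length + c < f n
        omega
      · show ((block X 0 (i + n)).drop i).take n ∈ U p
        rw [block_drop, block_take, min_eq_left (by omega), Nat.zero_add]
        exact hp'

/-- The sublinear shift-complex classes are deep. -/
theorem deep_ff {U : Str →. Str} (hU : IsUniversalMachine U) {M : Str → ℝ} (hM : IsSemimeasure M)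
    (hM2 : IsLeftCE M) (c : ℕ) : IsDeep M (ShiftComplex U (fun n => (ff n : ℝ)) c) := by
  obtain ⟨b, hb1, hb⟩ := key_mass hU hM hM2 c
  refine ⟨pi01 hU computable_ff c, fun n => LL (n + b), ⟨?_, ?_, ?_⟩, ?_⟩
  · exact (primrec_LL.comp (Primrec.nat_add.comp Primrec.id (Primrec.const b))).to_comp
  · intro m n hmn
    exact LL_mono (by omega)
  · intro m
    exact ⟨m, (le_LL (m + b)).trans' (by omega)⟩
  · intro n
    refine (mass_anti hM _ (NN_le_LL (n + b) (by omega))).trans ?_
    refine (hb (n + b) (by omega)).trans ?_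
    exact pow_le_pow_of_le_one (by norm_num) (by norm_num) (by omega)

end Pool.Agent.H81.SC
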