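import Mathlib
import Pool.Agent.H81.SC.Deep

/-!
# Deep classes are negligible
-/

set_option autoImplicit false

namespace Pool.Agent.H81.SC

open MeasureTheory
open Nat.Partrec (Code)
open Nat.Partrec.Code

/-! ### The use principle -/

lemma block_prefix (Y : ℕ → Bool) {j k : ℕ} (h : j ≤ k) : block Y 0 j <+: block Y 0 k := by
  have h1 : block Y 0 j = (block Y 0 k).take j := by
    rw [block_take, min_eq_left h]
  rw [h1]
  exact List.take_prefix _ _

/-- monotonicity of a functional -/
def MonoF (F : Str × ℕ →. ℕ) : Prop :=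
  ∀ (σ τ : Str) (n y : ℕ), σ <+: τ → y ∈ F (σ, n) → y ∈ F (τ, n)

/-- `F` computes `f` from `Y` -/
def Computes (F : Str × ℕ →. ℕ) (Y : ℕ → Bool) (f : ℕ →. ℕ) : Prop :=
  ∀ n y, y ∈ f n ↔ ∃ k, y ∈ F (block Y 0 k, n)

theorem exists_functional (Y : ℕ → Bool) (f : ℕ →. ℕ) (h : Nat.RecursiveIn {toFun Y} f) :
    ∃ F : Str × ℕ →. ℕ, Partrec F ∧ MonoF F ∧ Computes F Y f := by
  induction h with
  | zero =>
    refine ⟨fun _ => Part.some 0, (Computable.const 0).partrec, fun _ _ _ _ _ h => h, ?_⟩
    intro n y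
    exact ⟨fun h => ⟨0, h⟩, fun ⟨_, h⟩ => h⟩
  | succ =>
    refine ⟨fun x => Part.some (x.2 + 1), (Computable.succ.comp Computable.snd).partrec,
      fun _ _ _ _ _ h => h, ?_⟩
    intro n y
    exact ⟨fun h => ⟨0, h⟩, fun ⟨_, h⟩ => h⟩
  | left =>
    refine ⟨fun x => Part.some x.2.unpair.1,
      (Computable.fst.comp (Computable.unpair.comp Computable.snd)).partrec,
      fun _ _ _ _ _ h => h, ?_⟩
    intro n y
    exact ⟨fun h => ⟨0, h⟩, fun ⟨_, h⟩ => h⟩
  | right =>
    refine ⟨fun x => Part.some x.2.unpair.2,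
      (Computable.snd.comp (Computable.unpair.comp Computable.snd)).partrec,
      fun _ _ _ _ _ h => h, ?_⟩
    intro n y
    exact ⟨fun h => ⟨0, h⟩, fun ⟨_, h⟩ => h⟩
  | oracle g hg =>
    rw [Set.mem_singleton_iff] at hg
    subst hg
    refine ⟨fun x => ((x.1[x.2]?).map (fun b => cond b 1 0) : Option ℕ), ?_, ?_, ?_⟩
    · refine Computable.ofOption ?_
      refine Primrec.to_comp ?_
      exact Primrec.option_map (Primrec.list_getElem?.comp Primrec.fst Primrec.snd)
        (Primrec.cond Primrec.snd (Primrec.const 1) (Primrec.const 0)).to₂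
    · intro σ τ n y hστ hy
      simp only [Part.mem_ofOption, Option.mem_def, Option.map_eq_some_iff] at hy ⊢
      obtain ⟨b, hb, hy⟩ := hy
      refine ⟨b, ?_, hy⟩
      obtain ⟨w, rfl⟩ := hστ
      have h1 : n < σ.length := (List.getElem?_eq_some_iff.1 hb).1
      rw [List.getElem?_append_left h1]
      exact hb
    · intro n y
      simp only [Part.mem_ofOption, Option.mem_def, Option.map_eq_some_iff, toFun,
        Part.mem_some_iff]
      constructor
      · intro h
        refine ⟨n + 1, Y n, ?_, h.symm⟩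
        simp [block]
      · rintro ⟨k, b, hb, rfl⟩
        obtain ⟨h1, h2⟩ := List.getElem?_eq_some_iff.1 hb
        simp only [block, List.getElem_map, List.getElem_range, Nat.zero_add] at h2
        rw [h2]
  | pair _ _ ihf ihh =>
    rename_i f h _ _
    obtain ⟨F, hF1, hF2, hF3⟩ := ihf
    obtain ⟨G, hG1, hG2, hG3⟩ := ihh
    refine ⟨fun x => (F x).bind (fun a => (G x).map (fun b => Nat.pair a b)), ?_, ?_, ?_⟩
    · refine Partrec.bind hF1 ?_
      refine Partrec.map (hG1.comp Computable.fst) ?_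
      exact (Primrec₂.natPair.comp (Primrec.snd.comp Primrec.fst) Primrec.snd).to_comp
    · intro σ τ n y hστ hy
      simp only [Part.mem_bind_iff, Part.mem_map_iff] at hy ⊢
      obtain ⟨a, ha, b, hb, rfl⟩ := hy
      exact ⟨a, hF2 σ τ n a hστ ha, b, hG2 σ τ n b hστ hb, rfl⟩
    · intro n y
      simp only [Part.mem_bind_iff, Part.mem_map_iff, Seq.seq, Functor.map]
      constructor
      · rintro ⟨a', ⟨a, ha, rfl⟩, b, hb, rfl⟩
        obtain ⟨k1, hk1⟩ := (hF3 n a).1 ha
        obtain ⟨k2, hk2⟩ := (hG3 n b).1 hb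
        exact ⟨max k1 k2, a, hF2 _ _ _ _ (block_prefix Y (le_max_left _ _)) hk1, b,
          hG2 _ _ _ _ (block_prefix Y (le_max_right _ _)) hk2, rfl⟩
      · rintro ⟨k, a, ha, b, hb, rfl⟩
        exact ⟨Nat.pair a, ⟨a, (hF3 n a).2 ⟨k, ha⟩, rfl⟩, b, (hG3 n b).2 ⟨k, hb⟩, rfl⟩
  | comp _ _ ihf ihh =>
    rename_i f h _ _
    obtain ⟨F, hF1, hF2, hF3⟩ := ihf
    obtain ⟨G, hG1, hG2, hG3⟩ := ihh
    refine ⟨fun x => (G x).bind (fun a => F (x.1, a)), ?_, ?_, ?_⟩
    · refine Partrec.bind hG1 ?_
      exact hF1.comp ((Computable.fst.comp Computable.fst).pair Computable.snd)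
    · intro σ τ n y hστ hy
      simp only [Part.mem_bind_iff] at hy ⊢
      obtain ⟨a, ha, hb⟩ := hy
      exact ⟨a, hG2 σ τ n a hστ ha, hF2 σ τ a y hστ hb⟩
    · intro n y
      show y ∈ (h n).bind f ↔ ∃ k, y ∈ (G (block Y 0 k, n)).bind (fun a => F (block Y 0 k, a))
      constructor
      · intro hy
        obtain ⟨a, ha, hb⟩ := Part.mem_bind_iff.1 hy
        obtain ⟨k1, hk1⟩ := (hG3 n a).1 ha
        obtain ⟨k2, hk2⟩ := (hF3 a y).1 hb
        exact ⟨max k1 k2, Part.mem_bind_iff.2 ⟨a,
          hG2 _ _ _ _ (block_prefix Y (le_max_left _ _)) hk1,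
          hF2 _ _ _ _ (block_prefix Y (le_max_right _ _)) hk2⟩⟩
      · rintro ⟨k, hy⟩
        obtain ⟨a, ha, hb⟩ := Part.mem_bind_iff.1 hy
        exact Part.mem_bind_iff.2 ⟨a, (hG3 n a).2 ⟨k, ha⟩, (hF3 a y).2 ⟨k, hb⟩⟩
  | prec _ _ ihf ihh =>
    rename_i f h _ _
    obtain ⟨F, hF1, hF2, hF3⟩ := ihf
    obtain ⟨G, hG1, hG2, hG3⟩ := ihh
    let R : Str → ℕ → ℕ → Part ℕ := fun σ a n => Nat.rec (F (σ, a))
      (fun y IH => IH.bind (fun i => G (σ, Nat.pair a (Nat.pair y i)))) n
    refine ⟨fun x => R x.1 x.2.unpair.1 x.2.unpair.2, ?_, ?_, ?_⟩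
    · have hn : Computable (fun x : Str × ℕ => x.2.unpair.2) :=
        Computable.snd.comp (Computable.unpair.comp Computable.snd)
      have ha : Computable (fun x : Str × ℕ => x.2.unpair.1) :=
        Computable.fst.comp (Computable.unpair.comp Computable.snd)
      refine Partrec.nat_rec (f := fun x : Str × ℕ => x.2.unpair.2)
        (g := fun x : Str × ℕ => F (x.1, x.2.unpair.1))
        (h := fun (x : Str × ℕ) (y : ℕ × ℕ) => G (x.1, Nat.pair x.2.unpair.1 (Nat.pair y.1 y.2)))
        hn (hF1.comp (Computable.fst.pair ha)) ?_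
      refine hG1.comp ?_
      refine (Computable.fst.comp Computable.fst).pair ?_
      exact Primrec₂.natPair.to_comp.comp (ha.comp Computable.fst)
        (Primrec₂.natPair.to_comp.comp (Computable.fst.comp Computable.snd)
          (Computable.snd.comp Computable.snd))
    · intro σ τ p y hστ
      show y ∈ R σ p.unpair.1 p.unpair.2 → y ∈ R τ p.unpair.1 p.unpair.2
      generalize p.unpair.1 = a
      generalize p.unpair.2 = n
      induction n generalizing y with
      | zero => exact fun hy => hF2 σ τ a y hστ hy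
      | succ n ih =>
        intro hy
        obtain ⟨i, hi, hy⟩ := Part.mem_bind_iff.1 hy
        exact Part.mem_bind_iff.2 ⟨i, ih i hi, hG2 _ _ _ _ hστ hy⟩
    · intro p y
      have hmono : ∀ (σ τ : Str) (a n y : ℕ), σ <+: τ → y ∈ R σ a n → y ∈ R τ a n := by
        intro σ τ a n y hστ
        induction n generalizing y with
        | zero => exact fun hy => hF2 σ τ a y hστ hy
        | succ n ih =>
          intro hy
          obtain ⟨i, hi, hy⟩ := Part.mem_bind_iff.1 hy
          exact Part.mem_bind_iff.2 ⟨i, ih i hi, hG2 _ _ _ _ hστ hy⟩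
      show y ∈ (Nat.rec (f p.unpair.1) (fun y IH => IH.bind (fun i =>
        h (Nat.pair p.unpair.1 (Nat.pair y i)))) p.unpair.2 : Part ℕ) ↔
          ∃ k, y ∈ R (block Y 0 k) p.unpair.1 p.unpair.2
      generalize p.unpair.1 = a
      generalize p.unpair.2 = n
      induction n generalizing y with
      | zero => exact hF3 a y
      | succ n ih =>
        constructor
        · intro hy
          obtain ⟨i, hi, hy⟩ := Part.mem_bind_iff.1 hy
          obtain ⟨k1, hk1⟩ := (ih i).1 hi
          obtain ⟨k2, hk2⟩ := (hG3 _ _).1 hy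
          exact ⟨max k1 k2, Part.mem_bind_iff.2 ⟨i,
            hmono _ _ _ _ _ (block_prefix Y (le_max_left _ _)) hk1,
            hG2 _ _ _ _ (block_prefix Y (le_max_right _ _)) hk2⟩⟩
        · rintro ⟨k, hy⟩
          obtain ⟨i, hi, hy⟩ := Part.mem_bind_iff.1 hy
          exact Part.mem_bind_iff.2 ⟨i, (ih i).2 ⟨k, hi⟩, (hG3 _ _).2 ⟨k, hy⟩⟩
  | rfind _ ihf =>
    rename_i f _
    obtain ⟨F, hF1, hF2, hF3⟩ := ihf
    refine ⟨fun x => Nat.rfind (fun n => (F (x.1, Nat.pair x.2 n)).map (fun m => decide (m = 0))),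
      ?_, ?_, ?_⟩
    · refine Partrec.rfind ?_
      refine Partrec.map (hF1.comp ?_) ?_
      · exact (Computable.fst.comp Computable.fst).pair
          (Primrec₂.natPair.to_comp.comp (Computable.snd.comp Computable.fst) Computable.snd)
      · exact (Primrec.eq.decide.comp Primrec.snd (Primrec.const 0)).to_comp
    · intro σ τ a y hστ hy
      obtain ⟨h1, h2⟩ := Nat.mem_rfind.1 hy
      refine Nat.mem_rfind.2 ⟨?_, ?_⟩
      · obtain ⟨m, hm, hm2⟩ := (Part.mem_map_iff _).1 h1
        exact (Part.mem_map_iff _).2 ⟨m, hF2 _ _ _ _ hστ hm, hm2⟩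
      · intro m hm
        obtain ⟨m', hm', hm2⟩ := (Part.mem_map_iff _).1 (h2 hm)
        exact (Part.mem_map_iff _).2 ⟨m', hF2 _ _ _ _ hστ hm', hm2⟩
    · intro a y
      constructor
      · intro hy
        obtain ⟨h1, h2⟩ := Nat.mem_rfind.1 hy
        obtain ⟨m, hm, hm2⟩ := (Part.mem_map_iff _).1 h1
        obtain ⟨k0, hk0⟩ := (hF3 _ _).1 hm
        have h3 : ∃ k, ∀ n < y, false ∈ (F (block Y 0 k, Nat.pair a n)).map
            (fun m => decide (m = 0)) := by
          have h4 : ∀ j ≤ y, ∃ k, ∀ n < j, false ∈ (F (block Y 0 k, Nat.pair a n)).map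
              (fun m => decide (m = 0)) := by
            intro j
            induction j with
            | zero => exact fun _ => ⟨0, fun n hn => absurd hn (Nat.not_lt_zero _)⟩
            | succ j ih =>
              intro hj
              obtain ⟨k, hk⟩ := ih (by omega)
              obtain ⟨m', hm', hm2'⟩ := (Part.mem_map_iff _).1 (h2 (m := j) (by omega))
              obtain ⟨k', hk'⟩ := (hF3 _ _).1 hm'
              refine ⟨max k k', fun n hn => ?_⟩
              rcases Nat.lt_or_ge n j with h5 | h5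
              · obtain ⟨m'', hm'', hm2''⟩ := (Part.mem_map_iff _).1 (hk n h5)
                exact (Part.mem_map_iff _).2 ⟨m'',
                  hF2 _ _ _ _ (block_prefix Y (le_max_left _ _)) hm'', hm2''⟩
              · have h6 : n = j := by omega
                subst h6
                exact (Part.mem_map_iff _).2 ⟨m',
                  hF2 _ _ _ _ (block_prefix Y (le_max_right _ _)) hk', hm2'⟩
          exact h4 y le_rfl
        obtain ⟨k1, hk1⟩ := h3
        refine ⟨max k0 k1, Nat.mem_rfind.2 ⟨?_, ?_⟩⟩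
        · exact (Part.mem_map_iff _).2 ⟨m,
            hF2 _ _ _ _ (block_prefix Y (le_max_left _ _)) hk0, hm2⟩
        · intro n hn
          obtain ⟨m'', hm'', hm2''⟩ := (Part.mem_map_iff _).1 (hk1 n hn)
          exact (Part.mem_map_iff _).2 ⟨m'',
            hF2 _ _ _ _ (block_prefix Y (le_max_right _ _)) hm'', hm2''⟩
      · rintro ⟨k, hy⟩
        obtain ⟨h1, h2⟩ := Nat.mem_rfind.1 hy
        refine Nat.mem_rfind.2 ⟨?_, ?_⟩
        · obtain ⟨m, hm, hm2⟩ := (Part.mem_map_iff _).1 h1
          exact (Part.mem_map_iff _).2 ⟨m, (hF3 _ _).2 ⟨k, hm⟩, hm2⟩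
        · intro n hn
          obtain ⟨m, hm, hm2⟩ := (Part.mem_map_iff _).1 (h2 hn)
          exact (Part.mem_map_iff _).2 ⟨m, (hF3 _ _).2 ⟨k, hm⟩, hm2⟩

/-! ### Codes of functionals and the induced semimeasures -/

/-- the functional with code `c` -/
def Mono (c : Code) : Prop :=
  ∀ (σ τ : Str) (n y : ℕ), σ <+: τ → y ∈ eval c (Encodable.encode (σ, n)) →
    y ∈ eval c (Encodable.encode (τ, n))

/-- the functional `c` with oracle string `ρ` outputs the bits of `σ` -/
def Phi (c : Code) (ρ σ : Str) : Prop :=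
  ∀ j ∈ List.range σ.length, (cond (σ.getD j false) 1 0) ∈ eval c (Encodable.encode (ρ, j))

/-- the oracles from which `c` outputs the bits of `σ` -/
def Out (c : Code) (σ : Str) : Set (ℕ → Bool) := {Y | ∃ k, Phi c (block Y 0 k) σ}

lemma Phi.mono {c : Code} (hc : Mono c) {ρ ρ' σ : Str} (h : ρ <+: ρ') (h2 : Phi c ρ σ) :
    Phi c ρ' σ := fun j hj => hc _ _ _ _ h (h2 j hj)

instance : IsProbabilityMeasure coin := by
  unfold coin
  infer_instance

/-- basic cylinders have the right measure -/
lemma coin_cyl (ρ : Str) : coin {Y | block Y 0 ρ.length = ρ} = (1 / 2 : ENNReal) ^ ρ.length := by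
  have h1 : {Y : ℕ → Bool | block Y 0 ρ.length = ρ} =
      Set.pi (Finset.range ρ.length : Set ℕ) (fun i => {ρ.getD i false}) := by
    ext Y
    simp only [Set.mem_ofPred_eq, Set.mem_pi, Finset.coe_range, Set.mem_Iio, Set.mem_singleton_iff]
    constructor
    · intro h i hi
      rw [← h]
      simp [block, hi]
    · intro h
      refine List.ext_getElem (by simp [block]) ?_
      intro i h2 h3
      have h4 := h i h3
      simp only [block, List.getElem_map, List.getElem_range, Nat.zero_add]
      rw [h4]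
      simp [h3]
  rw [h1]
  unfold coin
  rw [Measure.infinitePi_pi _ (fun i _ => measurableSet_singleton _)]
  have h2 : ∀ b : Bool, (PMF.uniformOfFintype Bool).toMeasure {b} = (1 / 2 : ENNReal) := by
    intro b
    rw [PMF.toMeasure_apply_singleton _ _ (measurableSet_singleton b)]
    simp
  rw [Finset.prod_congr rfl (fun i _ => h2 _)]
  simp

lemma measurable_cyl (ρ : Str) : MeasurableSet {Y : ℕ → Bool | block Y 0 ρ.length = ρ} := by
  have h1 : {Y : ℕ → Bool | block Y 0 ρ.length = ρ} =
      ⋂ i ∈ Finset.range ρ.length, (fun Y : ℕ → Bool => Y i) ⁻¹' {ρ.getD i false} := by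
    ext Y
    simp only [Set.mem_ofPred_eq, Set.mem_iInter, Finset.mem_range, Set.mem_preimage,
      Set.mem_singleton_iff]
    constructor
    · intro h i hi
      rw [← h]
      simp [block, hi]
    · intro h
      refine List.ext_getElem (by simp [block]) ?_
      intro i h2 h3
      have h4 := h i h3
      simp only [block, List.getElem_map, List.getElem_range, Nat.zero_add]
      rw [h4]
      simp [h3]
  rw [h1]
  exact Finset.measurableSet_biInter _ (fun i _ =>
    (measurable_pi_apply i) (measurableSet_singleton _))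

/-- the set of oracles whose initial segment of length `k` lies in a finite set -/
lemma coin_finset (k : ℕ) (S : Finset Str) (hS : ∀ ρ ∈ S, ρ.length = k) :
    coin {Y | block Y 0 k ∈ S} = S.card * (1 / 2 : ENNReal) ^ k := by
  have h1 : {Y : ℕ → Bool | block Y 0 k ∈ S} = ⋃ ρ ∈ S, {Y | block Y 0 ρ.length = ρ} := by
    ext Y
    simp only [Set.mem_ofPred_eq, Set.mem_iUnion]
    constructor
    · intro h
      exact ⟨_, h, by rw [block_length]⟩
    · rintro ⟨ρ, hρ, h⟩
      rw [← hS ρ hρ, h]
      exact hρ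
  rw [h1, measure_biUnion_finset]
  · rw [Finset.sum_congr rfl (fun ρ hρ => by rw [coin_cyl, hS ρ hρ]), Finset.sum_const,
      nsmul_eq_mul]
  · intro ρ hρ τ hτ hne
    rw [Function.onFun, Set.disjoint_left]
    intro Y h2 h3
    refine hne ?_
    have h4 : block Y 0 ρ.length = ρ := h2
    have h5 : block Y 0 τ.length = τ := h3
    rw [← h4, ← h5, hS ρ hρ, hS τ hτ]
  · exact fun ρ _ => measurable_cyl ρ

lemma measurable_Out (c : Code) (σ : Str) : MeasurableSet (Out c σ) := by
  have h1 : Out c σ = ⋃ ρ ∈ {ρ : Str | Phi c ρ σ}, {Y | block Y 0 ρ.length = ρ} := by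
    ext Y
    simp only [Out, Set.mem_ofPred_eq, Set.mem_iUnion]
    constructor
    · rintro ⟨k, hk⟩
      exact ⟨_, hk, by rw [block_length]⟩
    · rintro ⟨ρ, hρ, h⟩
      refine ⟨ρ.length, ?_⟩
      rw [h]
      exact hρ
  rw [h1]
  exact MeasurableSet.biUnion (Set.to_countable _) (fun ρ _ => measurable_cyl ρ)

/-- the semimeasure induced by a functional -/
noncomputable def mu (c : Code) (σ : Str) : ℝ := (coin (Out c σ)).toReal

lemma re_Phi (c : Code) : REPred (fun x : Str × Str => Phi c x.1 x.2) := by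
  have h1 : REPred (fun x : ℕ × (Str × Str) =>
      (cond (x.2.2.getD x.1 false) 1 0 : ℕ) ∈ eval c (Encodable.encode (x.2.1, x.1))) := by
    have h2 : REPred (fun y : ℕ × ℕ => y.2 ∈ eval c y.1) :=
      re_graph (Partrec.nat_iff.2 (exists_code.2 ⟨c, rfl⟩))
    refine REPred.comp (f := fun x : ℕ × (Str × Str) =>
      (Encodable.encode (x.2.1, x.1), (cond (x.2.2.getD x.1 false) 1 0 : ℕ))) h2 ?_
    refine Primrec.to_comp (Primrec.pair ?_ ?_)
    · exact Primrec.encode.comp ((Primrec.fst.comp Primrec.snd).pair Primrec.fst)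
    · refine Primrec.cond ?_ (Primrec.const 1) (Primrec.const 0)
      exact (Primrec.list_getD false).comp (Primrec.snd.comp Primrec.snd) Primrec.fst
  have h2 := REPred.forall_mem_list (p := fun (j : ℕ) (x : Str × Str) =>
    (cond (x.2.getD j false) 1 0 : ℕ) ∈ eval c (Encodable.encode (x.1, j))) h1
  exact REPred.comp (f := fun x : Str × Str => (List.range x.2.length, x)) h2
    ((Primrec.list_range.comp (Primrec.list_length.comp Primrec.snd)).pair Primrec.id).to_comp

lemma Phi.init {c : Code} {ρ σ : Str} {b : Bool} (h : Phi c ρ (σ ++ [b])) : Phi c ρ σ := by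
  intro j hj
  rw [List.mem_range] at hj
  have h1 := h j (by simp; omega)
  rw [List.getD_append _ _ _ _ hj] at h1
  exact h1

lemma Phi.last {c : Code} {ρ σ : Str} {b : Bool} (h : Phi c ρ (σ ++ [b])) :
    (cond b 1 0) ∈ eval c (Encodable.encode (ρ, σ.length)) := by
  have h1 := h σ.length (by simp)
  rw [List.getD_append_right _ _ _ _ le_rfl] at h1
  simpa using h1

lemma mu_semimeasure (c : Code) (hc : Mono c) : IsSemimeasure (mu c) where
  nonneg _ := ENNReal.toReal_nonneg
  root := by
    unfold mu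
    have h1 : coin (Out c []) ≤ 1 := prob_le_one
    exact ENNReal.toReal_le_of_le_ofReal zero_le_one (by simpa using h1)
  split σ := by
    unfold mu
    rw [← ENNReal.toReal_add (measure_ne_top _ _) (measure_ne_top _ _)]
    refine ENNReal.toReal_mono (measure_ne_top _ _) ?_
    rw [← measure_union _ (measurable_Out c _)]
    · refine measure_mono ?_
      rintro Y (⟨k, hk⟩ | ⟨k, hk⟩)
      · exact ⟨k, hk.init⟩
      · exact ⟨k, hk.init⟩
    · rw [Set.disjoint_left]
      rintro Y ⟨k, hk⟩ ⟨k', hk'⟩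
      have h1 := (hk.mono hc (block_prefix Y (le_max_left k k'))).last
      have h2 := (hk'.mono hc (block_prefix Y (le_max_right k k'))).last
      have h3 := Part.mem_unique h1 h2
      simp at h3

lemma mu_leftCE (c : Code) (hc : Mono c) : IsLeftCE (mu c) := by
  classical
  have h0 : ∀ x : Str × ℕ × ℕ, (∃ y : ℕ × List Str, (y.2.Nodup ∧ (∀ ρ ∈ y.2, ρ.length = y.1) ∧
      x.2.1 * 2 ^ y.1 < y.2.length * (x.2.2 + 1)) ∧ (∀ ρ ∈ y.2, Phi c ρ x.1)) ↔
      (x.2.1 : ℝ) / (x.2.2 + 1) < mu c x.1 := by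
    rintro ⟨σ, a, b⟩
    simp only
    constructor
    · rintro ⟨⟨k, L⟩, ⟨h1, h2, h3⟩, h4⟩
      simp only at h1 h2 h3 h4
      have h5 : coin {Y | block Y 0 k ∈ L.toFinset} ≤ coin (Out c σ) := by
        refine measure_mono ?_
        intro Y hY
        exact ⟨k, h4 _ (List.mem_toFinset.1 hY)⟩
      rw [coin_finset k _ (fun ρ hρ => h2 ρ (List.mem_toFinset.1 hρ)),
        List.toFinset_card_of_nodup h1] at h5
      have h6 := ENNReal.toReal_mono (measure_ne_top _ _) h5
      have h7 : ((L.length : ENNReal) * (1 / 2) ^ k).toReal = (L.length : ℝ) * (1 / 2) ^ k := by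
        simp
      rw [h7] at h6
      refine lt_of_lt_of_le ?_ h6
      rw [div_lt_iff₀ (by positivity)]
      have h8 : (a : ℝ) * 2 ^ k < L.length * (b + 1) := by exact_mod_cast h3
      have h9 : (0 : ℝ) < 2 ^ k := by positivity
      have h10 : (a : ℝ) = a * 2 ^ k * (1 / 2) ^ k := by
        rw [mul_assoc, ← mul_pow]; norm_num
      rw [h10]
      have h11 : (0 : ℝ) < (1 / 2) ^ k := by positivity
      nlinarith
    · intro h
      set O : ℕ → Set (ℕ → Bool) := fun k => {Y | Phi c (block Y 0 k) σ} with hO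
      have h1 : Out c σ = ⋃ k, O k := by
        ext Y
        simp [Out, hO]
      have hmono : Monotone O := by
        intro k k' hk Y hY
        exact Phi.mono hc (block_prefix Y hk) hY
      have h2 : Filter.Tendsto (fun k => coin (O k)) Filter.atTop (nhds (coin (Out c σ))) := by
        rw [h1]
        exact tendsto_measure_iUnion_atTop hmono
      have h3 : Filter.Tendsto (fun k => (coin (O k)).toReal) Filter.atTop (nhds (mu c σ)) :=
        (ENNReal.tendsto_toReal (measure_ne_top _ _)).comp h2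
      obtain ⟨k, hk⟩ := (h3.eventually (lt_mem_nhds h)).exists
      have hfin : {ρ : Str | ρ.length = k ∧ Phi c ρ σ}.Finite :=
        (finite_length k).subset (fun _ h => h.1)
      have h4 : O k = {Y | block Y 0 k ∈ hfin.toFinset} := by
        ext Y
        simp only [hO, Set.mem_ofPred_eq, Set.Finite.mem_toFinset]
        exact ⟨fun h => ⟨block_length _ _ _, h⟩, fun h => h.2⟩
      rw [h4, coin_finset k _ (fun ρ hρ => ((Set.Finite.mem_toFinset _).1 hρ).1)] at hk
      have h7 : ((hfin.toFinset.card : ENNReal) * (1 / 2) ^ k).toReal =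
          (hfin.toFinset.card : ℝ) * (1 / 2) ^ k := by
        simp
      rw [h7, div_lt_iff₀ (by positivity)] at hk
      refine ⟨(k, hfin.toFinset.toList), ⟨Finset.nodup_toList _, ?_, ?_⟩, ?_⟩
      · intro ρ hρ
        exact ((Set.Finite.mem_toFinset _).1 (Finset.mem_toList.1 hρ)).1
      · show a * 2 ^ k < hfin.toFinset.toList.length * (b + 1)
        rw [Finset.length_toList]
        have h9 : (0 : ℝ) < 2 ^ k := by positivity
        have h10 : (1 / 2 : ℝ) ^ k * 2 ^ k = 1 := by
          rw [← mul_pow]; norm_num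
        have h8 : (a : ℝ) * 2 ^ k < hfin.toFinset.card * (b + 1) := by
          calc (a : ℝ) * 2 ^ k < (hfin.toFinset.card * (1 / 2) ^ k * (b + 1)) * 2 ^ k :=
                mul_lt_mul_of_pos_right hk h9
            _ = hfin.toFinset.card * (b + 1) * ((1 / 2) ^ k * 2 ^ k) := by ring
            _ = _ := by rw [h10, mul_one]
        exact_mod_cast h8
      · intro ρ hρ
        exact ((Set.Finite.mem_toFinset _).1 (Finset.mem_toList.1 hρ)).2
  have h1 : REPred (fun x : Str × ℕ × ℕ => ∃ y : ℕ × List Str, (y.2.Nodup ∧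
      (∀ ρ ∈ y.2, ρ.length = y.1) ∧ x.2.1 * 2 ^ y.1 < y.2.length * (x.2.2 + 1)) ∧
      (∀ ρ ∈ y.2, Phi c ρ x.1)) := by
    refine REPred.exists' (p := fun (x : Str × ℕ × ℕ) (y : ℕ × List Str) => (y.2.Nodup ∧
      (∀ ρ ∈ y.2, ρ.length = y.1) ∧ x.2.1 * 2 ^ y.1 < y.2.length * (x.2.2 + 1)) ∧
      (∀ ρ ∈ y.2, Phi c ρ x.1)) ?_
    have hk : Primrec (fun z : (Str × ℕ × ℕ) × (ℕ × List Str) => z.2.1) :=
      Primrec.fst.comp Primrec.snd
    have hL : Primrec (fun z : (Str × ℕ × ℕ) × (ℕ × List Str) => z.2.2) :=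
      Primrec.snd.comp Primrec.snd
    have hσ : Primrec (fun z : (Str × ℕ × ℕ) × (ℕ × List Str) => z.1.1) :=
      Primrec.fst.comp Primrec.fst
    have ha : Primrec (fun z : (Str × ℕ × ℕ) × (ℕ × List Str) => z.1.2.1) :=
      Primrec.fst.comp (Primrec.snd.comp Primrec.fst)
    have hb : Primrec (fun z : (Str × ℕ × ℕ) × (ℕ × List Str) => z.1.2.2) :=
      Primrec.snd.comp (Primrec.snd.comp Primrec.fst)
    refine REPred.and (REPred.of_primrecPred (PrimrecPred.and ?_ (PrimrecPred.and ?_ ?_))) ?_
    · exact primrec_nodup.comp hL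
    · have h2 : PrimrecRel (fun (ρ : Str) (k : ℕ) => ρ.length = k) :=
        Primrec.eq.comp (Primrec.list_length.comp Primrec.fst) Primrec.snd
      exact h2.forall_mem_list.comp hL hk
    · exact Primrec.nat_lt.comp (Primrec.nat_mul.comp ha (primrec_pow.comp (Primrec.const 2) hk))
        (Primrec.nat_mul.comp (Primrec.list_length.comp hL) (Primrec.succ.comp hb))
    · have h3 := REPred.forall_mem_list (p := fun (ρ σ : Str) => Phi c ρ σ) (re_Phi c)
      exact REPred.comp (f := fun z : (Str × ℕ × ℕ) × (ℕ × List Str) => (z.2.2, z.1.1)) h3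
        (hL.pair hσ).to_comp
  exact h1.of_eq h0

/-- the oracles from which the functional `c` computes a member of `P` -/
def Ev (P : Set (ℕ → Bool)) (c : Code) : Set (ℕ → Bool) :=
  {Y | ∃ X ∈ P, ∀ n, ∃ k, (cond (X n) 1 0) ∈ eval c (Encodable.encode (block Y 0 k, n))}

lemma Ev_null {P : Set (ℕ → Bool)} {c : Code} (hc : Mono c)
    (hP : ∀ ε : ℝ, 0 < ε → ∃ m, mass (mu c) (trace P m) ≤ ε) : coin (Ev P c) = 0 := by
  classical
  have h1 : ∀ m, (coin (Ev P c)).toReal ≤ mass (mu c) (trace P m) := by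
    intro m
    rw [mass_eq]
    set T : Finset Str := (trace_finite P m).toFinset with hT
    have h2 : Ev P c ⊆ ⋃ σ ∈ T, Out c σ := by
      rintro Y ⟨X, hX, hXY⟩
      refine Set.mem_iUnion₂.2 ⟨block X 0 m, ?_, ?_⟩
      · rw [hT, Set.Finite.mem_toFinset]
        exact ⟨X, hX, rfl⟩
      · have h3 : ∀ m, ∃ k, Phi c (block Y 0 k) (block X 0 m) := by
          intro m
          induction m with
          | zero => exact ⟨0, fun j hj => by simp [block_length] at hj⟩
          | succ m ih =>
            obtain ⟨k, hk⟩ := ih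
            obtain ⟨k', hk'⟩ := hXY m
            refine ⟨max k k', ?_⟩
            intro j hj
            rw [block_length, List.mem_range] at hj
            rcases Nat.lt_or_ge j m with h4 | h4
            · have h5 := (hk.mono hc (block_prefix Y (le_max_left k k'))) j (by
                rw [block_length, List.mem_range]; exact h4)
              have h6 : (block X 0 m).getD j false = (block X 0 (m + 1)).getD j false := by
                simp [block, h4, hj]
              rw [← h6]
              exact h5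
            · have h5 : j = m := by omega
              subst h5
              have h6 : (block X 0 (j + 1)).getD j false = X j := by
                simp [block]
              rw [h6]
              exact hc _ _ _ _ (block_prefix Y (le_max_right k k')) hk'
        exact h3 m
    have h4 : coin (Ev P c) ≤ ∑ σ ∈ T, coin (Out c σ) :=
      (measure_mono h2).trans (measure_biUnion_finset_le _ _)
    have h5 := ENNReal.toReal_mono (by
      refine ENNReal.sum_ne_top.2 (fun σ _ => measure_ne_top _ _)) h4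
    rw [ENNReal.toReal_sum (fun σ _ => measure_ne_top _ _)] at h5
    exact h5
  have h3 : (coin (Ev P c)).toReal ≤ 0 := by
    by_contra hcon
    push Not at hcon
    obtain ⟨m, hm⟩ := hP ((coin (Ev P c)).toReal / 2) (by linarith)
    have := h1 m
    linarith
  have h4 : (coin (Ev P c)).toReal = 0 := le_antisymm h3 ENNReal.toReal_nonneg
  rcases (ENNReal.toReal_eq_zero_iff _).1 h4 with h5 | h5
  · exact h5
  · exact absurd h5 (measure_ne_top _ _)

/-- A class which is small for every left-c.e. semimeasure is negligible. -/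
theorem negligible_of_small {P : Set (ℕ → Bool)}
    (hP : ∀ M : Str → ℝ, IsSemimeasure M → IsLeftCE M → ∀ ε : ℝ, 0 < ε →
      ∃ m, mass M (trace P m) ≤ ε) : IsNegligible P := by
  have hsub : {Y | ∃ X ∈ P, TuringReducible (toFun X) (toFun Y)} ⊆
      ⋃ c ∈ {c : Code | Mono c}, Ev P c := by
    rintro Y ⟨X, hX, hXY⟩
    have h1 : Nat.RecursiveIn {toFun Y} (toFun X) := RecursiveIn.iff_nat.1 hXY
    obtain ⟨F, hF1, hF2, hF3⟩ := exists_functional Y _ h1
    obtain ⟨c, hc⟩ := exists_code.1 hF1
    have h2 : ∀ (σ : Str) (n y : ℕ), y ∈ eval c (Encodable.encode (σ, n)) ↔ y ∈ F (σ, n) := by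
      intro σ n y
      rw [hc]
      simp only [Encodable.encodek, Part.coe_some, Part.bind_some]
      simp
    refine Set.mem_iUnion₂.2 ⟨c, ?_, X, hX, ?_⟩
    · intro σ τ n y hστ hy
      rw [h2] at hy ⊢
      exact hF2 σ τ n y hστ hy
    · intro n
      obtain ⟨k, hk⟩ := (hF3 n (cond (X n) 1 0)).1 (Part.mem_some _)
      exact ⟨k, (h2 _ _ _).2 hk⟩
  unfold IsNegligible
  refine measure_mono_null hsub ?_
  refine (measure_biUnion_null_iff (Set.to_countable _)).2 ?_
  intro c hc
  have hc : Mono c := hc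
  exact Ev_null hc (hP (mu c) (mu_semimeasure c hc) (mu_leftCE c hc))

/-- The sublinear shift-complex classes are negligible. -/
theorem negligible_ff {U : Str →. Str} (hU : IsUniversalMachine U) (c : ℕ) :
    IsNegligible (ShiftComplex U (fun n => (ff n : ℝ)) c) := by
  refine negligible_of_small ?_
  intro M hM hM2 ε hε
  obtain ⟨b, -, hb⟩ := key_mass hU hM hM2 c
  obtain ⟨t, ht⟩ := exists_pow_lt_of_lt_one hε (show (1 / 2 : ℝ) < 1 by norm_num)
  refine ⟨NN (t + b), (hb (t + b) (by omega)).trans (le_trans ?_ ht.le)⟩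
  exact pow_le_pow_of_le_one (by norm_num) (by norm_num) (by omega)

end Pool.Agent.H81.SC
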