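import Mathlib
import Pool.Agent.H81.SC.Neg

/-!
# Interleaved periodic sequences: positions, densities, periods
-/

set_option autoImplicit false

namespace Pool.Agent.H81.SC

section positions

variable (m : ℕ → ℕ)

/-- the `p`-th position which is not a multiple of `m k` -/
def bet (k p : ℕ) : ℕ := p + p / (m k - 1) + 1

/-- the place in level `0` of the `p`-th entry of level `k` -/
def pos : ℕ → ℕ → ℕ
  | 0 => fun p => p
  | k + 1 => fun p => pos k (bet m k p)

/-- one step of decoding -/
def dstep (x : ℕ × ℕ) : ℕ × ℕ :=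
  if x.2 % m x.1 = 0 then x else (x.1 + 1, x.2 - x.2 / m x.1 - 1)

/-- iterated decoding -/
def ditr (x : ℕ × ℕ) (n : ℕ) : ℕ × ℕ := Nat.rec x (fun _ y => dstep m y) n

/-- the bit of the oracle which is written at position `i` -/
def hmap (N : ℕ → ℕ) (i : ℕ) : ℕ :=
  Nat.pair (ditr m (0, i) i).1 (((ditr m (0, i) i).2 / m (ditr m (0, i) i).1) %
    N (ditr m (0, i) i).1)

lemma ditr_succ (x : ℕ × ℕ) (n : ℕ) : ditr m x (n + 1) = dstep m (ditr m x n) := rfl

variable {m} (hm : ∀ j, 2 ≤ m j)
include hm

lemma dstep_bet (k p : ℕ) : dstep m (k, bet m k p) = (k + 1, p) := by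
  obtain ⟨a, ha⟩ := Nat.exists_eq_add_of_le (hm k)
  have h1 : m k - 1 = a + 1 := by omega
  have h2 : m k = a + 2 := by omega
  have h3 : bet m k p = (a + 2) * (p / (a + 1)) + (p % (a + 1) + 1) := by
    unfold bet
    rw [h1]
    have := Nat.div_add_mod p (a + 1)
    nlinarith
  have h4 : p % (a + 1) < a + 1 := Nat.mod_lt _ (by omega)
  have h5 : bet m k p % m k = p % (a + 1) + 1 := by
    rw [h3, h2, Nat.mul_add_mod]
    exact Nat.mod_eq_of_lt (by omega)
  have h6 : bet m k p / m k = p / (a + 1) := by
    have h7 : (p % (a + 1) + 1) / (a + 2) = 0 := Nat.div_eq_of_lt (by omega)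
    rw [h3, h2, Nat.mul_add_div (by omega), h7, Nat.add_zero]
  unfold dstep
  simp only
  rw [h5, if_neg (by omega), h6]
  unfold bet
  rw [h1]
  congr 1
  omega

lemma ditr_pos (k : ℕ) : ∀ p, ditr m (0, pos m k p) k = (k, p) := by
  induction k with
  | zero => intro p; rfl
  | succ k ih =>
    intro p
    rw [ditr_succ]
    show dstep m (ditr m (0, pos m k (bet m k p)) k) = _
    rw [ih, dstep_bet hm]

omit hm in
lemma le_pos (k : ℕ) : ∀ p, p + k ≤ pos m k p := by
  induction k with
  | zero => intro p; exact le_rfl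
  | succ k ih =>
    intro p
    refine le_trans ?_ (ih (bet m k p))
    unfold bet
    generalize p / (m k - 1) = q
    omega

lemma ditr_stay (k l n : ℕ) : ditr m (0, pos m k (m k * l)) (k + n) = (k, m k * l) := by
  induction n with
  | zero => exact ditr_pos hm k _
  | succ n ih =>
    rw [← Nat.add_assoc, ditr_succ, ih]
    unfold dstep
    simp

lemma hmap_pos (N : ℕ → ℕ) (k l : ℕ) : hmap m N (pos m k (m k * l)) = Nat.pair k (l % N k) := by
  have h1 : ditr m (0, pos m k (m k * l)) (pos m k (m k * l)) = (k, m k * l) := by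
    obtain ⟨n, hn⟩ := Nat.exists_eq_add_of_le (le_pos (m := m) k (m k * l))
    have h2 : pos m k (m k * l) = k + (m k * l + n) := by omega
    have h3 := ditr_stay hm k l (m k * l + n)
    rw [← h2] at h3
    exact h3
  unfold hmap
  rw [h1]
  simp only
  rw [Nat.mul_div_cancel_left _ (by have := hm k; omega)]

/-- growth of positions -/
lemma pos_growth (k : ℕ) : ∀ p r, (∏ j ∈ Finset.range k, (m j - 1)) * pos m k (p + r) ≤
    (∏ j ∈ Finset.range k, (m j - 1)) * pos m k p + (∏ j ∈ Finset.range k, m j) * (r + k) := by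
  induction k with
  | zero => intro p r; simp [pos]
  | succ k ih =>
    intro p r
    obtain ⟨a, ha⟩ := Nat.exists_eq_add_of_le (hm k)
    have h1 : m k - 1 = a + 1 := by omega
    have h2 : m k = a + 2 := by omega
    set A := ∏ j ∈ Finset.range k, (m j - 1) with hA
    set B := ∏ j ∈ Finset.range k, m j with hB
    obtain ⟨r', hr'⟩ : ∃ r', bet m k (p + r) = bet m k p + r' := by
      refine Nat.exists_eq_add_of_le ?_
      unfold bet
      have := Nat.div_le_div_right (c := m k - 1) (Nat.le_add_right p r)
      omega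
    have h3 : (a + 1) * r' ≤ (a + 2) * r + (a + 1) := by
      unfold bet at hr'
      rw [h1] at hr'
      have h4 := Nat.div_add_mod (p + r) (a + 1)
      have h5 := Nat.div_add_mod p (a + 1)
      have h6 : p % (a + 1) < a + 1 := Nat.mod_lt _ (by omega)
      have h8 : (a + 1) * (p + r + (p + r) / (a + 1) + 1) =
          (a + 1) * (p + p / (a + 1) + 1 + r') := by rw [hr']
      have h9 : (a + 1) * (p + r) + (a + 1) * ((p + r) / (a + 1)) + (a + 1) =
          (a + 1) * p + (a + 1) * (p / (a + 1)) + (a + 1) + (a + 1) * r' := by linarith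
      have h10 : (a + 1) * ((p + r) / (a + 1)) ≤ p + r := by omega
      have h11 : p ≤ (a + 1) * (p / (a + 1)) + a := by omega
      nlinarith
    have h7 := ih (bet m k p) r'
    rw [Finset.prod_range_succ, Finset.prod_range_succ, ← hA, ← hB, h1, h2]
    show A * (a + 1) * pos m k (bet m k (p + r)) ≤ A * (a + 1) * pos m k (bet m k p) + _
    rw [hr']
    calc A * (a + 1) * pos m k (bet m k p + r')
        = (a + 1) * (A * pos m k (bet m k p + r')) := by ring
      _ ≤ (a + 1) * (A * pos m k (bet m k p) + B * (r' + k)) := Nat.mul_le_mul_left _ h7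
      _ = A * (a + 1) * pos m k (bet m k p) + B * ((a + 1) * r' + (a + 1) * k) := by ring
      _ ≤ A * (a + 1) * pos m k (bet m k p) + B * ((a + 2) * r + (a + 1) + (a + 1) * k) := by
          refine Nat.add_le_add_left (Nat.mul_le_mul_left _ ?_) _
          omega
      _ ≤ A * (a + 1) * pos m k (bet m k p) + B * ((a + 2) * (r + (k + 1))) := by
          refine Nat.add_le_add_left (Nat.mul_le_mul_left _ ?_) _
          nlinarith
      _ = _ := by ring

lemma pos_le (k : ℕ) : ∀ r, (∏ j ∈ Finset.range k, (m j - 1)) * pos m k r ≤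
    (∏ j ∈ Finset.range k, m j) * (r + k) := by
  induction k with
  | zero => intro r; simp [pos]
  | succ k ih =>
    intro r
    obtain ⟨a, ha⟩ := Nat.exists_eq_add_of_le (hm k)
    have h1 : m k - 1 = a + 1 := by omega
    have h2 : m k = a + 2 := by omega
    set A := ∏ j ∈ Finset.range k, (m j - 1) with hA
    set B := ∏ j ∈ Finset.range k, m j with hB
    have h3 : (a + 1) * bet m k r ≤ (a + 2) * r + (a + 1) := by
      unfold bet
      rw [h1]
      have h5 := Nat.div_add_mod r (a + 1)
      have h6 : (a + 1) * (r / (a + 1)) ≤ r := by omega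
      have h8 : (a + 1) * (r + r / (a + 1) + 1) = (a + 1) * r + (a + 1) * (r / (a + 1)) +
          (a + 1) := by ring
      rw [h8]
      nlinarith
    have h7 := ih (bet m k r)
    rw [Finset.prod_range_succ, Finset.prod_range_succ, ← hA, ← hB, h1, h2]
    show A * (a + 1) * pos m k (bet m k r) ≤ _
    calc A * (a + 1) * pos m k (bet m k r) = (a + 1) * (A * pos m k (bet m k r)) := by ring
      _ ≤ (a + 1) * (B * (bet m k r + k)) := Nat.mul_le_mul_left _ h7
      _ = B * ((a + 1) * bet m k r + (a + 1) * k) := by ring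
      _ ≤ B * ((a + 2) * r + (a + 1) + (a + 1) * k) := by
          refine Nat.mul_le_mul_left _ ?_
          omega
      _ ≤ B * ((a + 2) * (r + (k + 1))) := by
          refine Nat.mul_le_mul_left _ ?_
          nlinarith
      _ = _ := by ring

/-- periodicity of positions -/
lemma pos_period (k : ℕ) : ∀ p y, pos m k (p + (∏ j ∈ Finset.range k, (m j - 1)) * y) =
    pos m k p + (∏ j ∈ Finset.range k, m j) * y := by
  induction k with
  | zero => intro p y; simp [pos]
  | succ k ih =>
    intro p y
    obtain ⟨a, ha⟩ := Nat.exists_eq_add_of_le (hm k)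
    have h1 : m k - 1 = a + 1 := by omega
    have h2 : m k = a + 2 := by omega
    set A := ∏ j ∈ Finset.range k, (m j - 1) with hA
    set B := ∏ j ∈ Finset.range k, m j with hB
    rw [Finset.prod_range_succ, Finset.prod_range_succ, ← hA, ← hB, h1, h2]
    show pos m k (bet m k (p + A * (a + 1) * y)) = pos m k (bet m k p) + _
    have h3 : bet m k (p + A * (a + 1) * y) = bet m k p + A * ((a + 2) * y) := by
      unfold bet
      rw [h1]
      have h4 : (p + A * (a + 1) * y) / (a + 1) = p / (a + 1) + A * y := by
        rw [show p + A * (a + 1) * y = p + (a + 1) * (A * y) by ring,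
          Nat.add_mul_div_left _ _ (by omega)]
      rw [h4]
      ring
    rw [h3, ih]
    ring

omit hm in
lemma pos_mono (k : ℕ) : StrictMono (pos m k) := by
  induction k with
  | zero => exact strictMono_id
  | succ k ih =>
    intro p q hpq
    show pos m k (bet m k p) < pos m k (bet m k q)
    refine ih ?_
    unfold bet
    have := Nat.div_le_div_right (c := m k - 1) hpq.le
    omega

/-- windows contain many letters of level `k` -/
lemma exists_window (k D a n : ℕ)
    (hQ : (∏ j ∈ Finset.range k, m j) ≤ 2 * ∏ j ∈ Finset.range k, (m j - 1))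
    (hD : 2 * (m k * D + k) ≤ n) :
    ∃ l, ∀ i < D, a ≤ pos m k (m k * (l + i)) ∧ pos m k (m k * (l + i)) < a + n := by
  classical
  have hA : 0 < ∏ j ∈ Finset.range k, (m j - 1) :=
    Finset.prod_pos (fun j _ => by have := hm j; omega)
  set A := ∏ j ∈ Finset.range k, (m j - 1) with hAd
  set B := ∏ j ∈ Finset.range k, m j with hBd
  have hmk := hm k
  have hex : ∃ l, a ≤ pos m k (m k * l) := by
    refine ⟨a, ?_⟩
    have h1 := le_pos (m := m) k (m k * a)
    have h2 : a ≤ m k * a := Nat.le_mul_of_pos_left _ (by omega)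
    omega
  refine ⟨Nat.find hex, fun i hi => ⟨?_, ?_⟩⟩
  · refine (Nat.find_spec hex).trans ((pos_mono (m := m) k).monotone ?_)
    exact Nat.mul_le_mul_left _ (Nat.le_add_right _ _)
  · rcases Nat.eq_zero_or_pos (Nat.find hex) with h0 | h0
    · rw [h0, Nat.zero_add]
      have h1 := pos_le hm k (m k * i)
      rw [← hAd, ← hBd] at h1
      have h2 : A * pos m k (m k * i) ≤ A * (2 * (m k * i + k)) := by
        calc _ ≤ B * (m k * i + k) := h1
          _ ≤ 2 * A * (m k * i + k) := Nat.mul_le_mul_right _ hQ
          _ = _ := by ring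
      have h3 := Nat.le_of_mul_le_mul_left h2 hA
      have h4 : m k * i + m k ≤ m k * D := by
        rw [← Nat.mul_succ]
        exact Nat.mul_le_mul_left _ hi
      omega
    · obtain ⟨l, hl⟩ := Nat.exists_eq_succ_of_ne_zero h0.ne'
      have h5 : pos m k (m k * l) < a := by
        have := Nat.find_min hex (show l < Nat.find hex by omega)
        omega
      rw [hl]
      have h1 := pos_growth hm k (m k * l) (m k * (i + 1))
      rw [← hAd, ← hBd] at h1
      have h2 : A * pos m k (m k * l + m k * (i + 1)) ≤
          A * (pos m k (m k * l) + 2 * (m k * (i + 1) + k)) := by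
        calc _ ≤ A * pos m k (m k * l) + B * (m k * (i + 1) + k) := h1
          _ ≤ A * pos m k (m k * l) + 2 * A * (m k * (i + 1) + k) :=
              Nat.add_le_add_left (Nat.mul_le_mul_right _ hQ) _
          _ = _ := by ring
      have h3 := Nat.le_of_mul_le_mul_left h2 hA
      have h4 : m k * (i + 1) ≤ m k * D := Nat.mul_le_mul_left _ hi
      have h6 : m k * (l.succ + i) = m k * l + m k * (i + 1) := by
        rw [Nat.succ_eq_add_one]; ring
      rw [h6]
      omega

end positions

end Pool.Agent.H81.SC
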