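import Mathlib
import Pool.Agent.H81.SC.Inter

/-!
# Shift-complex classes which are not negligible
-/

set_option autoImplicit false

namespace Pool.Agent.H81.SC

open MeasureTheory

/-- cylinders on a finite set of coordinates -/
lemma coin_coords (S : Finset ℕ) (Y₀ : ℕ → Bool) :
    coin {Y | ∀ j ∈ S, Y j = Y₀ j} = (1 / 2 : ENNReal) ^ S.card := by
  have h1 : {Y : ℕ → Bool | ∀ j ∈ S, Y j = Y₀ j} = Set.pi (S : Set ℕ) (fun i => {Y₀ i}) := by
    ext Y
    simp [Set.mem_pi]
  rw [h1]
  unfold coin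
  rw [Measure.infinitePi_pi _ (fun i _ => measurableSet_singleton _)]
  have h2 : ∀ b : Bool, (PMF.uniformOfFintype Bool).toMeasure {b} = (1 / 2 : ENNReal) := by
    intro b
    rw [PMF.toMeasure_apply_singleton _ _ (measurableSet_singleton b)]
    simp
  rw [Finset.prod_congr rfl (fun i _ => h2 _)]
  simp

/-- the sequence computed from the oracle `Y` -/
def seqOf (m N : ℕ → ℕ) (Y : ℕ → Bool) : ℕ → Bool := fun i => Y (hmap m N i)

/-- the string `τ` matches the letters of level `k` at place `a` -/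
def Match (m N : ℕ → ℕ) (k a : ℕ) (τ : Str) : Set (ℕ → Bool) :=
  {Y | ∀ l, a ≤ pos m k (m k * l) → pos m k (m k * l) < a + τ.length →
    Y (Nat.pair k (l % N k)) = τ.getD (pos m k (m k * l) - a) false}

section

variable {m N : ℕ → ℕ} (hm : ∀ j, 2 ≤ m j) (hN : ∀ j, 1 ≤ N j)
include hm

lemma mem_match {Y : ℕ → Bool} {a : ℕ} {τ : Str} (k : ℕ)
    (h : block (seqOf m N Y) a τ.length = τ) : Y ∈ Match m N k a τ := by
  intro l h1 h2
  rw [← h]
  have h3 : pos m k (m k * l) - a < τ.length := by omega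
  simp only [block, List.getD_eq_getElem?_getD, List.getElem?_map]
  rw [List.getElem?_range h3]
  simp only [Option.map_some, Option.getD_some, seqOf]
  rw [show a + (pos m k (m k * l) - a) = pos m k (m k * l) by omega, hmap_pos hm]

/-- the period of level `k` -/
def per (m N : ℕ → ℕ) (k : ℕ) : ℕ := N k * ∏ j ∈ Finset.range (k + 1), m j

lemma match_period (k a : ℕ) (τ : Str) : Match m N k (a + per m N k) τ ⊆ Match m N k a τ := by
  intro Y hY l h1 h2
  have h3 : pos m k (m k * (l + N k * ∏ j ∈ Finset.range k, (m j - 1))) =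
      pos m k (m k * l) + per m N k := by
    rw [show m k * (l + N k * ∏ j ∈ Finset.range k, (m j - 1)) =
      m k * l + (∏ j ∈ Finset.range k, (m j - 1)) * (m k * N k) by ring, pos_period hm]
    unfold per
    rw [Finset.prod_range_succ]
    ring
  have h4 := hY (l + N k * ∏ j ∈ Finset.range k, (m j - 1)) (by rw [h3]; omega) (by rw [h3]; omega)
  rw [h3, Nat.add_mul_mod_self_left] at h4
  rw [h4]
  congr 1
  omega

lemma match_mod {Y : ℕ → Bool} {k a : ℕ} {τ : Str} (h : Y ∈ Match m N k a τ) :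
    Y ∈ Match m N k (a % per m N k) τ := by
  have h1 : ∀ q b : ℕ, Y ∈ Match m N k (b + per m N k * q) τ → Y ∈ Match m N k b τ := by
    intro q
    induction q with
    | zero => intro b hb; exact hb
    | succ q ih =>
      intro b hb
      refine ih b (match_period hm k _ τ ?_)
      rw [show b + per m N k * q + per m N k = b + per m N k * (q + 1) by ring]
      exact hb
  refine h1 (a / per m N k) _ ?_
  rw [Nat.mod_add_div]
  exact h

include hN

lemma per_pos (k : ℕ) : 0 < per m N k := by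
  unfold per
  have := hN k
  have h2 : 0 < ∏ j ∈ Finset.range (k + 1), m j :=
    Finset.prod_pos (fun j _ => by have := hm j; omega)
  positivity

omit hN in
lemma coin_match {k a D : ℕ} {τ : Str}
    (hQ : (∏ j ∈ Finset.range k, m j) ≤ 2 * ∏ j ∈ Finset.range k, (m j - 1))
    (hD : 2 * (m k * D + k) ≤ τ.length) (hDN : D ≤ N k) :
    coin (Match m N k a τ) ≤ (1 / 2 : ENNReal) ^ D := by
  classical
  rcases Set.eq_empty_or_nonempty (Match m N k a τ) with h0 | ⟨Y₀, hY₀⟩
  · rw [h0]; simp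
  obtain ⟨l, hl⟩ := exists_window hm k D a τ.length hQ hD
  set S : Finset ℕ := (Finset.range D).image (fun i => Nat.pair k ((l + i) % N k)) with hS
  have hcard : S.card = D := by
    rw [hS, Finset.card_image_of_injOn, Finset.card_range]
    intro i hi j hj hij
    rw [Finset.mem_coe, Finset.mem_range] at hi hj
    have h1 : (l + i) % N k = (l + j) % N k := by
      have := congrArg (fun x => (Nat.unpair x).2) hij
      simpa using this
    have h2 : (l + i) ≡ (l + j) [MOD N k] := h1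
    have h3 : i ≡ j [MOD N k] := Nat.ModEq.add_left_cancel' l h2
    exact Nat.ModEq.eq_of_lt_of_lt h3 (by omega) (by omega)
  have hsub : Match m N k a τ ⊆ {Y | ∀ j ∈ S, Y j = Y₀ j} := by
    intro Y hY j hj
    rw [hS] at hj
    obtain ⟨i, hi, rfl⟩ := Finset.mem_image.1 hj
    rw [Finset.mem_range] at hi
    obtain ⟨h1, h2⟩ := hl i hi
    rw [hY (l + i) h1 h2, hY₀ (l + i) h1 h2]
  refine (measure_mono hsub).trans (le_of_eq ?_)
  rw [coin_coords, hcard]

/-- the probability that `τ` occurs in the sequence -/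
lemma coin_occ {k D : ℕ} {τ : Str}
    (hQ : (∏ j ∈ Finset.range k, m j) ≤ 2 * ∏ j ∈ Finset.range k, (m j - 1))
    (hD : 2 * (m k * D + k) ≤ τ.length) (hDN : D ≤ N k) :
    coin {Y | ∃ a, block (seqOf m N Y) a τ.length = τ} ≤
      (per m N k : ENNReal) * (1 / 2 : ENNReal) ^ D := by
  classical
  have hsub : {Y | ∃ a, block (seqOf m N Y) a τ.length = τ} ⊆
      ⋃ a ∈ Finset.range (per m N k), Match m N k a τ := by
    rintro Y ⟨a, ha⟩
    refine Set.mem_iUnion₂.2 ⟨a % per m N k, ?_, match_mod hm (mem_match hm k ha)⟩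
    exact Finset.mem_range.2 (Nat.mod_lt _ (per_pos hm hN k))
  refine (measure_mono hsub).trans ((measure_biUnion_finset_le _ _).trans ?_)
  refine (Finset.sum_le_sum (fun a _ => coin_match hm hQ hD hDN)).trans ?_
  rw [Finset.sum_const, Finset.card_range, nsmul_eq_mul]

end

/-! ### Kraft's inequality -/

lemma kraft {U : Str →. Str} (hU : IsUniversalMachine U) :
    ∑' x : Str, (1 / 2 : ENNReal) ^ K U x ≤ 1 := by
  classical
  have h1 : ∀ x : Str, ∃ p : Str, p.length = K U x ∧ x ∈ U p := by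
    intro x
    obtain ⟨p, hp⟩ := exists_program hU x
    exact Nat.sInf_mem (s := {n | ∃ p : Str, p.length = n ∧ x ∈ U p}) ⟨_, p, rfl, hp⟩
  choose p hp hpU using h1
  have h2 : ∀ x, (1 / 2 : ENNReal) ^ K U x = coin {Y | block Y 0 (p x).length = p x} := by
    intro x
    rw [coin_cyl, hp]
  rw [tsum_congr h2]
  refine (tsum_measure_le_measure_univ (fun x => (measurable_cyl (p x)).nullMeasurableSet) ?_).trans
    prob_le_one
  intro x y hxy
  refine Disjoint.aedisjoint ?_
  rw [Set.disjoint_left]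
  intro Y h3 h4
  refine hxy ?_
  have h3 : block Y 0 (p x).length = p x := h3
  have h4 : block Y 0 (p y).length = p y := h4
  have h5 : p x = p y := by
    rcases le_total (p x).length (p y).length with h | h
    · refine hU.1.2 _ _ (Part.dom_iff_mem.2 ⟨_, hpU x⟩) (Part.dom_iff_mem.2 ⟨_, hpU y⟩) ?_
      rw [← h3, ← h4]
      exact block_prefix Y h
    · refine (hU.1.2 _ _ (Part.dom_iff_mem.2 ⟨_, hpU y⟩) (Part.dom_iff_mem.2 ⟨_, hpU x⟩) ?_).symm
      rw [← h3, ← h4]
      exact block_prefix Y h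
  have h6 := hpU x
  rw [h5] at h6
  exact Part.mem_unique h6 (hpU y)

/-! ### Turing reducibility of re-indexed sequences -/

lemma reducible_comp (Y : ℕ → Bool) {h : ℕ → ℕ} (hh : Computable h) :
    TuringReducible (toFun (fun i => Y (h i))) (toFun Y) := by
  have h1 : Nat.RecursiveIn {toFun Y} (fun n => (Part.some (h n) : Part ℕ)) :=
    Nat.Partrec.recursiveIn (Partrec.nat_iff.1 hh.partrec)
  have h2 : Nat.RecursiveIn {toFun Y} (toFun Y) := Nat.RecursiveIn.oracle _ rfl
  have h3 := Nat.RecursiveIn.comp h2 h1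
  refine RecursiveIn.iff_nat.2 ?_
  refine Nat.RecursiveIn.of_eq h3 (fun n => ?_)
  simp [toFun]

lemma computable_hmap {m N : ℕ → ℕ} (hm : Computable m) (hN : Computable N) :
    Computable (hmap m N) := by
  have h1 : Computable (fun x : ℕ × ℕ => m x.1) := hm.comp Computable.fst
  have h2 : Computable (fun x : ℕ × ℕ => decide (x.2 % m x.1 = 0)) := by
    have h3 : Primrec (fun z : ℕ × ℕ => decide (z.1 % z.2 = 0)) :=
      (Primrec.eq.comp (Primrec.nat_mod.comp Primrec.fst Primrec.snd) (Primrec.const 0)).decide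
    exact h3.to_comp.comp (Computable.snd.pair h1)
  have h4 : Computable (fun x : ℕ × ℕ => (x.1 + 1, x.2 - x.2 / m x.1 - 1)) := by
    refine (Computable.succ.comp Computable.fst).pair ?_
    have h3 : Primrec (fun z : ℕ × ℕ => z.1 - z.1 / z.2 - 1) :=
      Primrec.nat_sub.comp (Primrec.nat_sub.comp Primrec.fst
        (Primrec.nat_div.comp Primrec.fst Primrec.snd)) (Primrec.const 1)
    exact h3.to_comp.comp (Computable.snd.pair h1)
  have h5 : Computable (dstep m) := by
    refine (Computable.cond h2 Computable.id h4).of_eq (fun x => ?_)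
    unfold dstep
    by_cases h : x.2 % m x.1 = 0
    · simp [h]
    · simp [h]
  have h6 : Computable (fun i : ℕ => ditr m (0, i) i) := by
    refine Computable.nat_rec (f := fun i : ℕ => i) (g := fun i : ℕ => ((0, i) : ℕ × ℕ))
      (h := fun (_ : ℕ) (y : ℕ × (ℕ × ℕ)) => dstep m y.2) Computable.id
      ((Computable.const 0).pair Computable.id) ?_
    exact h5.comp (Computable.snd.comp Computable.snd)
  have h7 : Computable (fun x : ℕ × ℕ => Nat.pair x.1 ((x.2 / m x.1) % N x.1)) := by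
    have h8 : Primrec (fun z : (ℕ × ℕ) × (ℕ × ℕ) => Nat.pair z.1.1 ((z.1.2 / z.2.1) % z.2.2)) := by
      refine Primrec₂.natPair.comp (Primrec.fst.comp Primrec.fst) ?_
      exact Primrec.nat_mod.comp (Primrec.nat_div.comp (Primrec.snd.comp Primrec.fst)
        (Primrec.fst.comp Primrec.snd)) (Primrec.snd.comp Primrec.snd)
    exact h8.to_comp.comp (Computable.id.pair (h1.pair (hN.comp Computable.fst)))
  exact h7.comp h6

/-! ### The main result -/

/-- Interleaved periodic sequences are shift-complex with positive probability. -/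
theorem not_negligible_of {m N : ℕ → ℕ} (hmc : Computable m) (hNc : Computable N)
    (hm : ∀ j, 2 ≤ m j) (hN : ∀ j, 1 ≤ N j)
    (hQ : ∀ k, (∏ j ∈ Finset.range k, m j) ≤ 2 * ∏ j ∈ Finset.range k, (m j - 1))
    {f : ℕ → ℝ} (n₀ : ℕ) (hf : ∀ n, n₀ ≤ n → ∃ k D F : ℕ, f n ≤ F ∧ 2 * (m k * D + k) ≤ n ∧
      D ≤ N k ∧ per m N k * 2 ^ F ≤ 2 ^ D) {U : Str →. Str} (hU : IsUniversalMachine U) :
    ∃ c₀ : ℕ, ∀ c, c₀ ≤ c → ¬ IsNegligible (ShiftComplex U f c) := by
  classical
  obtain ⟨c₁, hc₁⟩ : ∃ c₁ : ℕ, ∀ n < n₀, f n ≤ c₁ := by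
    have h1 : ∀ k, ∃ c₁ : ℕ, ∀ n < k, f n ≤ c₁ := by
      intro k
      induction k with
      | zero => exact ⟨0, fun n hn => absurd hn (Nat.not_lt_zero _)⟩
      | succ k ih =>
        obtain ⟨c₁, hc₁⟩ := ih
        obtain ⟨c₂, hc₂⟩ := exists_nat_ge (f k)
        refine ⟨max c₁ c₂, fun n hn => ?_⟩
        rcases Nat.lt_or_ge n k with h | h
        · exact (hc₁ n h).trans (by exact_mod_cast le_max_left _ _)
        · have h2 : n = k := by omega
          rw [h2]
          exact hc₂.trans (by exact_mod_cast le_max_right _ _)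
    exact h1 n₀
  refine ⟨max c₁ 1, fun c hc => ?_⟩
  have hcc₁ : c₁ ≤ c := (le_max_left _ _).trans hc
  have hc1 : 1 ≤ c := (le_max_right _ _).trans hc
  -- the bad events
  set bad : Str → Set (ℕ → Bool) := fun τ => if (K U τ : ℝ) < f τ.length - c then
    {Y | ∃ a, block (seqOf m N Y) a τ.length = τ} else ∅ with hbad
  have hbad1 : ∀ τ, coin (bad τ) ≤ (1 / 2 : ENNReal) ^ c * (1 / 2 : ENNReal) ^ K U τ := by
    intro τ
    simp only [hbad]
    split_ifs with h
    · have hn : n₀ ≤ τ.length := by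
        by_contra hcon
        push Not at hcon
        have h1 := hc₁ _ hcon
        have h2 : (c₁ : ℝ) ≤ c := by exact_mod_cast hcc₁
        have h3 : (0 : ℝ) ≤ K U τ := Nat.cast_nonneg _
        linarith
      obtain ⟨k, D, F, h1, h2, h3, h4⟩ := hf _ hn
      refine (coin_occ hm hN (hQ k) h2 h3).trans ?_
      have h5 : K U τ + c ≤ F := by
        have : ((K U τ + c : ℕ) : ℝ) < F := by push_cast; linarith
        have : K U τ + c < F := by exact_mod_cast this
        omega
      have h6 : (per m N k : ENNReal) * 2 ^ F ≤ 2 ^ D := by exact_mod_cast h4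
      have h7 : ∀ j : ℕ, (2 : ENNReal) ^ j * (1 / 2) ^ j = 1 := by
        intro j
        rw [← mul_pow]
        have : (2 : ENNReal) * (1 / 2) = 1 := by
          rw [one_div]
          exact ENNReal.mul_inv_cancel (by norm_num) (by norm_num)
        rw [this, one_pow]
      calc (per m N k : ENNReal) * (1 / 2 : ENNReal) ^ D
          = (per m N k : ENNReal) * (2 ^ F * (1 / 2) ^ F) * (1 / 2 : ENNReal) ^ D := by
            rw [h7, mul_one]
        _ = ((per m N k : ENNReal) * 2 ^ F) * ((1 / 2) ^ F * (1 / 2 : ENNReal) ^ D) := by ring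
        _ ≤ 2 ^ D * ((1 / 2) ^ F * (1 / 2 : ENNReal) ^ D) := by gcongr
        _ = (1 / 2) ^ F * (2 ^ D * (1 / 2 : ENNReal) ^ D) := by ring
        _ = (1 / 2) ^ F := by rw [h7, mul_one]
        _ ≤ (1 / 2) ^ (K U τ + c) := by
            refine pow_le_pow_right_of_le_one' ?_ h5
            rw [one_div]
            exact ENNReal.inv_le_one.2 (by norm_num)
        _ = _ := by rw [pow_add, mul_comm]
    · simp
  have hbad2 : coin (⋃ τ, bad τ) ≤ (1 / 2 : ENNReal) ^ c := by
    calc coin (⋃ τ, bad τ) ≤ ∑' τ, coin (bad τ) := measure_iUnion_le _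
      _ ≤ ∑' τ, (1 / 2 : ENNReal) ^ c * (1 / 2 : ENNReal) ^ K U τ := ENNReal.tsum_le_tsum hbad1
      _ = (1 / 2 : ENNReal) ^ c * ∑' τ, (1 / 2 : ENNReal) ^ K U τ := ENNReal.tsum_mul_left
      _ ≤ (1 / 2 : ENNReal) ^ c * 1 := by gcongr; exact kraft hU
      _ = _ := mul_one _
  have hbad3 : (⋃ τ, bad τ)ᶜ ⊆
      {Y | ∃ X ∈ ShiftComplex U f c, TuringReducible (toFun X) (toFun Y)} := by
    intro Y hY
    refine ⟨seqOf m N Y, ?_, reducible_comp Y (computable_hmap hmc hNc)⟩
    intro i n
    by_contra hcon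
    push Not at hcon
    refine hY (Set.mem_iUnion.2 ⟨block (seqOf m N Y) i n, ?_⟩)
    simp only [hbad]
    rw [if_pos (by rw [block_length]; exact hcon)]
    exact ⟨i, by rw [block_length]⟩
  intro hneg
  have h1 : coin (⋃ τ, bad τ)ᶜ = 0 := measure_mono_null hbad3 hneg
  have h2 : (1 : ENNReal) ≤ coin (⋃ τ, bad τ) + coin (⋃ τ, bad τ)ᶜ := by
    calc (1 : ENNReal) = coin Set.univ := measure_univ.symm
      _ = coin ((⋃ τ, bad τ) ∪ (⋃ τ, bad τ)ᶜ) := by rw [Set.union_compl_self]
      _ ≤ _ := measure_union_le _ _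
  rw [h1, add_zero] at h2
  have h3 : (1 / 2 : ENNReal) ^ c ≤ 1 / 2 := by
    calc (1 / 2 : ENNReal) ^ c ≤ (1 / 2) ^ 1 := by
          refine pow_le_pow_right_of_le_one' ?_ hc1
          rw [one_div]
          exact ENNReal.inv_le_one.2 (by norm_num)
      _ = _ := pow_one _
  have h4 : (1 : ENNReal) ≤ 1 / 2 := (h2.trans hbad2).trans h3
  rw [one_div] at h4
  have h5 : (2 : ENNReal)⁻¹ < 1 := ENNReal.inv_lt_one.2 (by norm_num)
  exact absurd h4 (not_le.2 h5)

/-- Deep classes are negligible. -/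
theorem negligible_of_deep {P : Set (ℕ → Bool)} {M : Str → ℝ} (hM : IsUniversalSemimeasure M)
    (hP : IsDeep M P) : IsNegligible P := by
  obtain ⟨-, h, -, hh⟩ := hP
  refine negligible_of_small ?_
  intro M' hM' hM'2 ε hε
  obtain ⟨C, hC⟩ := hM.2.2 M' hM' hM'2
  have hC0 : 0 < |C| + 1 := by positivity
  obtain ⟨n, hn⟩ := exists_pow_lt_of_lt_one (show 0 < ε / (|C| + 1) by positivity)
    (show (1 / 2 : ℝ) < 1 by norm_num)
  refine ⟨h n, ?_⟩
  have h1 : mass M' (trace P (h n)) ≤ (|C| + 1) * mass M (trace P (h n)) := by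
    rw [mass_eq, mass_eq, Finset.mul_sum]
    refine Finset.sum_le_sum (fun σ _ => (hC σ).trans ?_)
    exact mul_le_mul_of_nonneg_right ((le_abs_self C).trans (by linarith)) (hM.1.nonneg σ)
  calc mass M' (trace P (h n)) ≤ (|C| + 1) * mass M (trace P (h n)) := h1
    _ ≤ (|C| + 1) * (1 / 2) ^ n := mul_le_mul_of_nonneg_left (hh n) hC0.le
    _ ≤ (|C| + 1) * (ε / (|C| + 1)) := mul_le_mul_of_nonneg_left hn.le hC0.le
    _ = ε := by field_simp

end Pool.Agent.H81.SC
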