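import Mathlib
import Pool.Agent.H81.SC.NonNeg

/-!
# The tower scale: classes below the threshold are not negligible
-/

set_option autoImplicit false

namespace Pool.Agent.H81.SC

/-- The tower function: `1, 2, 4, 16, 65536, ...`. -/
def tw : ℕ → ℕ
  | 0 => 1
  | k + 1 => 2 ^ tw k

lemma tw_succ (k : ℕ) : tw (k + 1) = 2 ^ tw k := rfl

lemma tw_lt_succ (k : ℕ) : tw k < tw (k + 1) := by
  rw [tw_succ]
  exact Nat.lt_two_pow_self

lemma tw_strictMono : StrictMono tw := strictMono_nat_of_lt_succ tw_lt_succ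

lemma lt_tw (k : ℕ) : k < tw k := by
  induction k with
  | zero => simp [tw]
  | succ k ih =>
    have := tw_lt_succ k
    omega

lemma tw_pos (k : ℕ) : 0 < tw k := by
  have := lt_tw k
  omega

lemma tw_three : tw 3 = 16 := by
  simp [tw]

lemma primrec_tw : Primrec tw := by
  have h : Primrec (fun k : ℕ => (Nat.rec 1 (fun _ v => 2 ^ v) k : ℕ)) := by
    refine Primrec.nat_rec' (f := fun k : ℕ => k) (g := fun _ : ℕ => 1)
      (h := fun (_ : ℕ) (p : ℕ × ℕ) => 2 ^ p.2) Primrec.id (Primrec.const 1) ?_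
    exact (primrec_pow.comp (Primrec.const 2) (Primrec.snd.comp Primrec.snd))
  refine h.of_eq (fun k => ?_)
  induction k with
  | zero => rfl
  | succ k ih =>
    show _ = 2 ^ tw k
    rw [← ih]

lemma exists_tw (k₀ n : ℕ) (h : tw k₀ ≤ n) : ∃ k, k₀ ≤ k ∧ tw k ≤ n ∧ n < tw (k + 1) := by
  have hex : ∃ k, n < tw (k + 1) := ⟨n, (lt_tw n).trans (tw_lt_succ n)⟩
  refine ⟨max k₀ (Nat.find hex), le_max_left _ _, ?_, ?_⟩
  · rcases le_total k₀ (Nat.find hex) with h1 | h1
    · rw [max_eq_right h1]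
      rcases Nat.eq_zero_or_pos (Nat.find hex) with h2 | h2
      · have h3 : k₀ = 0 := by omega
        rw [h2]
        rw [h3] at h
        exact h
      · obtain ⟨k, hk⟩ := Nat.exists_eq_succ_of_ne_zero h2.ne'
        have h3 := Nat.find_min hex (show k < Nat.find hex by omega)
        rw [hk]
        push Not at h3
        exact h3
    · rw [max_eq_left h1]
      exact h
  · refine (Nat.find_spec hex).trans_le (tw_strictMono.monotone ?_)
    have := le_max_right k₀ (Nat.find hex)
    omega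

/-! ### Numerical facts -/

lemma cube_le_two_pow (x : ℕ) (h : 16 ≤ x) : 16 * x ^ 3 ≤ 2 ^ x := by
  induction x, h using Nat.le_induction with
  | base => norm_num
  | succ x hx ih =>
    rw [pow_succ 2 x]
    have h1 : 3 * x ^ 2 + 3 * x + 1 ≤ x ^ 3 := by
      have h2 : x ^ 2 * 16 ≤ x ^ 2 * x := Nat.mul_le_mul_left _ hx
      have h3 : x * 16 ≤ x * x := Nat.mul_le_mul_left _ hx
      have h4 : x ^ 3 = x ^ 2 * x := by ring
      have h5 : x ^ 2 = x * x := by ring
      omega
    have h6 : (x + 1) ^ 3 = x ^ 3 + (3 * x ^ 2 + 3 * x + 1) := by ring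
    rw [h6]
    omega

lemma summable_inv_tw : Summable (fun k : ℕ => (1 : ℝ) / tw k) := by
  have h1 : ∀ k : ℕ, (1 : ℝ) / tw k ≤ (1 / 2) ^ k := by
    intro k
    have h2 : 2 ^ k ≤ tw k := by
      induction k with
      | zero => simp [tw]
      | succ k ih =>
        rw [tw_succ]
        refine Nat.pow_le_pow_right (by norm_num) ?_
        have := lt_tw k
        omega
    have h3 : (2 : ℝ) ^ k ≤ tw k := by exact_mod_cast h2
    rw [one_div, one_div, inv_pow]
    exact inv_anti₀ (by positivity) h3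
  exact Summable.of_nonneg_of_le (fun k => by positivity) h1
    (summable_geometric_of_lt_one (by norm_num) (by norm_num))

lemma prod_sub_one (m : ℕ → ℕ) (hm : ∀ j, 2 ≤ m j) (hs : Summable (fun j => (1 : ℝ) / m j))
    (hs2 : ∑' j, (1 : ℝ) / m j ≤ 1 / 2) (k : ℕ) :
    (∏ j ∈ Finset.range k, m j) ≤ 2 * ∏ j ∈ Finset.range k, (m j - 1) := by
  have h1 : ∀ k : ℕ, (∏ j ∈ Finset.range k, (m j : ℝ)) *
      (1 - ∑ j ∈ Finset.range k, (1 : ℝ) / m j) ≤ ∏ j ∈ Finset.range k, ((m j : ℝ) - 1) := by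
    intro k
    induction k with
    | zero => simp
    | succ k ih =>
      rw [Finset.prod_range_succ, Finset.sum_range_succ, Finset.prod_range_succ]
      have hmk : (2 : ℝ) ≤ m k := by exact_mod_cast hm k
      have h2 : (∏ j ∈ Finset.range k, (m j : ℝ)) *
          (1 - ∑ j ∈ Finset.range k, (1 : ℝ) / m j) * ((m k : ℝ) - 1) ≤
          (∏ j ∈ Finset.range k, ((m j : ℝ) - 1)) * ((m k : ℝ) - 1) :=
        mul_le_mul_of_nonneg_right ih (by linarith)
      refine le_trans ?_ h2
      have h3 : (m k : ℝ) ≠ 0 := by positivity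
      have h4 : 0 ≤ ∏ j ∈ Finset.range k, (m j : ℝ) :=
        Finset.prod_nonneg (fun j _ => Nat.cast_nonneg _)
      have h5 : 0 ≤ ∑ j ∈ Finset.range k, (1 : ℝ) / m j :=
        Finset.sum_nonneg (fun j _ => by positivity)
      have h6 : (m k : ℝ) * (1 / m k) = 1 := by field_simp
      have h7 : (∏ j ∈ Finset.range k, (m j : ℝ)) * (m k : ℝ) *
          (1 - (∑ j ∈ Finset.range k, (1 : ℝ) / m j + 1 / m k)) =
          (∏ j ∈ Finset.range k, (m j : ℝ)) * ((m k : ℝ) -
          (m k : ℝ) * ∑ j ∈ Finset.range k, (1 : ℝ) / m j - 1) := by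
        rw [mul_assoc]
        congr 1
        have : (m k : ℝ) * (1 - (∑ j ∈ Finset.range k, (1 : ℝ) / m j + 1 / m k)) =
          (m k : ℝ) - (m k : ℝ) * ∑ j ∈ Finset.range k, (1 : ℝ) / m j - (m k : ℝ) * (1 / m k) := by
          ring
        rw [this, h6]
      rw [h7, mul_assoc]
      refine mul_le_mul_of_nonneg_left ?_ h4
      nlinarith
  have h2 := h1 k
  have h3 : ∑ j ∈ Finset.range k, (1 : ℝ) / m j ≤ 1 / 2 :=
    (hs.sum_le_tsum _ (fun j _ => by positivity)).trans hs2
  have h4 : 0 ≤ ∏ j ∈ Finset.range k, (m j : ℝ) :=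
    Finset.prod_nonneg (fun j _ => Nat.cast_nonneg _)
  have h5 : (∏ j ∈ Finset.range k, (m j : ℝ)) ≤ 2 * ∏ j ∈ Finset.range k, ((m j : ℝ) - 1) := by
    nlinarith
  have h6 : ((∏ j ∈ Finset.range k, m j : ℕ) : ℝ) ≤
      ((2 * ∏ j ∈ Finset.range k, (m j - 1) : ℕ) : ℝ) := by
    push_cast
    refine h5.trans (le_of_eq ?_)
    congr 1
    refine Finset.prod_congr rfl (fun j _ => ?_)
    rw [Nat.cast_sub (by have := hm j; omega)]
    simp
  exact_mod_cast h6

/-! ### The sequences -/

section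

variable (b : ℕ → ℕ) (k₀ : ℕ)

/-- the densities: two levels for each step of the tower -/
def mm (j : ℕ) : ℕ := min (b (k₀ + j / 2) / 16) (tw (k₀ + j / 2 - 1))

/-- the number of letters -/
def nn (j : ℕ) : ℕ := if j % 2 = 0 then tw (k₀ + j / 2) ^ 3 else tw (k₀ + j / 2 + 1)

variable {b}

lemma computable_mm (hb : Computable b) : Computable (mm b k₀) := by
  have h1 : Primrec (fun j : ℕ => k₀ + j / 2) :=
    Primrec.nat_add.comp (Primrec.const k₀) (Primrec.nat_div.comp Primrec.id (Primrec.const 2))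
  have h2 : Computable (fun j : ℕ => b (k₀ + j / 2)) := hb.comp h1.to_comp
  have h3 : Primrec (fun j : ℕ => tw (k₀ + j / 2 - 1)) :=
    primrec_tw.comp (Primrec.nat_sub.comp h1 (Primrec.const 1))
  have h4 : Primrec (fun z : ℕ × ℕ => min (z.1 / 16) z.2) :=
    Primrec.nat_min.comp (Primrec.nat_div.comp Primrec.fst (Primrec.const 16)) Primrec.snd
  exact h4.to_comp.comp (h2.pair h3.to_comp)

lemma computable_nn : Computable (nn k₀) := by
  have h1 : Primrec (fun j : ℕ => k₀ + j / 2) :=
    Primrec.nat_add.comp (Primrec.const k₀) (Primrec.nat_div.comp Primrec.id (Primrec.const 2))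
  refine Primrec.to_comp (Primrec.ite ?_ ?_ ?_)
  · exact Primrec.eq.comp (Primrec.nat_mod.comp Primrec.id (Primrec.const 2)) (Primrec.const 0)
  · exact primrec_pow.comp (primrec_tw.comp h1) (Primrec.const 3)
  · exact primrec_tw.comp (Primrec.nat_add.comp h1 (Primrec.const 1))

/-- products of the densities -/
lemma prod_mm (hk₀ : 4 ≤ k₀) (i : ℕ) :
    (∏ j ∈ Finset.range (2 * i + 2), mm b k₀ j) ≤ tw (k₀ + i) := by
  induction i with
  | zero =>
    have h1 : ∏ j ∈ Finset.range (2 * 0 + 2), mm b k₀ j = mm b k₀ 0 * mm b k₀ 1 := by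
      simp [Finset.prod_range_succ]
    rw [h1]
    have h2 : mm b k₀ 0 ≤ tw (k₀ - 1) := min_le_right _ _
    have h3 : mm b k₀ 1 ≤ tw (k₀ - 1) := min_le_right _ _
    have h4 : 16 ≤ tw (k₀ - 1) := by
      rw [← tw_three]
      exact tw_strictMono.monotone (by omega)
    have h5 := cube_le_two_pow _ h4
    have h6 : tw (k₀ + 0) = 2 ^ tw (k₀ - 1) := by
      rw [← tw_succ]
      congr 1
      omega
    rw [h6]
    calc mm b k₀ 0 * mm b k₀ 1 ≤ tw (k₀ - 1) * tw (k₀ - 1) := Nat.mul_le_mul h2 h3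
      _ ≤ 16 * tw (k₀ - 1) ^ 3 := by nlinarith
      _ ≤ _ := h5
  | succ i ih =>
    have h1 : ∏ j ∈ Finset.range (2 * (i + 1) + 2), mm b k₀ j =
        (∏ j ∈ Finset.range (2 * i + 2), mm b k₀ j) * mm b k₀ (2 * i + 2) *
          mm b k₀ (2 * i + 3) := by
      rw [show 2 * (i + 1) + 2 = 2 * i + 2 + 1 + 1 by ring, Finset.prod_range_succ,
        Finset.prod_range_succ]
    rw [h1]
    have h2 : mm b k₀ (2 * i + 2) ≤ tw (k₀ + i) := by
      refine (min_le_right _ _).trans (le_of_eq ?_)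
      congr 1
      omega
    have h3 : mm b k₀ (2 * i + 3) ≤ tw (k₀ + i) := by
      refine (min_le_right _ _).trans (le_of_eq ?_)
      congr 1
      omega
    have h4 : 16 ≤ tw (k₀ + i) := by
      rw [← tw_three]
      exact tw_strictMono.monotone (by omega)
    have h5 := cube_le_two_pow _ h4
    rw [show k₀ + (i + 1) = k₀ + i + 1 by ring, tw_succ]
    calc (∏ j ∈ Finset.range (2 * i + 2), mm b k₀ j) * mm b k₀ (2 * i + 2) *
          mm b k₀ (2 * i + 3) ≤ tw (k₀ + i) * tw (k₀ + i) * tw (k₀ + i) :=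
          Nat.mul_le_mul (Nat.mul_le_mul ih h2) h3
      _ ≤ 16 * tw (k₀ + i) ^ 3 := by
          have : tw (k₀ + i) * tw (k₀ + i) * tw (k₀ + i) = tw (k₀ + i) ^ 3 := by ring
          omega
      _ ≤ _ := h5

end

/-- Below the threshold the classes are not negligible. -/
theorem not_negligible_tower {b : ℕ → ℕ} (hb : Computable b) (hb1 : ∀ k, 1 ≤ b k)
    (hs : Summable (fun k => (1 : ℝ) / b k)) {f : ℕ → ℝ}
    (hf : ∃ k₁, ∀ k, k₁ ≤ k → ∀ n, tw k ≤ n → n < tw (k + 1) → f n * b k ≤ n)
    {U : Str →. Str} (hU : IsUniversalMachine U) :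
    ∃ c₀ : ℕ, ∀ c, c₀ ≤ c → ¬ IsNegligible (ShiftComplex U f c) := by
  classical
  obtain ⟨k₁, hf⟩ := hf
  -- choice of `k₀`
  set g : ℕ → ℝ := fun k => 32 / (b k : ℝ) + 1 / (tw (k - 1) : ℝ) with hg
  have hgs : Summable g := by
    refine Summable.add ?_ ?_
    · exact (hs.mul_left 32).congr (fun k => by ring)
    · have h1 : Summable (fun k : ℕ => (1 : ℝ) / tw (k + 1 - 1)) := by
        simpa using summable_inv_tw
      exact (summable_nat_add_iff (f := fun k : ℕ => (1 : ℝ) / tw (k - 1)) 1).1 h1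
  have hg0 : ∀ k, 0 ≤ g k := fun k => by simp only [hg]; positivity
  obtain ⟨k₂, hk₂⟩ : ∃ k₂, ∀ k, k₂ ≤ k → ∑' i, g (i + k) < 1 / 4 := by
    have h1 := tendsto_sum_nat_add g
    have h2 := h1.eventually (gt_mem_nhds (show (0 : ℝ) < 1 / 4 by norm_num))
    exact Filter.eventually_atTop.1 h2
  set k₀ : ℕ := max k₁ (max k₂ 4) with hk₀
  have hk₁' : k₁ ≤ k₀ := le_max_left _ _
  have hk₂' : k₂ ≤ k₀ := (le_max_left _ _).trans (le_max_right _ _)
  have hk4 : 4 ≤ k₀ := (le_max_right _ _).trans (le_max_right _ _)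
  have hg4 := hk₂ k₀ hk₂'
  have hsum4 : Summable (fun i => g (i + k₀)) := (summable_nat_add_iff k₀).2 hgs
  have hgi : ∀ i, g (k₀ + i) < 1 / 4 := by
    intro i
    have h1 := hsum4.le_tsum i (fun j _ => hg0 _)
    rw [Nat.add_comm k₀ i]
    linarith
  -- the numbers `b k` are large
  have hb32 : ∀ i, 128 ≤ b (k₀ + i) := by
    intro i
    have h1 := hgi i
    simp only [hg] at h1
    have h2 : (0 : ℝ) ≤ 1 / (tw (k₀ + i - 1) : ℝ) := by positivity
    have h3 : (0 : ℝ) < b (k₀ + i) := by exact_mod_cast hb1 _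
    have h4 : 32 / (b (k₀ + i) : ℝ) < 1 / 4 := by linarith
    rw [div_lt_iff₀ h3] at h4
    have h5 : (128 : ℝ) < b (k₀ + i) := by linarith
    have h6 : 128 < b (k₀ + i) := by exact_mod_cast h5
    omega
  have htw16 : ∀ i, 16 ≤ tw (k₀ + i - 1) := by
    intro i
    rw [← tw_three]
    exact tw_strictMono.monotone (by omega)
  have hm2 : ∀ j, 2 ≤ mm b k₀ j := by
    intro j
    have h1 := hb32 (j / 2)
    have h2 := htw16 (j / 2)
    unfold mm
    exact le_min (by omega) (by omega)
  have hmg : ∀ j, (1 : ℝ) / mm b k₀ j ≤ g (k₀ + j / 2) := by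
    intro j
    have h1 := hb32 (j / 2)
    have h2 := htw16 (j / 2)
    simp only [hg]
    unfold mm
    rcases le_total (b (k₀ + j / 2) / 16) (tw (k₀ + j / 2 - 1)) with h | h
    · rw [min_eq_left h]
      have h3 : b (k₀ + j / 2) ≤ 32 * (b (k₀ + j / 2) / 16) := by omega
      have h4 : (b (k₀ + j / 2) : ℝ) ≤ 32 * ((b (k₀ + j / 2) / 16 : ℕ) : ℝ) := by
        exact_mod_cast h3
      have h5 : (0 : ℝ) < b (k₀ + j / 2) := by exact_mod_cast hb1 _
      have h6 : (0 : ℝ) < ((b (k₀ + j / 2) / 16 : ℕ) : ℝ) := by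
        have : 0 < b (k₀ + j / 2) / 16 := by omega
        exact_mod_cast this
      have h7 : (1 : ℝ) / ((b (k₀ + j / 2) / 16 : ℕ) : ℝ) ≤ 32 / (b (k₀ + j / 2) : ℝ) := by
        rw [div_le_div_iff₀ h6 h5]
        linarith
      have h8 : (0 : ℝ) ≤ 1 / (tw (k₀ + j / 2 - 1) : ℝ) := by positivity
      linarith
    · rw [min_eq_right h]
      have h8 : (0 : ℝ) ≤ 32 / (b (k₀ + j / 2) : ℝ) := by positivity
      linarith
  have hsm : Summable (fun j => (1 : ℝ) / mm b k₀ j) ∧ ∑' j, (1 : ℝ) / mm b k₀ j ≤ 1 / 2 := by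
    have h1 : ∀ J : ℕ, ∑ j ∈ Finset.range J, (1 : ℝ) / mm b k₀ j ≤ 1 / 2 := by
      intro J
      have h2 : ∀ i : ℕ, ∑ j ∈ Finset.range (2 * i), (1 : ℝ) / mm b k₀ j ≤
          2 * ∑ j ∈ Finset.range i, g (j + k₀) := by
        intro i
        induction i with
        | zero => simp
        | succ i ih =>
          rw [show 2 * (i + 1) = 2 * i + 1 + 1 by ring, Finset.sum_range_succ,
            Finset.sum_range_succ, Finset.sum_range_succ]
          have h3 := hmg (2 * i)
          have h4 := hmg (2 * i + 1)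
          rw [show 2 * i / 2 = i by omega] at h3
          rw [show (2 * i + 1) / 2 = i by omega] at h4
          rw [Nat.add_comm i k₀]
          linarith
      have h3 : ∑ j ∈ Finset.range J, (1 : ℝ) / mm b k₀ j ≤
          ∑ j ∈ Finset.range (2 * J), (1 : ℝ) / mm b k₀ j := by
        refine Finset.sum_le_sum_of_subset_of_nonneg ?_ (fun j _ _ => by positivity)
        exact Finset.range_mono (by omega)
      have h4 := hsum4.sum_le_tsum (Finset.range J) (fun j _ => hg0 _)
      have h5 := h2 J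
      linarith
    exact ⟨summable_of_sum_range_le (fun j => by positivity) h1,
      Real.tsum_le_of_sum_range_le (fun j => by positivity) h1⟩
  refine not_negligible_of (computable_mm k₀ hb) (computable_nn k₀) hm2 ?_
    (prod_sub_one _ hm2 hsm.1 hsm.2) (tw k₀) ?_ hU
  · intro j
    unfold nn
    split_ifs
    · exact Nat.one_le_pow _ _ (tw_pos _)
    · exact tw_pos _
  · intro n hn
    obtain ⟨k, hk, hkn, hnk⟩ := exists_tw k₀ n hn
    obtain ⟨i, rfl⟩ := Nat.exists_eq_add_of_le hk
    have hfn := hf (k₀ + i) (hk₁'.trans hk) n hkn hnk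
    -- parameters
    set x : ℕ := tw (k₀ + i - 1) with hx
    have hx16 : 16 ≤ x := htw16 i
    have htk : tw (k₀ + i) = 2 ^ x := by
      rw [hx, ← tw_succ]
      congr 1
      omega
    have hcube := cube_le_two_pow x hx16
    have hix : 2 * i + 1 ≤ 2 * x := by
      have := lt_tw (k₀ + i - 1)
      omega
    set μ : ℕ := min (b (k₀ + i) / 16) x with hμ
    have hμ2 : 2 ≤ μ := by
      have h1 := hb32 i
      rw [hμ]
      exact le_min (by omega) (by omega)
    have hμx : μ ≤ x := min_le_right _ _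
    have hμb : 16 * μ ≤ b (k₀ + i) := by
      have : μ ≤ b (k₀ + i) / 16 := min_le_left _ _
      omega
    have hm0 : mm b k₀ (2 * i) = μ := by
      unfold mm
      rw [show 2 * i / 2 = i by omega]
    have hm1 : mm b k₀ (2 * i + 1) = μ := by
      unfold mm
      rw [show (2 * i + 1) / 2 = i by omega]
    -- the integer `F`
    set F : ℕ := n / (16 * μ) + 1 with hF
    have hfF : f n ≤ F := by
      rcases le_or_gt (f n) 0 with h0 | h0
      · exact h0.trans (Nat.cast_nonneg _)
      have h1 : f n * (16 * μ : ℕ) ≤ n := by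
        refine le_trans (mul_le_mul_of_nonneg_left ?_ h0.le) hfn
        exact_mod_cast hμb
      have h2 : (0 : ℝ) < (16 * μ : ℕ) := by
        have : 0 < 16 * μ := by omega
        exact_mod_cast this
      have h3 : f n ≤ (n : ℝ) / (16 * μ : ℕ) := by
        rw [le_div_iff₀ h2]
        exact h1
      have h4 : (n : ℝ) / (16 * μ : ℕ) ≤ F := by
        rw [div_le_iff₀ h2, hF]
        have h5 := Nat.lt_div_mul_add (a := n) (show 0 < 16 * μ by omega)
        have h6 : n ≤ (n / (16 * μ) + 1) * (16 * μ) := by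
          rw [Nat.add_mul, Nat.one_mul]
          exact h5.le
        exact_mod_cast h6
      exact h3.trans h4
    -- the number of letters in a window
    have hDex : ∀ j, j ≤ 2 * x → 2 ^ x ≤ n → ∃ D, 2 * (μ * D + j) ≤ n ∧ D ≤ n ∧
        n ≤ 2 * μ * (D + 1) + 2 * j := by
      intro j hj hn2
      refine ⟨(n / 2 - j) / μ, ?_, ?_, ?_⟩
      · have h1 : μ * ((n / 2 - j) / μ) ≤ n / 2 - j := Nat.mul_div_le _ _
        have h2 : j ≤ n / 2 := by
          have h3 : x ≤ x ^ 3 := Nat.le_self_pow (by norm_num) x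
          omega
        omega
      · exact (Nat.div_le_self _ _).trans (by omega)
      · have h1 := Nat.lt_div_mul_add (a := n / 2 - j) (show 0 < μ by omega)
        have h3 : 2 * μ * ((n / 2 - j) / μ + 1) = 2 * ((n / 2 - j) / μ * μ + μ) := by ring
        rw [h3]
        generalize (n / 2 - j) / μ * μ = z at h1 ⊢
        omega
    have hn2 : 2 ^ x ≤ n := by rw [← htk]; exact hkn
    have hFb : (16 * μ) * F ≤ n + 16 * μ := by
      rw [hF, Nat.mul_add, Nat.mul_one]
      exact Nat.add_le_add_right (Nat.mul_div_le _ _) _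
    rcases Nat.lt_or_ge n (tw (k₀ + i) ^ 3) with hcase | hcase
    · -- first level
      obtain ⟨D, hD1, hD2, hD3⟩ := hDex (2 * i) (by omega) hn2
      refine ⟨2 * i, D, F, hfF, by rw [hm0]; exact hD1, ?_, ?_⟩
      · unfold nn
        rw [if_pos (by omega), show 2 * i / 2 = i by omega]
        omega
      · have h1 : per (mm b k₀) (nn k₀) (2 * i) ≤ 2 ^ (4 * x) := by
          unfold per
          have h2 : nn k₀ (2 * i) = tw (k₀ + i) ^ 3 := by
            unfold nn
            rw [if_pos (by omega), show 2 * i / 2 = i by omega]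
          have h3 : (∏ j ∈ Finset.range (2 * i + 1), mm b k₀ j) ≤ tw (k₀ + i) := by
            refine le_trans ?_ (prod_mm k₀ hk4 i (b := b))
            rw [show 2 * i + 2 = 2 * i + 1 + 1 by ring, Finset.prod_range_succ _ (2 * i + 1)]
            exact Nat.le_mul_of_pos_right _ (lt_of_lt_of_le Nat.zero_lt_two (hm2 (2 * i + 1)))
          rw [h2]
          calc tw (k₀ + i) ^ 3 * ∏ j ∈ Finset.range (2 * i + 1), mm b k₀ j
              ≤ tw (k₀ + i) ^ 3 * tw (k₀ + i) := Nat.mul_le_mul_left _ h3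
            _ = 2 ^ (4 * x) := by rw [htk]; ring
        refine (Nat.mul_le_mul_right _ h1).trans ?_
        rw [← pow_add]
        refine Nat.pow_le_pow_right (by norm_num) ?_
        -- `4 x + F ≤ D`
        by_contra hcon
        push Not at hcon
        have h4 : 16 * μ * (D + 1) ≤ 16 * μ * (4 * x + F) := Nat.mul_le_mul_left _ hcon
        have h5 : 8 * n ≤ 16 * μ * (D + 1) + 16 * (2 * i) := by nlinarith
        have h6 : 16 * μ * (4 * x + F) = 64 * μ * x + 16 * μ * F := by ring
        have h7 : 7 * n ≤ 64 * μ * x + 16 * μ + 32 * i := by linarith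
        have h8 : μ * x ≤ x * x := Nat.mul_le_mul_right _ hμx
        have h9 : 7 * 2 ^ x ≤ 64 * (x * x) + 16 * x + 32 * x := by
          have h10 : 64 * μ * x ≤ 64 * (x * x) := by nlinarith
          omega
        have h11 : 7 * (16 * x ^ 3) ≤ 64 * (x * x) + 48 * x := by omega
        have h12 : x ^ 3 = x * x * x := by ring
        rw [h12] at h11
        nlinarith [Nat.mul_le_mul_left (x * x) hx16, Nat.mul_le_mul_left x hx16]
    · -- second level
      obtain ⟨D, hD1, hD2, hD3⟩ := hDex (2 * i + 1) (by omega) hn2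
      refine ⟨2 * i + 1, D, F, hfF, by rw [hm1]; exact hD1, ?_, ?_⟩
      · unfold nn
        rw [if_neg (by omega), show (2 * i + 1) / 2 = i by omega]
        omega
      · have h1 : per (mm b k₀) (nn k₀) (2 * i + 1) ≤ 2 ^ (2 ^ x + x) := by
          unfold per
          have h2 : nn k₀ (2 * i + 1) = tw (k₀ + i + 1) := by
            unfold nn
            rw [if_neg (by omega), show (2 * i + 1) / 2 = i by omega]
          rw [h2, pow_add, tw_succ, htk]
          refine Nat.mul_le_mul_left _ ?_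
          rw [← htk]
          exact prod_mm k₀ hk4 i
        refine (Nat.mul_le_mul_right _ h1).trans ?_
        rw [← pow_add]
        refine Nat.pow_le_pow_right (by norm_num) ?_
        by_contra hcon
        push Not at hcon
        have h4 : 16 * μ * (D + 1) ≤ 16 * μ * (2 ^ x + x + F) := Nat.mul_le_mul_left _ hcon
        have h5 : 8 * n ≤ 16 * μ * (D + 1) + 16 * (2 * i + 1) := by nlinarith
        have h6 : 16 * μ * (2 ^ x + x + F) = 16 * (μ * (2 ^ x + x)) + 16 * μ * F := by ring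
        have h7 : 7 * n ≤ 16 * (μ * (2 ^ x + x)) + 16 * μ + 16 * (2 * i + 1) := by linarith
        have hxx : x ≤ 2 ^ x := Nat.lt_two_pow_self.le
        have h8 : μ * (2 ^ x + x) ≤ x * (2 ^ x + 2 ^ x) :=
          Nat.mul_le_mul hμx (Nat.add_le_add_left hxx _)
        have h9 : (2 ^ x) ^ 3 ≤ n := by rw [← htk]; exact hcase
        set y : ℕ := 2 ^ x with hy
        have hy16 : 16 * x ≤ y := by
          have h3 : x ≤ x ^ 3 := Nat.le_self_pow (by norm_num) x
          omega
        have h10 : 7 * y ^ 3 ≤ 32 * (x * y) + 48 * x := by nlinarith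
        have h11 : y ^ 3 = y * y * y := by ring
        rw [h11] at h10
        have h12 : 1 ≤ y := by omega
        nlinarith [Nat.mul_le_mul_left (y * y) hy16, Nat.mul_le_mul_left y hy16,
          Nat.mul_le_mul_left (x * y) h12]

end Pool.Agent.H81.SC
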