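import Mathlib
import Pool.Agent.H81.SC.Tower

/-!
# Combinatorial core of the general game, scales `tw k`, arbitrary table `W` of weights

`W.getD k 0` is the number of bits of the choice at level `k`; the value `0` means that the level
is not used.
-/

set_option autoImplicit false

namespace Pool.Agent.H81.SC.G

open Pool.Agent.H81.SC

/-- the weight of level `k` -/
def wt (W : List ℕ) (k : ℕ) : ℕ := W.getD k 0

/-- the quotient of consecutive scales -/
def qt (k : ℕ) : ℕ := tw (k + 1) / tw k

/-- exponents bounding the number of poor strings -/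
def al (W : List ℕ) : ℕ → ℕ
  | 0 => 1
  | k + 1 => if wt W k = 0 then al W k * qt k else
      al W k * 2 ^ (al W k - wt W k) + (al W k - wt W k) * qt k

/-- the exponent of the richness threshold -/
def be (W : List ℕ) (k : ℕ) : ℕ := al W k - wt W k

lemma al_zero (W : List ℕ) : al W 0 = 1 := rfl

lemma al_succ (W : List ℕ) (k : ℕ) : al W (k + 1) = if wt W k = 0 then al W k * qt k else
      al W k * 2 ^ be W k + be W k * qt k := rfl

lemma tw_dvd (k : ℕ) : tw k ∣ tw (k + 1) := by
  cases k with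
  | zero => exact ⟨2, by simp [tw]⟩
  | succ k => exact pow_dvd_pow 2 (tw_lt_succ k).le

lemma tw_mul_qt (k : ℕ) : tw (k + 1) = tw k * qt k := (Nat.mul_div_cancel' (tw_dvd k)).symm

lemma qt_pos (k : ℕ) : 0 < qt k := by
  rcases Nat.eq_zero_or_pos (qt k) with h | h
  · have h1 := tw_mul_qt k
    rw [h, Nat.mul_zero] at h1
    have := tw_pos (k + 1)
    omega
  · exact h

/-- Poor strings at level `k`. -/
def Poor (W : List ℕ) : ℕ → Str → Prop
  | 0 => fun ρ => ρ.length = tw 0
  | k + 1 => fun ρ => ρ.length = tw (k + 1) ∧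
      (∀ τ : Str, τ <:+: ρ → τ.length = tw k → Poor W k τ) ∧
      (wt W k ≠ 0 → {τ : Str | τ <:+: ρ ∧ τ.length = tw k}.ncard < 2 ^ be W k)

lemma Poor.length {W : List ℕ} {k : ℕ} {ρ : Str} (h : Poor W k ρ) : ρ.length = tw k := by
  cases k with
  | zero => exact h
  | succ i => exact h.1

lemma poor_finite (W : List ℕ) (k : ℕ) : {ρ | Poor W k ρ}.Finite :=
  (finite_length (tw k)).subset (fun _ h => h.length)

/-- the number of poor strings -/
lemma poor_card (W : List ℕ) (k : ℕ) : {ρ | Poor W k ρ}.ncard ≤ 2 ^ al W k := by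
  induction k with
  | zero =>
    have h1 : {ρ | Poor W 0 ρ} = {ρ : Str | ρ.length = tw 0} := rfl
    rw [h1, ncard_length, al_zero]
    simp [tw]
  | succ k ih =>
    set P : Set Str := {ρ | Poor W k ρ} with hP
    set q : ℕ := qt k with hq
    have hPfin : P.Finite := poor_finite W k
    have hfinP : Finite P := hPfin
    have hqpos : 0 < q := qt_pos k
    rw [al_succ]
    by_cases h0 : wt W k = 0
    · -- useless level
      rw [if_pos h0]
      let F : (Fin q → P) → Str := fun x => (List.ofFn (fun j => (x j : Str))).flatten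
      have hsub : {ρ | Poor W (k + 1) ρ} ⊆ F '' Set.univ := by
        rintro ρ ⟨h1, h2, -⟩
        have hlen : ρ.length = tw k * q := by rw [h1, tw_mul_qt]
        obtain ⟨g, hg1, hg2⟩ := exists_blocks (tw k) q ρ hlen
        exact ⟨fun j => ⟨g j, h2 _ (hg1 j).2 (hg1 j).1⟩, Set.mem_univ _, hg2.symm⟩
      calc {ρ | Poor W (k + 1) ρ}.ncard ≤ (F '' Set.univ).ncard :=
            Set.ncard_le_ncard hsub (Set.toFinite _)
        _ ≤ (Set.univ : Set (Fin q → P)).ncard := Set.ncard_image_le (Set.toFinite _)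
        _ = P.ncard ^ q := by
            rw [Set.ncard_univ, Nat.card_fun]
            simp [Nat.card_coe_set_eq]
        _ ≤ (2 ^ al W k) ^ q := Nat.pow_le_pow_left ih q
        _ = _ := by rw [← pow_mul]
    · rw [if_neg h0]
      set b : ℕ := 2 ^ be W k with hb
      let F : (Fin b → P) × (Fin q → Fin b) → Str := fun x =>
        (List.ofFn (fun j => (x.1 (x.2 j) : Str))).flatten
      have hsub : {ρ | Poor W (k + 1) ρ} ⊆ F '' Set.univ := by
        rintro ρ ⟨h1, h2, h3⟩
        have h3 := h3 h0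
        have hlen : ρ.length = tw k * q := by rw [h1, tw_mul_qt]
        obtain ⟨g, hg1, hg2⟩ := exists_blocks (tw k) q ρ hlen
        set A : Set Str := {τ : Str | τ <:+: ρ ∧ τ.length = tw k} with hA
        have hAfin : A.Finite := (finite_length (tw k)).subset (fun _ h => h.2)
        have hgA : ∀ j, g j ∈ A := fun j => ⟨(hg1 j).2, (hg1 j).1⟩
        have hAP : A ⊆ P := fun τ hτ => h2 τ hτ.1 hτ.2
        -- enumerate `A`
        have : Finite A := hAfin
        obtain ⟨n, ⟨e⟩⟩ := Finite.exists_equiv_fin A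
        have hn : n < b := by
          have : A.ncard = n := by
            rw [← Nat.card_coe_set_eq]
            rw [Nat.card_congr e]
            simp
          rw [← this]
          exact h3
        have a0 : A := ⟨g ⟨0, hqpos⟩, hgA _⟩
        let e' : Fin b → P := fun j => if h : j.1 < n then
          ⟨(e.symm ⟨j.1, h⟩ : A), hAP (e.symm ⟨j.1, h⟩).2⟩ else ⟨a0, hAP a0.2⟩
        let g' : Fin q → Fin b := fun j => ⟨(e ⟨g j, hgA j⟩).1, lt_trans (e ⟨g j, hgA j⟩).2 hn⟩
        refine ⟨(e', g'), Set.mem_univ _, ?_⟩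
        have h4 : ∀ j, ((e' (g' j) : P) : Str) = g j := by
          intro j
          have h5 : ((e ⟨g j, hgA j⟩).1) < n := (e ⟨g j, hgA j⟩).2
          simp only [e', g', dif_pos h5]
          simp
        show (List.ofFn (fun j => ((e' (g' j) : P) : Str))).flatten = ρ
        rw [funext h4, ← hg2]
      have h5 : {ρ | Poor W (k + 1) ρ}.ncard ≤ P.ncard ^ b * b ^ q := by
        calc {ρ | Poor W (k + 1) ρ}.ncard ≤ (F '' Set.univ).ncard :=
              Set.ncard_le_ncard hsub (Set.toFinite _)
          _ ≤ (Set.univ : Set ((Fin b → P) × (Fin q → Fin b))).ncard :=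
              Set.ncard_image_le (Set.toFinite _)
          _ = P.ncard ^ b * b ^ q := by
              rw [Set.ncard_univ, Nat.card_prod, Nat.card_fun, Nat.card_fun]
              simp [Nat.card_coe_set_eq]
      calc {ρ | Poor W (k + 1) ρ}.ncard ≤ P.ncard ^ b * b ^ q := h5
        _ ≤ (2 ^ al W k) ^ b * b ^ q := Nat.mul_le_mul_right _ (Nat.pow_le_pow_left ih b)
        _ = _ := by
            rw [hb, ← pow_mul, ← pow_mul, ← pow_add]

/-- the poor blocks of level `k` of a string -/
def poorBlocks (W : List ℕ) (k : ℕ) (σ : Str) : Set Str := {τ | Poor W k τ ∧ τ <:+: σ}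

/-- a table is good if its last level is used and finishes the game -/
def Good (W : List ℕ) : Prop := wt W (W.length - 1) ≠ 0 ∧ al W (W.length - 1) ≤ wt W (W.length - 1)

lemma Good.pos {W : List ℕ} (h : Good W) : 0 < W.length := by
  rcases Nat.eq_zero_or_pos W.length with h1 | h1
  · exfalso
    apply h.1
    unfold wt
    rw [List.getD_eq_default]
    omega
  · exact h1

/-- the length of the strings of the game -/
def N0 (W : List ℕ) : ℕ := tw (W.length - 1)

/-- Every string of length `N0 W` is rich at some level. -/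
lemma exists_rich {W : List ℕ} (hW : Good W) (σ : Str) (hσ : σ.length = N0 W) :
    ∃ k, k < W.length ∧ wt W k ≠ 0 ∧ 2 ^ be W k ≤ (poorBlocks W k σ).ncard := by
  by_contra hcon
  push Not at hcon
  have hpos := hW.pos
  have hfin : ∀ i, (poorBlocks W i σ).Finite := fun i =>
    (poor_finite W i).subset (fun _ h => h.1)
  have key : ∀ i, i < W.length → ∀ τ : Str, τ <:+: σ → τ.length = tw i → Poor W i τ := by
    intro i
    induction i with
    | zero => exact fun _ τ _ h => h
    | succ i ih =>
      intro hi τ hτ hlen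
      refine ⟨hlen, fun ρ hρ hρl => ih (by omega) ρ (hρ.trans hτ) hρl, fun h0 => ?_⟩
      refine lt_of_le_of_lt (Set.ncard_le_ncard ?_ (hfin i)) (hcon i (by omega) h0)
      rintro ρ ⟨h1, h2⟩
      exact ⟨ih (by omega) ρ (h1.trans hτ) h2, h1.trans hτ⟩
  have h1 : Poor W (W.length - 1) σ := key _ (by omega) σ List.infix_rfl hσ
  have h2 := hcon (W.length - 1) (by omega) hW.1
  have h3 : be W (W.length - 1) = 0 := by
    unfold be
    have := hW.2
    omega
  rw [h3, pow_zero, Nat.lt_one_iff, Set.ncard_eq_zero (hfin _)] at h2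
  have h4 : σ ∈ poorBlocks W (W.length - 1) σ := ⟨h1, List.infix_rfl⟩
  rw [h2] at h4
  exact h4

/-- Main combinatorial lemma. -/
theorem exists_move {W : List ℕ} (hW : Good W) (A : Finset Str)
    (hA : ∀ σ ∈ A, σ.length = N0 W) (w : Str → ℝ) (hw : ∀ σ, 0 ≤ w σ) :
    ∃ k, k < W.length ∧ wt W k ≠ 0 ∧ ∃ E : List Str, E.length = 2 ^ wt W k ∧
      (∀ τ ∈ E, τ.length = tw k) ∧ ∀ S : Finset Str, (∀ σ ∈ A, Hits E σ → σ ∈ S) →
        (∑ σ ∈ A, w σ) ≤ (2 ^ (k + 2) : ℝ) * ∑ σ ∈ S, w σ := by
  classical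
  -- the parts of `A`
  let T : ℕ → Finset Str := fun i => A.filter
    (fun σ => wt W i ≠ 0 ∧ 2 ^ be W i ≤ (poorBlocks W i σ).ncard)
  have h1 : (∑ σ ∈ A, w σ) ≤ ∑ i ∈ Finset.range W.length, ∑ σ ∈ T i, w σ := by
    calc (∑ σ ∈ A, w σ) ≤ ∑ σ ∈ A, ∑ i ∈ Finset.range W.length,
          (if wt W i ≠ 0 ∧ 2 ^ be W i ≤ (poorBlocks W i σ).ncard then w σ else 0) := by
          refine Finset.sum_le_sum (fun σ hσ => ?_)
          obtain ⟨i, hi, hi0, hi2⟩ := exists_rich hW σ (hA σ hσ)
          have h2 := Finset.single_le_sum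
            (f := fun i => if wt W i ≠ 0 ∧ 2 ^ be W i ≤ (poorBlocks W i σ).ncard then w σ else 0)
            (s := Finset.range W.length) (fun j _ => by
              show 0 ≤ if wt W j ≠ 0 ∧ 2 ^ be W j ≤ (poorBlocks W j σ).ncard then w σ else 0
              split_ifs
              · exact hw σ
              · exact le_rfl) (Finset.mem_range.2 hi)
          refine le_trans ?_ h2
          simp [hi0, hi2]
      _ = ∑ i ∈ Finset.range W.length, ∑ σ ∈ A,
          (if wt W i ≠ 0 ∧ 2 ^ be W i ≤ (poorBlocks W i σ).ncard then w σ else 0) :=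
          Finset.sum_comm
      _ = _ := by
          refine Finset.sum_congr rfl (fun i _ => ?_)
          rw [Finset.sum_filter]
  have hT0 : ∀ i, 0 ≤ ∑ σ ∈ T i, w σ := fun i => Finset.sum_nonneg (fun σ _ => hw σ)
  have hA0 : 0 ≤ ∑ σ ∈ A, w σ := Finset.sum_nonneg (fun σ _ => hw σ)
  -- a level carrying much weight
  obtain ⟨i, hi, hi0, hi2⟩ : ∃ i, i < W.length ∧ wt W i ≠ 0 ∧
      (∑ σ ∈ A, w σ) ≤ (2 ^ (i + 1) : ℝ) * ∑ σ ∈ T i, w σ := by
    by_contra hcon
    push Not at hcon
    have hpos := hW.pos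
    have h2 : ∀ i ∈ Finset.range W.length, ∑ σ ∈ T i, w σ ≤
        (1 / 2) ^ (i + 1) * ∑ σ ∈ A, w σ := by
      intro i hi
      by_cases h0 : wt W i = 0
      · have h3 : T i = ∅ := by
          rw [Finset.eq_empty_iff_forall_notMem]
          intro σ hσ
          exact (Finset.mem_filter.1 hσ).2.1 h0
        rw [h3, Finset.sum_empty]
        positivity
      · have h3 := (hcon i (Finset.mem_range.1 hi) h0).le
        have h4 : (1 / 2 : ℝ) ^ (i + 1) * 2 ^ (i + 1) = 1 := by
          rw [← mul_pow]; norm_num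
        calc ∑ σ ∈ T i, w σ = (1 / 2 : ℝ) ^ (i + 1) * (2 ^ (i + 1) * ∑ σ ∈ T i, w σ) := by
              rw [← mul_assoc, h4, one_mul]
          _ ≤ _ := mul_le_mul_of_nonneg_left h3 (by positivity)
    have h3 := Finset.sum_le_sum h2
    rw [← Finset.sum_mul] at h3
    have h4 : ∑ i ∈ Finset.range W.length, (1 / 2 : ℝ) ^ (i + 1) < 1 := by
      have h5 : ∀ n : ℕ, ∑ i ∈ Finset.range n, (1 / 2 : ℝ) ^ (i + 1) = 1 - (1 / 2) ^ n := by
        intro n
        induction n with
        | zero => simp
        | succ n ih => rw [Finset.sum_range_succ, ih, pow_succ]; ring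
      rw [h5]
      have : (0 : ℝ) < (1 / 2) ^ W.length := by positivity
      linarith
    -- so the weight is zero
    have h5 : ∑ σ ∈ A, w σ ≤ 0 := by
      by_contra h6
      push Not at h6
      have h7 := h1.trans h3
      nlinarith
    have h6 : ∑ σ ∈ A, w σ = 0 := le_antisymm h5 hA0
    have h7 := hcon (W.length - 1) (by omega) hW.1
    rw [h6] at h7
    have h8 := mul_nonneg (show (0 : ℝ) ≤ 2 ^ (W.length - 1 + 1) by positivity)
      (hT0 (W.length - 1))
    linarith
  refine ⟨i, hi, hi0, ?_⟩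
  set P : Finset Str := (poor_finite W i).toFinset with hP
  by_cases hPne : P.Nonempty
  · have hfin : ∀ σ, (poorBlocks W i σ).Finite := fun σ =>
      (poor_finite W i).subset (fun _ h => h.1)
    have hcard : P.card ≤ 2 ^ wt W i * 2 ^ be W i := by
      have h2 : P.card = {ρ | Poor W i ρ}.ncard := by
        rw [Set.ncard_eq_toFinset_card _ (poor_finite W i)]
      rw [h2, ← pow_add]
      refine (poor_card W i).trans (Nat.pow_le_pow_right (by norm_num) ?_)
      unfold be
      omega
    obtain ⟨e, he⟩ := exists_hitting (T i) w (fun a _ => hw a) P hPne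
      (fun σ => (hfin σ).toFinset) (2 ^ be W i) (2 ^ wt W i) (by
        intro σ hσ
        constructor
        · intro τ hτ
          rw [Set.Finite.mem_toFinset] at hτ
          rw [hP, Set.Finite.mem_toFinset]
          exact hτ.1
        · have h3 := (Finset.mem_filter.1 hσ).2.2
          rwa [Set.ncard_eq_toFinset_card _ (hfin σ)] at h3) hcard
    refine ⟨List.ofFn (fun j => (e j : Str)), by simp, ?_, ?_⟩
    · intro τ hτ
      obtain ⟨j, rfl⟩ := (List.mem_ofFn' _ _).1 hτ
      have h3 : (e j : Str) ∈ P := (e j).2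
      exact Poor.length ((Set.Finite.mem_toFinset (poor_finite W i)).1 h3)
    · intro S hS
      have h3 : ∑ a ∈ (T i).filter (fun a => ∃ j, (e j : Str) ∈ (hfin a).toFinset), w a ≤
          ∑ σ ∈ S, w σ := by
        refine Finset.sum_le_sum_of_subset_of_nonneg ?_ (fun _ _ _ => hw _)
        intro σ hσ
        obtain ⟨h4, j, hj⟩ := Finset.mem_filter.1 hσ
        refine hS σ (Finset.mem_filter.1 h4).1 ⟨e j, ?_, ?_⟩
        · exact (List.mem_ofFn' _ _).2 ⟨j, rfl⟩
        · rw [Set.Finite.mem_toFinset] at hj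
          exact hj.2
      have h4 : (∑ σ ∈ T i, w σ) ≤ 2 * ∑ σ ∈ S, w σ := by linarith
      calc (∑ σ ∈ A, w σ) ≤ (2 ^ (i + 1) : ℝ) * ∑ σ ∈ T i, w σ := hi2
        _ ≤ (2 ^ (i + 1) : ℝ) * (2 * ∑ σ ∈ S, w σ) :=
            mul_le_mul_of_nonneg_left h4 (by positivity)
        _ = _ := by rw [pow_succ 2 (i + 1)]; ring
  · -- no poor strings: nothing can be rich
    have h2 : T i = ∅ := by
      rw [Finset.eq_empty_iff_forall_notMem]
      intro σ hσ
      have h3 := (Finset.mem_filter.1 hσ).2.2
      have h4 : poorBlocks W i σ = ∅ := by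
        rw [Set.eq_empty_iff_forall_notMem]
        intro τ hτ
        refine hPne ⟨τ, ?_⟩
        rw [hP, Set.Finite.mem_toFinset]
        exact hτ.1
      rw [h4, Set.ncard_empty] at h3
      have : 0 < 2 ^ be W i := by positivity
      omega
    rw [h2, Finset.sum_empty, mul_zero] at hi2
    refine ⟨List.replicate (2 ^ wt W i) (List.replicate (tw i) false), by simp, ?_, ?_⟩
    · intro τ hτ
      rw [(List.mem_replicate.1 hτ).2, List.length_replicate]
    · intro S _
      refine hi2.trans ?_
      have : 0 ≤ ∑ σ ∈ S, w σ := Finset.sum_nonneg (fun _ _ => hw _)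
      positivity

end Pool.Agent.H81.SC.G
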