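import Mathlib
import Pool.Agent.H81.SC.GComb

/-!
# The general game strategy
-/

set_option autoImplicit false

namespace Pool.Agent.H81.SC.G

open Pool.Agent.H81.SC

lemma primrec_wt : Primrec₂ wt := Primrec.list_getD 0

lemma primrec_qt : Primrec qt :=
  Primrec.nat_div.comp (primrec_tw.comp Primrec.succ) primrec_tw

lemma primrec_al : Primrec₂ al := by
  have h : Primrec₂ (fun (W : List ℕ) (k : ℕ) => (Nat.rec 1
      (fun k v => if wt W k = 0 then v * qt k else
        v * 2 ^ (v - wt W k) + (v - wt W k) * qt k) k : ℕ)) := by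
    refine Primrec.nat_rec (f := fun _ : List ℕ => 1)
      (g := fun (W : List ℕ) (p : ℕ × ℕ) => if wt W p.1 = 0 then p.2 * qt p.1 else
        p.2 * 2 ^ (p.2 - wt W p.1) + (p.2 - wt W p.1) * qt p.1) (Primrec.const 1) ?_
    have hw : Primrec (fun x : List ℕ × (ℕ × ℕ) => wt x.1 x.2.1) :=
      primrec_wt.comp Primrec.fst (Primrec.fst.comp Primrec.snd)
    have hv : Primrec (fun x : List ℕ × (ℕ × ℕ) => x.2.2) := Primrec.snd.comp Primrec.snd
    have hq : Primrec (fun x : List ℕ × (ℕ × ℕ) => qt x.2.1) :=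
      primrec_qt.comp (Primrec.fst.comp Primrec.snd)
    have hd : Primrec (fun x : List ℕ × (ℕ × ℕ) => x.2.2 - wt x.1 x.2.1) :=
      Primrec.nat_sub.comp hv hw
    refine Primrec.ite (Primrec.eq.comp hw (Primrec.const 0)) (Primrec.nat_mul.comp hv hq) ?_
    exact Primrec.nat_add.comp (Primrec.nat_mul.comp hv (primrec_pow.comp (Primrec.const 2) hd))
      (Primrec.nat_mul.comp hd hq)
  refine h.of_eq (fun W k => ?_)
  induction k with
  | zero => rfl
  | succ k ih =>
    have h2 : al W (k + 1) = if wt W k = 0 then al W k * qt k else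
        al W k * 2 ^ (al W k - wt W k) + (al W k - wt W k) * qt k := rfl
    rw [h2, ← ih]

lemma primrec_last : Primrec (fun W : List ℕ => W.length - 1) :=
  Primrec.nat_sub.comp Primrec.list_length (Primrec.const 1)

lemma primrec_N0 : Primrec N0 := primrec_tw.comp primrec_last

lemma primrec_Good : PrimrecPred Good := by
  have h1 : Primrec (fun W : List ℕ => wt W (W.length - 1)) :=
    primrec_wt.comp Primrec.id primrec_last
  refine PrimrecPred.and ?_ ?_
  · exact PrimrecPred.not (Primrec.eq.comp h1 (Primrec.const 0))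
  · exact Primrec.nat_le.comp (primrec_al.comp Primrec.id primrec_last) h1

variable (app : (Str × ℕ × ℕ) → ℕ → Bool)

/-- the certificate `C` is correct in the game `(t, W)` after history `H` -/
def Chk (x : ℕ × List ℕ) (H : List Move) (C : Cert) : Prop :=
  C.1.1 < x.2.length ∧ wt x.2 C.1.1 ≠ 0 ∧ C.1.2.length = 2 ^ wt x.2 C.1.1 ∧
  (∀ τ ∈ C.1.2, τ.length = tw C.1.1) ∧
  (C.2.2.map Prod.fst).Nodup ∧
  (∀ e ∈ C.2.2, e.1.length = N0 x.2 ∧ Hits C.1.2 e.1 ∧ (∀ m ∈ H, ¬ Hits m.2 e.1) ∧
    app (e.1, e.2.1, C.2.1) e.2.2 = true) ∧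
  C.2.1 + 1 ≤ 2 ^ (x.1 + C.1.1 + 2) * (C.2.2.map (fun e => e.2.1)).sum

lemma primrec_sum : Primrec (fun l : List (Str × ℕ × ℕ) => (l.map (fun e => e.2.1)).sum) := by
  have h6 : Primrec (fun l : List (Str × ℕ × ℕ) => l.foldr (fun e s => e.2.1 + s) 0) :=
    Primrec.list_foldr Primrec.id (Primrec.const 0)
      (Primrec.nat_add.comp (Primrec.fst.comp (Primrec.snd.comp
        (Primrec.fst.comp Primrec.snd))) (Primrec.snd.comp Primrec.snd)).to₂
  refine h6.of_eq (fun l => ?_)
  induction l with
  | nil => rfl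
  | cons a l ih => simp [ih]

lemma primrec_Chk (happ : Primrec₂ app) :
    PrimrecPred (fun x : ((ℕ × List ℕ) × List Move) × Cert => Chk app x.1.1 x.1.2 x.2) := by
  have ht : Primrec (fun x : ((ℕ × List ℕ) × List Move) × Cert => x.1.1.1) :=
    Primrec.fst.comp (Primrec.fst.comp Primrec.fst)
  have hW : Primrec (fun x : ((ℕ × List ℕ) × List Move) × Cert => x.1.1.2) :=
    Primrec.snd.comp (Primrec.fst.comp Primrec.fst)
  have hH : Primrec (fun x : ((ℕ × List ℕ) × List Move) × Cert => x.1.2) :=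
    Primrec.snd.comp Primrec.fst
  have hi : Primrec (fun x : ((ℕ × List ℕ) × List Move) × Cert => x.2.1.1) :=
    Primrec.fst.comp (Primrec.fst.comp Primrec.snd)
  have hE : Primrec (fun x : ((ℕ × List ℕ) × List Move) × Cert => x.2.1.2) :=
    Primrec.snd.comp (Primrec.fst.comp Primrec.snd)
  have hq : Primrec (fun x : ((ℕ × List ℕ) × List Move) × Cert => x.2.2.1) :=
    Primrec.fst.comp (Primrec.snd.comp Primrec.snd)
  have hL : Primrec (fun x : ((ℕ × List ℕ) × List Move) × Cert => x.2.2.2) :=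
    Primrec.snd.comp (Primrec.snd.comp Primrec.snd)
  have hw : Primrec (fun x : ((ℕ × List ℕ) × List Move) × Cert => wt x.1.1.2 x.2.1.1) :=
    primrec_wt.comp hW hi
  refine PrimrecPred.and ?_ (PrimrecPred.and ?_ (PrimrecPred.and ?_ (PrimrecPred.and ?_
    (PrimrecPred.and ?_ (PrimrecPred.and ?_ ?_)))))
  · exact Primrec.nat_lt.comp hi (Primrec.list_length.comp hW)
  · exact PrimrecPred.not (Primrec.eq.comp hw (Primrec.const 0))
  · exact Primrec.eq.comp (Primrec.list_length.comp hE) (primrec_pow.comp (Primrec.const 2) hw)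
  · have h1 : PrimrecRel (fun (τ : Str) (y : ℕ) => τ.length = tw y) :=
      Primrec.eq.comp (Primrec.list_length.comp Primrec.fst) (primrec_tw.comp Primrec.snd)
    exact h1.forall_mem_list.comp hE hi
  · exact primrec_nodup.comp (Primrec.list_map hL (Primrec.fst.comp Primrec.snd).to₂)
  · have h2 : PrimrecRel (fun (m : Move) (σ : Str) => ¬ Hits m.2 σ) := by
      refine PrimrecPred.not ?_
      exact primrec_Hits.comp (f := fun x : Move × Str => x.1.2) (g := fun x : Move × Str => x.2)
        (Primrec.snd.comp Primrec.fst) Primrec.snd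
    have h3 : PrimrecRel (fun (H : List Move) (σ : Str) => ∀ m ∈ H, ¬ Hits m.2 σ) :=
      h2.forall_mem_list
    have h4 : PrimrecRel (fun (e : Str × ℕ × ℕ) (x : ((ℕ × List ℕ) × List Move) × Cert) =>
        e.1.length = N0 x.1.1.2 ∧ Hits x.2.1.2 e.1 ∧ (∀ m ∈ x.1.2, ¬ Hits m.2 e.1) ∧
        app (e.1, e.2.1, x.2.2.1) e.2.2 = true) := by
      have he1 : Primrec (fun y : (Str × ℕ × ℕ) × (((ℕ × List ℕ) × List Move) × Cert) =>
          y.1.1) := Primrec.fst.comp Primrec.fst
      have he2 : Primrec (fun y : (Str × ℕ × ℕ) × (((ℕ × List ℕ) × List Move) × Cert) =>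
          y.1.2.1) := Primrec.fst.comp (Primrec.snd.comp Primrec.fst)
      have he3 : Primrec (fun y : (Str × ℕ × ℕ) × (((ℕ × List ℕ) × List Move) × Cert) =>
          y.1.2.2) := Primrec.snd.comp (Primrec.snd.comp Primrec.fst)
      refine PrimrecPred.and ?_ (PrimrecPred.and ?_ (PrimrecPred.and ?_ ?_))
      · exact Primrec.eq.comp (Primrec.list_length.comp he1)
          (primrec_N0.comp (hW.comp Primrec.snd))
      · exact primrec_Hits.comp
          (f := fun y : (Str × ℕ × ℕ) × (((ℕ × List ℕ) × List Move) × Cert) => y.2.2.1.2)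
          (g := fun y : (Str × ℕ × ℕ) × (((ℕ × List ℕ) × List Move) × Cert) => y.1.1)
          (hE.comp Primrec.snd) he1
      · exact h3.comp
          (f := fun y : (Str × ℕ × ℕ) × (((ℕ × List ℕ) × List Move) × Cert) => y.2.1.2)
          (g := fun y : (Str × ℕ × ℕ) × (((ℕ × List ℕ) × List Move) × Cert) => y.1.1)
          (hH.comp Primrec.snd) he1
      · exact Primrec.eq.comp (happ.comp (he1.pair (he2.pair (hq.comp Primrec.snd))) he3)
          (Primrec.const true)
    exact h4.forall_mem_list.comp (f := fun x : ((ℕ × List ℕ) × List Move) × Cert => x.2.2.2)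
      (g := fun x : ((ℕ × List ℕ) × List Move) × Cert => x) hL Primrec.id
  · refine Primrec.nat_le.comp (Primrec.nat_add.comp hq (Primrec.const 1)) ?_
    refine Primrec.nat_mul.comp ?_ (primrec_sum.comp hL)
    exact primrec_pow.comp (Primrec.const 2) (Primrec.nat_add.comp (Primrec.nat_add.comp ht hi)
      (Primrec.const 2))

open Classical in
/-- the next move: the first move found together with a correct certificate -/
noncomputable def step (x : (ℕ × List ℕ) × List Move) : Part Move :=
  Nat.rfindOpt (fun n => (Encodable.decode (α := Cert) n).bind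
    (fun C => if Chk app x.1 x.2 C then some C.1 else none))

lemma partrec_step (happ : Primrec₂ app) : Partrec (step app) := by
  classical
  refine Partrec.rfindOpt ?_
  refine Primrec₂.to_comp ?_
  refine Primrec.option_bind (Primrec.decode.comp Primrec.snd) ?_
  refine Primrec.ite ?_ ?_ (Primrec.const none)
  · exact (primrec_Chk app happ).comp
      (f := fun y : (((ℕ × List ℕ) × List Move) × ℕ) × Cert => (y.1.1, y.2))
      ((Primrec.fst.comp Primrec.fst).pair Primrec.snd)
  · exact Primrec.option_some.comp (Primrec.fst.comp Primrec.snd)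

lemma step_spec {x : ℕ × List ℕ} {H : List Move} {m : Move} (h : m ∈ step app (x, H)) :
    ∃ C, Chk app x H C ∧ C.1 = m := by
  classical
  obtain ⟨n, hn⟩ := Nat.rfindOpt_spec h
  rw [Option.mem_def, Option.bind_eq_some_iff] at hn
  obtain ⟨C, -, hC⟩ := hn
  split_ifs at hC with h1
  exact ⟨C, h1, by simpa using hC⟩

lemma step_dom {x : ℕ × List ℕ} {H : List Move} {C : Cert} (h : Chk app x H C) :
    (step app (x, H)).Dom := by
  classical
  refine Nat.rfindOpt_dom.2 ⟨Encodable.encode C, C.1, ?_⟩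
  rw [Encodable.encodek]
  simp [h]

/-- the history after `r` rounds of the game `x` -/
noncomputable def hist (x : ℕ × List ℕ) (r : ℕ) : Part (List Move) :=
  Nat.rec (Part.some []) (fun _ IH => IH.bind (fun H => (step app (x, H)).map (fun m => H ++ [m]))) r

lemma partrec_hist (happ : Primrec₂ app) : Partrec₂ (hist app) := by
  refine Partrec.nat_rec (f := fun x : (ℕ × List ℕ) × ℕ => x.2)
    (g := fun _ : (ℕ × List ℕ) × ℕ => Part.some [])
    (h := fun (x : (ℕ × List ℕ) × ℕ) (y : ℕ × List Move) =>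
      (step app (x.1, y.2)).map (fun m => y.2 ++ [m]))
    Computable.snd (Computable.const []).partrec ?_
  refine Partrec.map ?_ ?_
  · exact (partrec_step app happ).comp
      ((Computable.fst.comp Computable.fst).pair (Computable.snd.comp Computable.snd))
  · have h1 : Primrec₂ (fun (l : List Move) (m : Move) => l ++ [m]) := Primrec.list_concat
    have h2 : Primrec (fun z : (((ℕ × List ℕ) × ℕ) × (ℕ × List Move)) × Move => z.1.2.2) :=
      Primrec.snd.comp (Primrec.snd.comp Primrec.fst)
    have h3 : Primrec (fun z : (((ℕ × List ℕ) × ℕ) × (ℕ × List Move)) × Move =>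
        z.1.2.2 ++ [z.2]) := h1.comp h2 Primrec.snd
    exact h3.to_comp

lemma hist_zero (x : ℕ × List ℕ) : hist app x 0 = Part.some [] := rfl

lemma hist_succ (x : ℕ × List ℕ) (r : ℕ) : hist app x (r + 1) =
    (hist app x r).bind (fun H => (step app (x, H)).map (fun m => H ++ [m])) := rfl

lemma mem_hist_succ {x : ℕ × List ℕ} {r : ℕ} {H : List Move} :
    H ∈ hist app x (r + 1) ↔ ∃ H' m, H' ∈ hist app x r ∧ m ∈ step app (x, H') ∧ H = H' ++ [m] := by
  rw [hist_succ, Part.mem_bind_iff]
  constructor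
  · rintro ⟨H', hH', h⟩
    rw [Part.mem_map_iff] at h
    obtain ⟨m, hm, rfl⟩ := h
    exact ⟨H', m, hH', hm, rfl⟩
  · rintro ⟨H', m, hH', hm, rfl⟩
    exact ⟨H', hH', (Part.mem_map_iff _).2 ⟨m, hm, rfl⟩⟩

/-- earlier histories are prefixes -/
lemma hist_prefix {x : ℕ × List ℕ} {r : ℕ} {H : List Move} (h : H ∈ hist app x r) :
    ∀ r' ≤ r, ∃ H' ∈ hist app x r', H' <+: H := by
  induction r generalizing H with
  | zero =>
    intro r' hr'
    have : r' = 0 := by omega
    subst this
    exact ⟨H, h, List.prefix_rfl⟩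
  | succ r ih =>
    intro r' hr'
    obtain ⟨H', m, hH', -, rfl⟩ := (mem_hist_succ app).1 h
    rcases Nat.lt_or_ge r r' with h1 | h1
    · have : r' = r + 1 := by omega
      subst this
      exact ⟨_, h, List.prefix_rfl⟩
    · obtain ⟨H'', hH'', h2⟩ := ih hH' r' h1
      exact ⟨H'', hH'', h2.trans (List.prefix_append _ _)⟩

end Pool.Agent.H81.SC.G
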