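import Mathlib
import Pool.Agent.H81.SC.GGame

/-!
# Semimeasures and the outcome of the general game
-/

set_option autoImplicit false

namespace Pool.Agent.H81.SC.G

open Pool.Agent.H81.SC

section game

variable {M : Str → ℝ} (hM : IsSemimeasure M) {app : (Str × ℕ × ℕ) → ℕ → Bool}
  (happ : ∀ x : Str × ℕ × ℕ, ((x.2.1 : ℝ) / (x.2.2 + 1) < M x.1) ↔ ∃ k, app x k = true)

/-- the number of moves of level `k` -/
def cnt (k : ℕ) (H : List Move) : ℕ := (H.filter (fun m => decide (m.1 = k))).length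

/-- the value of a move -/
noncomputable def vl (t : ℕ) (m : Move) : ℝ := (1 / 2) ^ (t + m.1 + 2)

include happ

/-- a correct certificate certifies mass -/
lemma Chk.mass {x : ℕ × List ℕ} {H : List Move} {C : Cert} (h : Chk app x H C) :
    ∃ L : Finset Str, (∀ σ ∈ L, σ.length = N0 x.2 ∧ Hits C.1.2 σ ∧ ∀ m ∈ H, ¬ Hits m.2 σ) ∧
      vl x.1 C.1 ≤ ∑ σ ∈ L, M σ := by
  classical
  obtain ⟨-, -, -, -, h4, h5, h6⟩ := h
  refine ⟨(C.2.2.map Prod.fst).toFinset, ?_, ?_⟩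
  · intro σ hσ
    rw [List.mem_toFinset, List.mem_map] at hσ
    obtain ⟨e, he, rfl⟩ := hσ
    exact ⟨(h5 e he).1, (h5 e he).2.1, (h5 e he).2.2.1⟩
  · rw [List.sum_toFinset _ h4]
    have h7 : (0 : ℝ) < C.2.1 + 1 := by positivity
    have h8 : (((C.2.2.map (fun e => e.2.1)).sum : ℕ) : ℝ) ≤
        (C.2.1 + 1) * ((C.2.2.map Prod.fst).map M).sum := by
      have h9 : ∀ l : List (Str × ℕ × ℕ), (∀ e ∈ l, app (e.1, e.2.1, C.2.1) e.2.2 = true) →
          (((l.map (fun e => e.2.1)).sum : ℕ) : ℝ) ≤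
            (C.2.1 + 1) * ((l.map Prod.fst).map M).sum := by
        intro l
        induction l with
        | nil => intro _; simp
        | cons e l ih =>
          intro hl
          have h10 := ih (fun e' he' => hl e' (List.mem_cons_of_mem _ he'))
          have h11 : ((e.2.1 : ℕ) : ℝ) / (C.2.1 + 1) < M e.1 :=
            (happ (e.1, e.2.1, C.2.1)).2 ⟨_, hl e List.mem_cons_self⟩
          rw [div_lt_iff₀ h7] at h11
          simp only [List.map_cons, List.sum_cons, Nat.cast_add]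
          rw [mul_add]
          have h12 : M e.1 * (C.2.1 + 1) = (C.2.1 + 1) * M e.1 := mul_comm _ _
          linarith
      exact h9 C.2.2 (fun e he => (h5 e he).2.2.2)
    have h13 : (C.2.1 : ℝ) + 1 ≤ (2 ^ (x.1 + C.1.1 + 2) : ℝ) *
        (((C.2.2.map (fun e => e.2.1)).sum : ℕ) : ℝ) := by
      have h14 : ((C.2.1 + 1 : ℕ) : ℝ) ≤
          ((2 ^ (x.1 + C.1.1 + 2) * (C.2.2.map (fun e => e.2.1)).sum : ℕ) : ℝ) := by
        exact_mod_cast h6
      push_cast at h14 ⊢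
      exact h14
    have h15 : (0 : ℝ) ≤ 2 ^ (x.1 + C.1.1 + 2) := by positivity
    have h16 := h13.trans (mul_le_mul_of_nonneg_left h8 h15)
    rw [← mul_assoc, mul_comm _ ((C.2.1 : ℝ) + 1), mul_assoc] at h16
    have h17 : 1 ≤ (2 ^ (x.1 + C.1.1 + 2) : ℝ) * ((C.2.2.map Prod.fst).map M).sum := by
      by_contra hcon
      push Not at hcon
      nlinarith
    have h18 : (1 / 2 : ℝ) ^ (x.1 + C.1.1 + 2) * 2 ^ (x.1 + C.1.1 + 2) = 1 := by
      rw [← mul_pow]; norm_num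
    unfold vl
    calc (1 / 2 : ℝ) ^ (x.1 + C.1.1 + 2) = (1 / 2 : ℝ) ^ (x.1 + C.1.1 + 2) * 1 := (mul_one _).symm
      _ ≤ (1 / 2 : ℝ) ^ (x.1 + C.1.1 + 2) *
          ((2 ^ (x.1 + C.1.1 + 2) : ℝ) * ((C.2.2.map Prod.fst).map M).sum) :=
          mul_le_mul_of_nonneg_left h17 (by positivity)
      _ = _ := by rw [← mul_assoc, h18, one_mul]

/-- the mass killed during `r` rounds -/
lemma hist_mass {x : ℕ × List ℕ} {r : ℕ} {H : List Move} (h : H ∈ hist app x r) :
    H.length = r ∧ ∃ S : Finset Str, (∀ σ ∈ S, σ.length = N0 x.2 ∧ ∃ m ∈ H, Hits m.2 σ) ∧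
      (H.map (vl x.1)).sum ≤ ∑ σ ∈ S, M σ := by
  classical
  induction r generalizing H with
  | zero =>
    rw [hist_zero, Part.mem_some_iff] at h
    subst h
    exact ⟨rfl, ∅, by simp, by simp⟩
  | succ r ih =>
    obtain ⟨H', m, hH', hm, rfl⟩ := (mem_hist_succ app).1 h
    obtain ⟨h1, S, h2, h3⟩ := ih hH'
    obtain ⟨C, hC, rfl⟩ := step_spec app hm
    obtain ⟨L, h4, h5⟩ := hC.mass happ
    refine ⟨by simp [h1], S ∪ L, ?_, ?_⟩
    · intro σ hσ
      rcases Finset.mem_union.1 hσ with h | h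
      · obtain ⟨h6, m, hm, h7⟩ := h2 σ h
        exact ⟨h6, m, List.mem_append_left _ hm, h7⟩
      · exact ⟨(h4 σ h).1, C.1, by simp, (h4 σ h).2.1⟩
    · rw [Finset.sum_union]
      · rw [List.map_append, List.sum_append]
        simp only [List.map_cons, List.map_nil, List.sum_cons, List.sum_nil, add_zero]
        linarith
      · rw [Finset.disjoint_left]
        intro σ h6 h7
        obtain ⟨-, m, hm, h8⟩ := h2 σ h6
        exact (h4 σ h7).2.2 m hm h8

include hM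

lemma hist_sum {x : ℕ × List ℕ} {r : ℕ} {H : List Move} (h : H ∈ hist app x r) :
    (H.map (vl x.1)).sum ≤ 1 := by
  obtain ⟨-, S, h1, h2⟩ := hist_mass happ h
  exact h2.trans (sum_le_one hM (N0 x.2) S (fun σ hσ => (h1 σ hσ).1))

omit hM happ in
lemma cnt_sum (t k : ℕ) (H : List Move) :
    (cnt k H : ℝ) * (1 / 2) ^ (t + k + 2) ≤ (H.map (vl t)).sum := by
  induction H with
  | nil => simp [cnt]
  | cons m H ih =>
    have h0 : 0 ≤ vl t m := by unfold vl; positivity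
    rw [List.map_cons, List.sum_cons]
    by_cases h : m.1 = k
    · have h1 : cnt k (m :: H) = cnt k H + 1 := by
        unfold cnt
        rw [List.filter_cons_of_pos (by simp [h])]
        rfl
      rw [h1]
      push_cast
      have h2 : vl t m = (1 / 2) ^ (t + k + 2) := by unfold vl; rw [h]
      rw [h2]
      linarith
    · have h1 : cnt k (m :: H) = cnt k H := by
        unfold cnt
        rw [List.filter_cons_of_neg (by simp [h])]
      rw [h1]
      linarith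

/-- few moves of each level -/
lemma hist_cnt {x : ℕ × List ℕ} {r : ℕ} {H : List Move} (h : H ∈ hist app x r) (k : ℕ) :
    cnt k H ≤ 2 ^ (x.1 + k + 2) := by
  have h1 := (cnt_sum x.1 k H).trans (hist_sum hM happ h)
  have h2 : (1 / 2 : ℝ) ^ (x.1 + k + 2) * 2 ^ (x.1 + k + 2) = 1 := by
    rw [← mul_pow]; norm_num
  have h3 : (cnt k H : ℝ) ≤ 2 ^ (x.1 + k + 2) := by
    calc (cnt k H : ℝ) = (cnt k H : ℝ) * (1 / 2) ^ (x.1 + k + 2) * 2 ^ (x.1 + k + 2) := by
          rw [mul_assoc, h2, mul_one]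
      _ ≤ 1 * 2 ^ (x.1 + k + 2) := mul_le_mul_of_nonneg_right h1 (by positivity)
      _ = _ := one_mul _
  exact_mod_cast h3

omit hM in
lemma hist_level {x : ℕ × List ℕ} {r : ℕ} {H : List Move} (h : H ∈ hist app x r) :
    ∀ m ∈ H, m.1 < x.2.length ∧ wt x.2 m.1 ≠ 0 ∧ m.2.length = 2 ^ wt x.2 m.1 ∧
      ∀ τ ∈ m.2, τ.length = tw m.1 := by
  induction r generalizing H with
  | zero =>
    rw [hist_zero, Part.mem_some_iff] at h
    subst h
    simp
  | succ r ih =>
    obtain ⟨H', m, hH', hm, rfl⟩ := (mem_hist_succ app).1 h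
    intro m' hm'
    rcases List.mem_append.1 hm' with h1 | h1
    · exact ih hH' m' h1
    · rw [List.mem_singleton] at h1
      subst h1
      obtain ⟨C, hC, rfl⟩ := step_spec app hm
      exact ⟨hC.1, hC.2.1, hC.2.2.1, hC.2.2.2.1⟩

/-- the game gets stuck -/
lemma exists_stuck (x : ℕ × List ℕ) : ∃ r, ∃ H, H ∈ hist app x r ∧ ¬ (step app (x, H)).Dom := by
  by_contra hcon
  push Not at hcon
  have h1 : ∀ r, (hist app x r).Dom := by
    intro r
    induction r with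
    | zero => rw [hist_zero]; trivial
    | succ r ih =>
      obtain ⟨H, hH⟩ := Part.dom_iff_mem.1 ih
      obtain ⟨m, hm⟩ := Part.dom_iff_mem.1 (hcon r H hH)
      exact Part.dom_iff_mem.2 ⟨H ++ [m], (mem_hist_succ app).2 ⟨H, m, hH, hm, rfl⟩⟩
  obtain ⟨H, hH⟩ := Part.dom_iff_mem.1 (h1 (2 ^ (x.1 + x.2.length + 2) + 1))
  have h2 := (hist_mass (M := M) happ hH).1
  have h3 := hist_sum hM happ hH
  have h4 := hist_level happ hH
  have h5 : ∀ l : List Move, (∀ m ∈ l, m.1 < x.2.length) →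
      (l.length : ℝ) * (1 / 2) ^ (x.1 + x.2.length + 2) ≤ (l.map (vl x.1)).sum := by
    intro l
    induction l with
    | nil => intro _; simp
    | cons m l ih =>
      intro hl
      have h6 := ih (fun m' hm' => hl m' (List.mem_cons_of_mem _ hm'))
      have h7 := hl m List.mem_cons_self
      have h8 : (1 / 2 : ℝ) ^ (x.1 + x.2.length + 2) ≤ vl x.1 m := by
        unfold vl
        exact pow_le_pow_of_le_one (by norm_num) (by norm_num) (by omega)
      rw [List.map_cons, List.sum_cons, List.length_cons]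
      push_cast
      linarith
  have h6 := (h5 H (fun m hm => (h4 m hm).1)).trans h3
  rw [h2] at h6
  have h7 : (1 / 2 : ℝ) ^ (x.1 + x.2.length + 2) * 2 ^ (x.1 + x.2.length + 2) = 1 := by
    rw [← mul_pow]; norm_num
  push_cast at h6
  have h8 : (0 : ℝ) < (1 / 2) ^ (x.1 + x.2.length + 2) := by positivity
  nlinarith

/-- at a stuck position the surviving mass is small -/
lemma stuck_mass {x : ℕ × List ℕ} (hW : Good x.2) {r : ℕ} {H : List Move}
    (h : H ∈ hist app x r) (hs : ¬ (step app (x, H)).Dom) (A : Finset Str)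
    (hA : ∀ σ ∈ A, σ.length = N0 x.2 ∧ ∀ m ∈ H, ¬ Hits m.2 σ) :
    ∑ σ ∈ A, M σ ≤ (1 / 2) ^ x.1 := by
  classical
  by_contra hcon
  push Not at hcon
  obtain ⟨i, hi, hi0, E, hE1, hE2, hE3⟩ :=
    exists_move hW A (fun σ hσ => (hA σ hσ).1) M hM.nonneg
  set S : Finset Str := A.filter (fun σ => Hits E σ) with hS
  have h1 := hE3 S (fun σ h2 h3 => Finset.mem_filter.2 ⟨h2, h3⟩)
  set Q : ℝ := 2 ^ (x.1 + i + 2) with hQ
  have hQpos : 0 < Q := by positivity
  have h2 : 1 < Q * ∑ σ ∈ S, M σ := by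
    have h3 : (1 / 2 : ℝ) ^ x.1 < (2 ^ (i + 2) : ℝ) * ∑ σ ∈ S, M σ := lt_of_lt_of_le hcon h1
    have h4 : (0 : ℝ) < 2 ^ x.1 := by positivity
    have h5 : (2 : ℝ) ^ x.1 * (1 / 2) ^ x.1 = 1 := by
      rw [← mul_pow]; norm_num
    have h6 := mul_lt_mul_of_pos_left h3 h4
    rw [h5] at h6
    calc (1 : ℝ) < 2 ^ x.1 * (2 ^ (i + 2) * ∑ σ ∈ S, M σ) := h6
      _ = _ := by rw [hQ, ← mul_assoc, ← pow_add]; congr 2
  -- choose the precision
  obtain ⟨q, hq⟩ : ∃ q : ℕ, Q * S.card ≤ (q + 1 : ℝ) * (Q * ∑ σ ∈ S, M σ - 1) := by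
    obtain ⟨q, hq⟩ := exists_nat_ge (Q * S.card / (Q * ∑ σ ∈ S, M σ - 1))
    refine ⟨q, ?_⟩
    have h7 : 0 < Q * ∑ σ ∈ S, M σ - 1 := by linarith
    rw [div_le_iff₀ h7] at hq
    nlinarith
  -- approximations from below
  have h8 : ∀ σ : Str, 0 < M σ → ∃ a k : ℕ, app (σ, a, q) k = true ∧ (q + 1 : ℝ) * M σ - 1 ≤ a := by
    intro σ hσ
    have h9 : 0 < (q + 1 : ℝ) * M σ := by positivity
    obtain ⟨a, ha⟩ : ∃ a : ℕ, ⌈(q + 1 : ℝ) * M σ⌉₊ = a + 1 :=
      Nat.exists_eq_succ_of_ne_zero (Nat.ceil_pos.2 h9).ne'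
    have h10 : (a : ℝ) < (q + 1 : ℝ) * M σ := by
      have : a < ⌈(q + 1 : ℝ) * M σ⌉₊ := by omega
      exact Nat.lt_ceil.1 this
    have h11 : (q + 1 : ℝ) * M σ ≤ a + 1 := by
      have := Nat.le_ceil ((q + 1 : ℝ) * M σ)
      rw [ha] at this
      push_cast at this
      exact this
    have h12 : ((a : ℕ) : ℝ) / (q + 1) < M σ := by
      rw [div_lt_iff₀ (by positivity)]
      linarith
    obtain ⟨k, hk⟩ := (happ (σ, a, q)).1 h12
    exact ⟨a, k, hk, by linarith⟩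
  choose! a k hak using h8
  set L : List (Str × ℕ × ℕ) := ((S.filter (fun σ => 0 < M σ)).toList).map
    (fun σ => (σ, a σ, k σ)) with hL
  have hfst : L.map Prod.fst = (S.filter (fun σ => 0 < M σ)).toList := by
    rw [hL, List.map_map]
    exact List.map_id _
  apply hs
  refine step_dom app (C := ((i, E), q, L)) ⟨hi, hi0, hE1, hE2, ?_, ?_, ?_⟩
  · show (L.map Prod.fst).Nodup
    rw [hfst]
    exact Finset.nodup_toList _
  · intro e he
    obtain ⟨σ, hσ, rfl⟩ := List.mem_map.1 he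
    rw [Finset.mem_toList, Finset.mem_filter, hS, Finset.mem_filter] at hσ
    obtain ⟨⟨h13, h14⟩, h15⟩ := hσ
    exact ⟨(hA σ h13).1, h14, (hA σ h13).2, (hak σ h15).1⟩
  · have h16 : (L.map (fun e => e.2.1)).sum = ∑ σ ∈ S.filter (fun σ => 0 < M σ), a σ := by
      rw [hL, List.map_map, ← Finset.sum_map_toList]
      rfl
    show q + 1 ≤ 2 ^ (x.1 + i + 2) * (L.map (fun e => e.2.1)).sum
    rw [h16]
    have h17 : (q + 1 : ℝ) * ∑ σ ∈ S, M σ - S.card ≤
        ((∑ σ ∈ S.filter (fun σ => 0 < M σ), a σ : ℕ) : ℝ) := by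
      have h18 : ∑ σ ∈ S, M σ = ∑ σ ∈ S.filter (fun σ => 0 < M σ), M σ := by
        symm
        refine Finset.sum_filter_of_ne (fun σ _ h => ?_)
        exact lt_of_le_of_ne (hM.nonneg σ) (Ne.symm h)
      rw [h18]
      push_cast
      have h19 : ∑ σ ∈ S.filter (fun σ => 0 < M σ), ((q + 1 : ℝ) * M σ - 1) ≤
          ∑ σ ∈ S.filter (fun σ => 0 < M σ), (a σ : ℝ) :=
        Finset.sum_le_sum (fun σ hσ => (hak σ (Finset.mem_filter.1 hσ).2).2)
      rw [Finset.sum_sub_distrib, ← Finset.mul_sum, Finset.sum_const, nsmul_eq_mul, mul_one] at h19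
      have h20 : ((S.filter (fun σ => 0 < M σ)).card : ℝ) ≤ S.card := by
        exact_mod_cast Finset.card_filter_le _ _
      linarith
    have h21 : (q + 1 : ℝ) ≤ Q * ((∑ σ ∈ S.filter (fun σ => 0 < M σ), a σ : ℕ) : ℝ) := by
      have h22 := mul_le_mul_of_nonneg_left h17 hQpos.le
      nlinarith
    have h23 : ((q + 1 : ℕ) : ℝ) ≤ ((2 ^ (x.1 + i + 2) *
        ∑ σ ∈ S.filter (fun σ => 0 < M σ), a σ : ℕ) : ℝ) := by
      push_cast at h21 ⊢
      exact h21
    exact_mod_cast h23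

end game

end Pool.Agent.H81.SC.G
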