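import Mathlib
import Pool.Agent.H81.SC.GSemi

/-!
# The prefix-free machine playing all the general games
-/

set_option autoImplicit false

namespace Pool.Agent.H81.SC.G

open Pool.Agent.H81.SC

/-- the moves of level `k` -/
def filt (k : ℕ) (H : List Move) : List Move := H.filter (fun m => decide (m.1 = k))

lemma primrec_filt : Primrec₂ filt := by
  have h2 : PrimrecRel (fun (m : Move) (k : ℕ) => m.1 = k) :=
    Primrec.eq.comp (Primrec.fst.comp Primrec.fst) Primrec.snd
  exact (h2.listFilter.comp Primrec.snd Primrec.fst).of_eq (fun x => rfl)

/-- length of the first index of a program -/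
def cut (p : Str) : ℕ := pt p + pI p + 2

/-- first index of a program -/
def idx (p : Str) : ℕ := val ((ps p).take (cut p))

/-- second index of a program -/
def jdx (p : Str) : ℕ := val ((ps p).drop (cut p))

/-- valid programs -/
def okProg (y : Str × List ℕ) : Prop := code (pt y.1) (pI y.1) (ps y.1) = y.1 ∧
  (ps y.1).length = cut y.1 + wt y.2 (pI y.1)

/-- extraction of the output from a history -/
def extract (p : Str) (H : List Move) : Option Str :=
  ((filt (pI p) H)[idx p]?).bind (fun m => m.2[jdx p]?)

open Classical in
/-- guard for valid programs -/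
noncomputable def guardProg (y : Str × List ℕ) : Option Unit := if okProg y then some () else none

lemma primrec_cut : Primrec cut :=
  Primrec.nat_add.comp (Primrec.nat_add.comp primrec_pt primrec_pI) (Primrec.const 2)

lemma primrec_idx : Primrec idx :=
  primrec_val.comp (Primrec.list_take.comp primrec_cut primrec_ps)

lemma primrec_jdx : Primrec jdx :=
  primrec_val.comp (Primrec.list_drop.comp primrec_cut primrec_ps)

lemma primrec_okProg : PrimrecPred okProg := by
  refine PrimrecPred.and ?_ ?_
  · exact Primrec.eq.comp (primrec_code.comp ((primrec_pt.comp Primrec.fst).pair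
      ((primrec_pI.comp Primrec.fst).pair (primrec_ps.comp Primrec.fst)))) Primrec.fst
  · exact Primrec.eq.comp (Primrec.list_length.comp (primrec_ps.comp Primrec.fst))
      (Primrec.nat_add.comp (primrec_cut.comp Primrec.fst)
        (primrec_wt.comp Primrec.snd (primrec_pI.comp Primrec.fst)))

lemma primrec_guard : Primrec guardProg := by
  classical
  unfold guardProg
  exact Primrec.ite primrec_okProg (Primrec.const (some ())) (Primrec.const none)

lemma primrec_extract : Primrec₂ extract := by
  have h1 : Primrec (fun x : Str × List Move => (filt (pI x.1) x.2)[idx x.1]?) :=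
    Primrec.list_getElem?.comp (primrec_filt.comp (primrec_pI.comp Primrec.fst) Primrec.snd)
      (primrec_idx.comp Primrec.fst)
  refine Primrec.option_bind h1 ?_
  exact Primrec.list_getElem?.comp (Primrec.snd.comp Primrec.snd)
    (primrec_jdx.comp (Primrec.fst.comp Primrec.fst))

variable (app : (Str × ℕ × ℕ) → ℕ → Bool)

/-- the first round after which there are enough moves of the level of the program -/
noncomputable def rnd (y : Str × List ℕ) : Part ℕ :=
  Nat.rfind (fun r => (hist app (pt y.1, y.2) r).map
    (fun H => decide (idx y.1 < (filt (pI y.1) H).length)))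

lemma partrec_rnd (happ : Primrec₂ app) : Partrec (rnd app) := by
  refine Partrec.rfind ?_
  refine Partrec.map ?_ ?_
  · have h1 : Computable (fun z : (Str × List ℕ) × ℕ => (pt z.1.1, z.1.2)) :=
      ((primrec_pt.comp (Primrec.fst.comp Primrec.fst)).pair
        (Primrec.snd.comp Primrec.fst)).to_comp
    exact (partrec_hist app happ).comp h1 Computable.snd
  · have h2 : Primrec (fun w : ((Str × List ℕ) × ℕ) × List Move =>
        decide (idx w.1.1.1 < (filt (pI w.1.1.1) w.2).length)) := by
      refine (Primrec.nat_lt.comp (primrec_idx.comp
        (Primrec.fst.comp (Primrec.fst.comp Primrec.fst))) (Primrec.list_length.comp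
          (primrec_filt.comp (primrec_pI.comp (Primrec.fst.comp (Primrec.fst.comp Primrec.fst)))
            Primrec.snd))).decide
    exact h2.to_comp

/-- the partial history used by a program -/
noncomputable def histOf (y : Str × List ℕ) : Part (List Move) :=
  (rnd app y).bind (fun r => hist app (pt y.1, y.2) r)

lemma partrec_histOf (happ : Primrec₂ app) : Partrec (histOf app) := by
  refine Partrec.bind (partrec_rnd app happ) ?_
  have h1 : Computable (fun z : (Str × List ℕ) × ℕ => (pt z.1.1, z.1.2)) :=
    ((primrec_pt.comp (Primrec.fst.comp Primrec.fst)).pair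
      (Primrec.snd.comp Primrec.fst)).to_comp
  exact (partrec_hist app happ).comp h1 Computable.snd

/-- the machine, with the table as a second input -/
noncomputable def V' (y : Str × List ℕ) : Part Str :=
  (guardProg y : Part Unit).bind (fun _ =>
    (histOf app y).bind (fun H => (extract y.1 H : Part Str)))

lemma partrec_V' (happ : Primrec₂ app) : Partrec (V' app) := by
  have h2 : Primrec (fun y : ((Str × List ℕ) × Unit) × List Move => extract y.1.1.1 y.2) :=
    primrec_extract.comp (Primrec.fst.comp (Primrec.fst.comp Primrec.fst)) Primrec.snd
  have h3 : Partrec (fun y : ((Str × List ℕ) × Unit) × List Move =>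
      (extract y.1.1.1 y.2 : Part Str)) := Computable.ofOption h2.to_comp
  have h4 : Partrec (fun x : (Str × List ℕ) × Unit => histOf app x.1) :=
    (partrec_histOf app happ).comp Computable.fst
  have h5 : Partrec (fun x : (Str × List ℕ) × Unit => (histOf app x.1).bind
      (fun H => (extract x.1.1 H : Part Str))) := Partrec.bind h4 h3
  have h6 : Partrec (fun y : Str × List ℕ => (guardProg y : Part Unit)) :=
    Computable.ofOption primrec_guard.to_comp
  exact Partrec.bind h6 h5

variable (tab : ℕ → List ℕ)

/-- the machine -/
noncomputable def V (p : Str) : Part Str := V' app (p, tab (pt p))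

lemma partrec_V (happ : Primrec₂ app) (htab : Computable tab) : Partrec (V app tab) :=
  (partrec_V' app happ).comp (Computable.id.pair (htab.comp primrec_pt.to_comp))

lemma V_dom {p : Str} (h : (V app tab p).Dom) : okProg (p, tab (pt p)) := by
  classical
  unfold V V' at h
  obtain ⟨x, hx⟩ := Part.dom_iff_mem.1 h
  rw [Part.mem_bind_iff] at hx
  obtain ⟨y, hy, -⟩ := hx
  rw [Part.mem_ofOption] at hy
  unfold guardProg at hy
  by_contra hcon
  rw [if_neg hcon] at hy
  simp at hy

lemma prefixFree_V (happ : Primrec₂ app) (htab : Computable tab) :
    IsPrefixFreeMachine (V app tab) := by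
  refine ⟨partrec_V app tab happ htab, ?_⟩
  rintro p q hp hq ⟨w, hw⟩
  obtain ⟨h1, h2⟩ := V_dom app tab hp
  obtain ⟨h3, h4⟩ := V_dom app tab hq
  simp only at h1 h2 h3 h4
  have h5 : code (pt p) (pI p) (ps p ++ w) = q := by
    rw [← hw]
    conv_rhs => rw [← h1]
    unfold code
    simp
  have h6 : pt q = pt p := by rw [← h5, pt_code]
  have h7 : pI q = pI p := by rw [← h5, pI_code]
  have h8 : ps q = ps p ++ w := by rw [← h5, ps_code]
  unfold cut at h2 h4
  rw [h6, h7, h8, List.length_append, h2] at h4
  have h9 : w = [] := List.length_eq_zero_iff.1 (by omega)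
  rw [← hw, h9, List.append_nil]

/-- strings played in game `t` have short programs -/
lemma V_short {M : Str → ℝ} (hM : IsSemimeasure M)
    (happ : ∀ x : Str × ℕ × ℕ, ((x.2.1 : ℝ) / (x.2.2 + 1) < M x.1) ↔ ∃ k, app x k = true)
    {t r : ℕ} {H : List Move} (h : H ∈ hist app (t, tab t) r) {m : Move} (hm : m ∈ H) {τ : Str}
    (hτ : τ ∈ m.2) :
    ∃ p : Str, p.length ≤ wt (tab t) m.1 + 2 * t + 2 * m.1 + 4 ∧ τ ∈ V app tab p := by
  classical
  induction r generalizing H with
  | zero =>
    rw [hist_zero, Part.mem_some_iff] at h
    subst h
    simp at hm
  | succ r ih =>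
    obtain ⟨H', m', hH', hm', rfl⟩ := (mem_hist_succ app).1 h
    rcases List.mem_append.1 hm with h1 | h1
    · exact ih hH' h1
    · rw [List.mem_singleton] at h1
      subst h1
      have hcnt := hist_cnt hM happ h m.1
      have hlev := hist_level happ h m (by simp)
      have hfilt : filt m.1 (H' ++ [m]) = filt m.1 H' ++ [m] := by
        unfold filt
        rw [List.filter_append]
        simp
      have hs : (filt m.1 H').length < 2 ^ (t + m.1 + 2) := by
        have h2 : cnt m.1 (H' ++ [m]) = (filt m.1 (H' ++ [m])).length := rfl
        rw [h2, hfilt, List.length_append, List.length_singleton] at hcnt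
        exact hcnt
      obtain ⟨j, hj, hj2⟩ := List.getElem_of_mem hτ
      have hj3 : j < 2 ^ wt (tab t) m.1 := by rw [← hlev.2.2.1]; exact hj
      obtain ⟨s1, hs1, hv1⟩ := exists_bits _ _ hs
      obtain ⟨s2, hs2, hv2⟩ := exists_bits _ _ hj3
      set p : Str := code t m.1 (s1 ++ s2) with hp
      have hpt : pt p = t := pt_code _ _ _
      have hpI : pI p = m.1 := pI_code _ _ _
      have hps : ps p = s1 ++ s2 := ps_code _ _ _
      have hcut : cut p = t + m.1 + 2 := by unfold cut; rw [hpt, hpI]
      have htake : (s1 ++ s2).take (t + m.1 + 2) = s1 := by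
        rw [← hs1]; simp
      have hdrop : (s1 ++ s2).drop (t + m.1 + 2) = s2 := by
        rw [← hs1]; simp
      have hidx : idx p = (filt m.1 H').length := by
        unfold idx; rw [hps, hcut, htake, hv1]
      have hjdx : jdx p = j := by
        unfold jdx; rw [hps, hcut, hdrop, hv2]
      refine ⟨p, ?_, ?_⟩
      · rw [hp, code_length, List.length_append, hs1, hs2]
        omega
      · unfold V V'
        have hok : okProg (p, tab (pt p)) := by
          unfold okProg
          simp only
          rw [hpt, hpI, hps, hcut]
          refine ⟨rfl, ?_⟩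
          rw [List.length_append, hs1, hs2]
        have hrnd : (r + 1) ∈ rnd app (p, tab (pt p)) := by
          unfold rnd
          rw [hpt]
          simp only [hpt, hpI, hidx]
          rw [Nat.mem_rfind]
          refine ⟨?_, ?_⟩
          · refine (Part.mem_map_iff _).2 ⟨_, h, ?_⟩
            rw [hfilt, List.length_append, List.length_singleton]
            simp
          · intro r' hr'
            obtain ⟨H'', hH'', hpre⟩ := hist_prefix app hH' r' (by omega)
            refine (Part.mem_map_iff _).2 ⟨_, hH'', ?_⟩
            have h3 : (filt m.1 H'').length ≤ (filt m.1 H').length := by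
              obtain ⟨w, rfl⟩ := hpre
              unfold filt
              rw [List.filter_append, List.length_append]
              omega
            simp only [decide_eq_false_iff_not]
            omega
        rw [Part.mem_bind_iff]
        refine ⟨(), ?_, ?_⟩
        · rw [Part.mem_ofOption]
          unfold guardProg
          rw [if_pos hok]
          rfl
        · rw [Part.mem_bind_iff]
          refine ⟨H' ++ [m], ?_, ?_⟩
          · unfold histOf
            rw [Part.mem_bind_iff]
            refine ⟨r + 1, hrnd, ?_⟩
            simp only [hpt]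
            exact h
          · rw [Part.mem_ofOption]
            unfold extract
            simp only [hpI, hidx, hjdx]
            rw [hfilt]
            rw [List.getElem?_append_right le_rfl]
            simp only [Nat.sub_self, List.getElem?_cons_zero, Option.bind_some]
            rw [List.getElem?_eq_getElem hj, hj2]
            rfl

end Pool.Agent.H81.SC.G
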