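import Mathlib
import Pool.Agent.H81.SC.GMach

/-!
# The tables of the general games
-/

set_option autoImplicit false

namespace Pool.Agent.H81.SC.G

open Pool.Agent.H81.SC

/-! ### the table -/

/-- available bits at level `k` in game `t`, for the value `F = f (tw k)` -/
def wu (t k F : ℕ) : ℕ := F - (4 * t + 2 * k + 5)

/-- weight of level `k` in game `t`, for the value `F = f (tw k)` -/
def wv (t k F : ℕ) : ℕ :=
  if tw k ≤ 2 ^ (k + 1) * wu t k F ∧ 2 ^ (k + 2) * tw k ≤ 2 ^ wu t k F then wu t k F else 0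

variable (f : ℕ → ℕ)

/-- the weights of game `t` -/
def wf (t k : ℕ) : ℕ := wv t k (f (tw k))

/-- the table of length `K + 1` -/
def wl (t K : ℕ) : List ℕ := (List.range (K + 1)).map (wf f t)

lemma wl_length (t K : ℕ) : (wl f t K).length = K + 1 := by simp [wl]

lemma wt_wl {t K k : ℕ} (h : k ≤ K) : wt (wl f t K) k = wf f t k := by
  unfold wt wl
  rw [List.getD_eq_getElem?_getD, List.getElem?_map, List.getElem?_range (by omega)]
  rfl

/-- the exponents as functions of the weights -/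
def alf (w : ℕ → ℕ) : ℕ → ℕ
  | 0 => 1
  | k + 1 => if w k = 0 then alf w k * qt k else
      alf w k * 2 ^ (alf w k - w k) + (alf w k - w k) * qt k

lemma al_wl {t K : ℕ} (k : ℕ) (h : k ≤ K) : al (wl f t K) k = alf (wf f t) k := by
  induction k with
  | zero => rfl
  | succ k ih =>
    have h1 := ih (by omega)
    have h2 : wt (wl f t K) k = wf f t k := wt_wl f (by omega)
    rw [al_succ]
    unfold be
    rw [h1, h2]
    rfl

variable {f}

lemma wf_useful {t k : ℕ} (h : wf f t k ≠ 0) : wf f t k + (4 * t + 2 * k + 5) = f (tw k) ∧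
    tw k ≤ 2 ^ (k + 1) * wf f t k ∧ 2 ^ (k + 2) * tw k ≤ 2 ^ wf f t k := by
  unfold wf wv at h ⊢
  split_ifs at h ⊢ with h1
  · refine ⟨?_, h1.1, h1.2⟩
    unfold wu at h ⊢
    omega
  · exact absurd rfl h

/-- the basic estimate for the exponents -/
lemma alf_le (w : ℕ → ℕ) (hw : ∀ k, w k ≠ 0 → tw k ≤ 2 ^ (k + 1) * w k ∧
    2 ^ (k + 2) * tw k ≤ 2 ^ w k) (hlt : ∀ k, w k ≠ 0 → w k < alf w k) (k : ℕ) :
    (alf w k : ℝ) ≤ tw k * (1 - ∑ j ∈ Finset.range k, (w j : ℝ) / (2 * tw j)) := by
  induction k with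
  | zero => simp [alf, tw]
  | succ k ih =>
    have htk : (0 : ℝ) < tw k := by exact_mod_cast tw_pos k
    have hq : (tw (k + 1) : ℝ) = tw k * qt k := by exact_mod_cast tw_mul_qt k
    have hq0 : (0 : ℝ) ≤ qt k := Nat.cast_nonneg _
    rw [Finset.sum_range_succ]
    by_cases h0 : w k = 0
    · have h1 : alf w (k + 1) = alf w k * qt k := by
        show (if w k = 0 then _ else _) = _
        rw [if_pos h0]
      rw [h1, h0, hq]
      push_cast
      calc (alf w k : ℝ) * qt k
          ≤ (tw k * (1 - ∑ j ∈ Finset.range k, (w j : ℝ) / (2 * tw j))) * qt k :=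
            mul_le_mul_of_nonneg_right ih hq0
        _ = _ := by ring
    · obtain ⟨hu1, hu2⟩ := hw k h0
      have hl := hlt k h0
      have h1 : alf w (k + 1) = alf w k * 2 ^ (alf w k - w k) + (alf w k - w k) * qt k := by
        show (if w k = 0 then _ else _) = _
        rw [if_neg h0]
      have hs0 : 0 ≤ ∑ j ∈ Finset.range k, (w j : ℝ) / (2 * tw j) :=
        Finset.sum_nonneg (fun j _ => by positivity)
      have hale : (alf w k : ℝ) ≤ tw k := by nlinarith
      have hale' : alf w k ≤ tw k := by exact_mod_cast hale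
      -- first term
      have h2 : (alf w k : ℝ) * 2 ^ (alf w k - w k) ≤ tw (k + 1) * ((w k : ℝ) / (2 * tw k)) := by
        have h3 : alf w k * 2 ^ (alf w k - w k) * (2 * tw k) ≤ tw (k + 1) * w k := by
          have h4 : 2 ^ (alf w k - w k) * 2 ^ w k ≤ tw (k + 1) := by
            rw [← pow_add, tw_succ]
            exact Nat.pow_le_pow_right (by norm_num) (by omega)
          have h5 : alf w k * (2 * tw k) ≤ 2 ^ w k * w k := by
            calc alf w k * (2 * tw k) ≤ tw k * (2 * tw k) := Nat.mul_le_mul_right _ hale'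
              _ ≤ tw k * (2 * (2 ^ (k + 1) * w k)) :=
                  Nat.mul_le_mul_left _ (Nat.mul_le_mul_left _ hu1)
              _ = (2 ^ (k + 2) * tw k) * w k := by rw [pow_succ 2 (k + 1)]; ring
              _ ≤ _ := Nat.mul_le_mul_right _ hu2
          calc alf w k * 2 ^ (alf w k - w k) * (2 * tw k)
              = 2 ^ (alf w k - w k) * (alf w k * (2 * tw k)) := by ring
            _ ≤ 2 ^ (alf w k - w k) * (2 ^ w k * w k) := Nat.mul_le_mul_left _ h5
            _ = (2 ^ (alf w k - w k) * 2 ^ w k) * w k := by ring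
            _ ≤ _ := Nat.mul_le_mul_right _ h4
        have h6 : (alf w k : ℝ) * 2 ^ (alf w k - w k) * (2 * tw k) ≤ tw (k + 1) * w k := by
          exact_mod_cast h3
        rw [← mul_div_assoc, le_div_iff₀ (by positivity)]
        exact h6
      rw [h1]
      push_cast
      rw [Nat.cast_sub hl.le]
      have h7 : ((alf w k : ℝ) - w k) * qt k ≤
          tw (k + 1) * ((1 - ∑ j ∈ Finset.range k, (w j : ℝ) / (2 * tw j)) - (w k : ℝ) / tw k) := by
        have h8 : tw (k + 1) * ((1 - ∑ j ∈ Finset.range k, (w j : ℝ) / (2 * tw j)) -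
            (w k : ℝ) / tw k) = (tw k * (1 - ∑ j ∈ Finset.range k, (w j : ℝ) / (2 * tw j)) -
              w k) * qt k := by
          rw [hq]
          field_simp
        rw [h8]
        exact mul_le_mul_of_nonneg_right (by linarith) hq0
      have h9 : (w k : ℝ) / tw k = 2 * ((w k : ℝ) / (2 * tw k)) := by
        field_simp
      rw [h9] at h7
      nlinarith

/-- if the weights have a divergent sum, the game is finite -/
lemma exists_end (w : ℕ → ℕ) (hw : ∀ k, w k ≠ 0 → tw k ≤ 2 ^ (k + 1) * w k ∧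
    2 ^ (k + 2) * tw k ≤ 2 ^ w k) (hs : ¬ Summable (fun k => (w k : ℝ) / tw k)) :
    ∃ k, w k ≠ 0 ∧ alf w k ≤ w k := by
  by_contra hcon
  push Not at hcon
  have h1 := alf_le w hw hcon
  apply hs
  refine summable_of_sum_range_le (c := 2) (fun k => by positivity) (fun k => ?_)
  have h2 := h1 k
  have htk : (0 : ℝ) < tw k := by exact_mod_cast tw_pos k
  have h3 : (0 : ℝ) ≤ alf w k := Nat.cast_nonneg _
  have h4 : 0 ≤ 1 - ∑ j ∈ Finset.range k, (w j : ℝ) / (2 * tw j) := by
    by_contra h5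
    push Not at h5
    nlinarith
  have h5 : ∑ j ∈ Finset.range k, (w j : ℝ) / tw j =
      2 * ∑ j ∈ Finset.range k, (w j : ℝ) / (2 * tw j) := by
    rw [Finset.mul_sum]
    refine Finset.sum_congr rfl (fun j _ => ?_)
    have : (0 : ℝ) < tw j := by exact_mod_cast tw_pos j
    field_simp
  rw [h5]
  linarith

lemma two_pow_le_tw (k : ℕ) : 2 ^ k ≤ tw k := by
  cases k with
  | zero => simp [tw]
  | succ k =>
    rw [tw_succ]
    refine Nat.pow_le_pow_right (by norm_num) ?_
    have := lt_tw k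
    omega

/-- divergence of the weights -/
lemma not_summable_wf (hf : ¬ Summable (fun k => (f (tw k) : ℝ) / tw k)) (t : ℕ) :
    ¬ Summable (fun k => (wf f t k : ℝ) / tw k) := by
  intro hs
  apply hf
  -- comparison series
  have hg1 : Summable (fun k : ℕ => (1 / 2 : ℝ) ^ (k + 1)) := by
    have := (summable_geometric_of_lt_one (show (0 : ℝ) ≤ 1 / 2 by norm_num)
      (show (1 / 2 : ℝ) < 1 by norm_num)).mul_left (1 / 2)
    refine this.congr (fun k => ?_)
    rw [pow_succ]
    ring
  have hg2 : Summable (fun k : ℕ => ((4 * t + 2 * k + 5 : ℕ) : ℝ) / tw k) := by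
    have h1 : Summable (fun k : ℕ => (4 * t + 5 : ℝ) * (1 / 2) ^ k + 2 * ((k : ℝ) ^ 1 * (1 / 2) ^ k)) := by
      refine Summable.add ?_ ?_
      · exact (summable_geometric_of_lt_one (by norm_num) (by norm_num)).mul_left _
      · refine Summable.mul_left 2 ?_
        exact summable_pow_mul_geometric_of_norm_lt_one 1 (by norm_num)
    refine Summable.of_nonneg_of_le (fun k => by positivity) (fun k => ?_) h1
    have h2 : (2 : ℝ) ^ k ≤ tw k := by exact_mod_cast two_pow_le_tw k
    have h3 : ((4 * t + 2 * k + 5 : ℕ) : ℝ) / tw k ≤ ((4 * t + 2 * k + 5 : ℕ) : ℝ) / 2 ^ k :=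
      div_le_div_of_nonneg_left (Nat.cast_nonneg _) (by positivity) h2
    refine h3.trans (le_of_eq ?_)
    push_cast
    rw [one_div, inv_pow]
    field_simp
    ring
  have hg : Summable (fun k : ℕ => (wf f t k : ℝ) / tw k + ((1 / 2 : ℝ) ^ (k + 1) +
      ((4 * t + 2 * k + 5 : ℕ) : ℝ) / tw k)) := hs.add (hg1.add hg2)
  refine (summable_nat_add_iff 4).1 ?_
  refine Summable.of_nonneg_of_le (fun k => by positivity) (fun k => ?_)
    ((summable_nat_add_iff 4).2 hg)
  -- the pointwise estimate for `k + 4`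
  set κ : ℕ := k + 4 with hκ
  set x : ℕ := tw (κ - 1) with hx
  have hx16 : 16 ≤ x := by
    rw [hx, ← tw_three]
    exact tw_strictMono.monotone (by omega)
  have htx : tw κ = 2 ^ x := by
    rw [hx, ← tw_succ]
    congr 1
  have hcube := cube_le_two_pow x hx16
  have hkx : κ + 1 ≤ tw (κ - 2) + 2 := by
    have := lt_tw (κ - 2)
    omega
  have hxy : x = 2 ^ tw (κ - 2) := by
    rw [hx, ← tw_succ]
    congr 1
  have h2k : 2 ^ (κ + 1) ≤ 4 * x := by
    rw [hxy]
    calc 2 ^ (κ + 1) ≤ 2 ^ (tw (κ - 2) + 2) := Nat.pow_le_pow_right (by norm_num) hkx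
      _ = _ := by rw [pow_add]; ring
  have hκx : κ + 2 ≤ x := by
    have h1 : κ + 1 < 2 ^ (κ + 1) := Nat.lt_two_pow_self
    have h2 : 2 ^ (κ - 2) ≤ tw (κ - 2) := two_pow_le_tw _
    have h3 : 2 ^ tw (κ - 2) ≥ 2 ^ 2 ^ (κ - 2) := Nat.pow_le_pow_right (by norm_num) h2
    have h4 : tw (κ - 2) + 4 ≤ 2 ^ tw (κ - 2) := by
      have h5 : ∀ n : ℕ, 4 ≤ n → n + 4 ≤ 2 ^ n := by
        intro n hn
        induction n, hn using Nat.le_induction with
        | base => norm_num
        | succ n hn ih => rw [pow_succ]; omega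
      refine h5 _ ?_
      calc 4 = tw 2 := by simp [tw]
        _ ≤ _ := tw_strictMono.monotone (by omega)
    omega
  have htk : (0 : ℝ) < tw κ := by exact_mod_cast tw_pos κ
  have hFle : f (tw κ) ≤ wu t κ (f (tw κ)) + (4 * t + 2 * κ + 5) := by
    unfold wu
    omega
  have hmain : (wu t κ (f (tw κ)) : ℝ) / tw κ ≤ (wf f t κ : ℝ) / tw κ + (1 / 2 : ℝ) ^ (κ + 1) := by
    by_cases h1 : tw κ ≤ 2 ^ (κ + 1) * wu t κ (f (tw κ))
    · -- useful
      have h2 : 2 ^ (κ + 2) * tw κ ≤ 2 ^ wu t κ (f (tw κ)) := by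
        rw [htx, ← pow_add]
        refine Nat.pow_le_pow_right (by norm_num) ?_
        rw [htx] at h1
        have h3 : 16 * x ^ 3 ≤ 4 * x * wu t κ (f (2 ^ x)) :=
          (hcube.trans h1).trans (Nat.mul_le_mul_right _ h2k)
        rw [← htx] at h3 ⊢
        have h4 : 4 * x * (4 * x ^ 2) ≤ 4 * x * wu t κ (f (tw κ)) := by
          calc 4 * x * (4 * x ^ 2) = 16 * x ^ 3 := by ring
            _ ≤ _ := h3
        have h5 : 4 * x ^ 2 ≤ wu t κ (f (tw κ)) := Nat.le_of_mul_le_mul_left h4 (by omega)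
        nlinarith
      have h3 : wf f t κ = wu t κ (f (tw κ)) := by
        unfold wf wv
        rw [if_pos ⟨h1, h2⟩]
      rw [h3]
      have : (0 : ℝ) < (1 / 2) ^ (κ + 1) := by positivity
      linarith
    · push Not at h1
      have h2 : (2 : ℝ) ^ (κ + 1) * wu t κ (f (tw κ)) ≤ tw κ := by exact_mod_cast h1.le
      have h3 : (wu t κ (f (tw κ)) : ℝ) / tw κ ≤ (1 / 2 : ℝ) ^ (κ + 1) := by
        rw [div_le_iff₀ htk]
        have h4 : (1 / 2 : ℝ) ^ (κ + 1) * 2 ^ (κ + 1) = 1 := by
          rw [← mul_pow]; norm_num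
        calc (wu t κ (f (tw κ)) : ℝ) = (1 / 2 : ℝ) ^ (κ + 1) * (2 ^ (κ + 1) *
              wu t κ (f (tw κ))) := by rw [← mul_assoc, h4, one_mul]
          _ ≤ _ := mul_le_mul_of_nonneg_left h2 (by positivity)
      have h4 : (0 : ℝ) ≤ (wf f t κ : ℝ) / tw κ := by positivity
      linarith
  have h5 : (f (tw κ) : ℝ) / tw κ ≤ (wu t κ (f (tw κ)) : ℝ) / tw κ +
      ((4 * t + 2 * κ + 5 : ℕ) : ℝ) / tw κ := by
    rw [← add_div]
    refine div_le_div_of_nonneg_right ?_ htk.le
    exact_mod_cast hFle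
  linarith

/-! ### the table is good and computable -/

lemma good_wl_iff (t K : ℕ) : Good (wl f t K) ↔ wf f t K ≠ 0 ∧ alf (wf f t) K ≤ wf f t K := by
  unfold Good
  rw [wl_length, Nat.add_sub_cancel, wt_wl f le_rfl, al_wl f K le_rfl]

lemma exists_good (hf : ¬ Summable (fun k => (f (tw k) : ℝ) / tw k)) (t : ℕ) :
    ∃ K, Good (wl f t K) := by
  obtain ⟨k, hk⟩ := exists_end (wf f t) (fun k hk => (wf_useful hk).2) (not_summable_wf hf t)
  exact ⟨k, (good_wl_iff t k).2 hk⟩

lemma primrec_wv : Primrec (fun x : ℕ × ℕ × ℕ => wv x.1 x.2.1 x.2.2) := by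
  have h1 : Primrec (fun x : ℕ × ℕ × ℕ => wu x.1 x.2.1 x.2.2) := by
    unfold wu
    refine Primrec.nat_sub.comp (Primrec.snd.comp Primrec.snd) ?_
    exact Primrec.nat_add.comp (Primrec.nat_add.comp
      (Primrec.nat_mul.comp (Primrec.const 4) Primrec.fst)
      (Primrec.nat_mul.comp (Primrec.const 2) (Primrec.fst.comp Primrec.snd))) (Primrec.const 5)
  have h2 : Primrec (fun x : ℕ × ℕ × ℕ => tw x.2.1) :=
    primrec_tw.comp (Primrec.fst.comp Primrec.snd)
  have h3 : Primrec (fun x : ℕ × ℕ × ℕ => x.2.1) := Primrec.fst.comp Primrec.snd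
  unfold wv
  refine Primrec.ite (PrimrecPred.and ?_ ?_) h1 (Primrec.const 0)
  · exact Primrec.nat_le.comp h2 (Primrec.nat_mul.comp (primrec_pow.comp (Primrec.const 2)
      (Primrec.nat_add.comp h3 (Primrec.const 1))) h1)
  · exact Primrec.nat_le.comp (Primrec.nat_mul.comp (primrec_pow.comp (Primrec.const 2)
      (Primrec.nat_add.comp h3 (Primrec.const 2))) h2) (primrec_pow.comp (Primrec.const 2) h1)

lemma computable_wl (hf : Computable f) : Computable (fun x : ℕ × ℕ => wl f x.1 x.2) := by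
  have h1 : Computable (fun x : ℕ × ℕ => wf f x.1 x.2) := by
    have h2 : Computable (fun x : ℕ × ℕ => f (tw x.2)) :=
      hf.comp (primrec_tw.comp Primrec.snd).to_comp
    exact primrec_wv.to_comp.comp (Computable.fst.pair (Computable.snd.pair h2))
  have h3 : Computable (fun x : ℕ × ℕ => (Nat.rec [] (fun k l => l ++ [wf f x.1 k])
      (x.2 + 1) : List ℕ)) := by
    refine Computable.nat_rec (f := fun x : ℕ × ℕ => x.2 + 1) (g := fun _ : ℕ × ℕ => ([] : List ℕ))
      (h := fun (x : ℕ × ℕ) (y : ℕ × List ℕ) => y.2 ++ [wf f x.1 y.1])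
      (Computable.succ.comp Computable.snd) (Computable.const []) ?_
    have h4 : Primrec (fun z : List ℕ × ℕ => z.1 ++ [z.2]) := Primrec.list_concat
    exact h4.to_comp.comp ((Computable.snd.comp Computable.snd).pair
      (h1.comp ((Computable.fst.comp Computable.fst).pair (Computable.fst.comp Computable.snd))))
  refine h3.of_eq (fun x => ?_)
  unfold wl
  have h5 : ∀ n, (Nat.rec [] (fun k l => l ++ [wf f x.1 k]) n : List ℕ) =
      (List.range n).map (wf f x.1) := by
    intro n
    induction n with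
    | zero => rfl
    | succ n ih =>
      rw [List.range_succ, List.map_append, ← ih]
      rfl
  exact h5 (x.2 + 1)

lemma computable_wl' (hf : Computable f) {g : ℕ → ℕ} (hg : Computable g) :
    Computable (fun t => wl f t (g t)) := by
  have h := Computable.comp (g := fun t => (t, g t)) (computable_wl hf) (Computable.id.pair hg)
  exact h

open Classical in
lemma computable_good : Computable (fun W : List ℕ => decide (Good W)) :=
  primrec_Good.computablePred.decide

open Classical in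
lemma computable_good_wl (hf : Computable f) :
    Computable (fun x : ℕ × ℕ => decide (Good (wl f x.1 x.2))) :=
  computable_good.comp (computable_wl hf)

end Pool.Agent.H81.SC.G
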