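import Mathlib
import Pool.Agent.H81.SC.GTab

/-!
# Above the tower threshold the shift-complex classes are deep
-/

set_option autoImplicit false

namespace Pool.Agent.H81.SC.G

open Pool.Agent.H81.SC

variable {f : ℕ → ℕ}

open Classical in
/-- the last level of game `t` -/
noncomputable def lastK (hf : ¬ Summable (fun k => (f (tw k) : ℝ) / tw k)) (t : ℕ) : ℕ :=
  Nat.find (exists_good hf t)

/-- the table of game `t` -/
noncomputable def tab (hf : ¬ Summable (fun k => (f (tw k) : ℝ) / tw k)) (t : ℕ) : List ℕ :=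
  wl f t (lastK hf t)

lemma good_tab (hf : ¬ Summable (fun k => (f (tw k) : ℝ) / tw k)) (t : ℕ) : Good (tab hf t) := by
  classical
  exact Nat.find_spec (exists_good hf t)

open Classical in
lemma computable_lastK (hfc : Computable f)
    (hf : ¬ Summable (fun k => (f (tw k) : ℝ) / tw k)) : Computable (lastK hf) :=
  Computable.find (P := fun t K => Good (wl f t K))
    (Computable.computablePred (computable_good_wl hfc)) (exists_good hf)

lemma computable_tab (hfc : Computable f) (hf : ¬ Summable (fun k => (f (tw k) : ℝ) / tw k)) :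
    Computable (tab hf) := by
  have h := computable_wl' hfc (g := lastK hf) (computable_lastK hfc hf)
  exact h

/-! ### the key estimate -/

lemma key_mass {U : Str →. Str} (hU : IsUniversalMachine U) {M : Str → ℝ} (hM : IsSemimeasure M)
    (hM2 : IsLeftCE M) (hfc : Computable f)
    (hf : ¬ Summable (fun k => (f (tw k) : ℝ) / tw k)) (c : ℕ) :
    ∃ b : ℕ, ∀ t, b ≤ t → mass M (trace (ShiftComplex U (fun n => (f n : ℝ)) c)
      (N0 (tab hf t))) ≤ (1 / 2) ^ t := by
  classical
  obtain ⟨app, happ, happ'⟩ := REPred.exists_approx hM2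
  obtain ⟨cV, hcV⟩ := hU.2 (V app (tab hf)) (prefixFree_V app _ happ (computable_tab hfc hf))
  refine ⟨max c cV, fun t ht => ?_⟩
  have htc : c ≤ t := le_trans (le_max_left _ _) ht
  have htV : cV ≤ t := le_trans (le_max_right _ _) ht
  obtain ⟨r, H, hH, hs⟩ := exists_stuck hM happ' (t, tab hf t)
  rw [mass_eq]
  refine stuck_mass hM happ' (x := (t, tab hf t)) (good_tab hf t) hH hs _ ?_
  intro σ hσ
  rw [Set.Finite.mem_toFinset] at hσ
  obtain ⟨X, hX, rfl⟩ := hσ
  refine ⟨block_length X 0 _, ?_⟩
  rintro m hm ⟨τ, hτ, hinf⟩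
  obtain ⟨p, hp, hVp⟩ := V_short app (tab hf) hM happ' hH hm hτ
  obtain ⟨hl1, hl2, -, hl4⟩ := hist_level happ' hH m hm
  simp only at hl1 hl2
  have hlen := hl4 τ hτ
  obtain ⟨q, hq, hUq⟩ := hcV p τ hVp
  obtain ⟨hN, i, hblock⟩ := infix_block hinf
  have h1 := hX i τ.length
  rw [← hblock] at h1
  have h2 : K U τ ≤ q.length := Nat.sInf_le ⟨q, rfl, hUq⟩
  have h3 : wt (tab hf t) m.1 = wf f t m.1 := by
    have h4 : m.1 ≤ lastK hf t := by
      have : (tab hf t).length = lastK hf t + 1 := wl_length f t _
      omega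
    exact wt_wl f h4
  rw [h3] at hl2 hp
  have h4 := (wf_useful hl2).1
  have h6 : (f τ.length : ℝ) ≤ K U τ + c := by linarith
  have h7 : f τ.length ≤ K U τ + c := by exact_mod_cast h6
  rw [hlen] at h7
  omega

/-- cumulative lengths -/
noncomputable def LG (hf : ¬ Summable (fun k => (f (tw k) : ℝ) / tw k)) : ℕ → ℕ
  | 0 => 0
  | s + 1 => LG hf s + N0 (tab hf s)

lemma N0_pos (W : List ℕ) : 0 < N0 W := tw_pos _

lemma computable_LG (hfc : Computable f) (hf : ¬ Summable (fun k => (f (tw k) : ℝ) / tw k)) :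
    Computable (LG hf) := by
  have h : Computable (fun s : ℕ => (Nat.rec 0 (fun s v => v + N0 (tab hf s)) s : ℕ)) := by
    refine Computable.nat_rec (f := fun s : ℕ => s) (g := fun _ : ℕ => 0)
      (h := fun (_ : ℕ) (y : ℕ × ℕ) => y.2 + N0 (tab hf y.1)) Computable.id (Computable.const 0) ?_
    have h1 : Computable (fun s : ℕ => N0 (tab hf s)) :=
      primrec_N0.to_comp.comp (computable_tab hfc hf)
    exact Primrec.nat_add.to_comp.comp (Computable.snd.comp Computable.snd)
      (h1.comp (Computable.fst.comp Computable.snd))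
  refine h.of_eq (fun s => ?_)
  induction s with
  | zero => rfl
  | succ s ih =>
    show _ = LG hf s + N0 (tab hf s)
    rw [← ih]

/-- Above the tower threshold the shift-complex classes are deep. -/
theorem deep_of_divergent {U : Str →. Str} (hU : IsUniversalMachine U) {M : Str → ℝ}
    (hM : IsSemimeasure M) (hM2 : IsLeftCE M) (hfc : Computable f)
    (hf : ¬ Summable (fun k => (f (tw k) : ℝ) / tw k)) (c : ℕ) :
    IsDeep M (ShiftComplex U (fun n => (f n : ℝ)) c) := by
  obtain ⟨b, hb⟩ := key_mass hU hM hM2 hfc hf c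
  refine ⟨pi01 hU hfc c, fun n => LG hf (n + b + 1), ⟨?_, ?_, ?_⟩, ?_⟩
  · exact (computable_LG hfc hf).comp (Primrec.succ.comp
      (Primrec.nat_add.comp Primrec.id (Primrec.const b))).to_comp
  · intro m n hmn
    have h1 : Monotone (LG hf) := monotone_nat_of_le_succ (fun _ => Nat.le_add_right _ _)
    exact h1 (by omega)
  · intro m
    refine ⟨m, ?_⟩
    have h1 : ∀ s, s ≤ LG hf s := by
      intro s
      induction s with
      | zero => exact le_rfl
      | succ s ih =>
        show s + 1 ≤ LG hf s + N0 (tab hf s)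
        have := N0_pos (tab hf s)
        omega
    have h2 := h1 (m + b + 1)
    show m ≤ LG hf (m + b + 1)
    omega
  · intro n
    have h1 : N0 (tab hf (n + b)) ≤ LG hf (n + b + 1) := Nat.le_add_left _ _
    refine (mass_anti hM _ h1).trans ((hb (n + b) (by omega)).trans ?_)
    exact pow_le_pow_of_le_one (by norm_num) (by norm_num) (by omega)

/-- Above the tower threshold the shift-complex classes are negligible. -/
theorem negligible_of_divergent {U : Str →. Str} (hU : IsUniversalMachine U)
    (hfc : Computable f) (hf : ¬ Summable (fun k => (f (tw k) : ℝ) / tw k)) (c : ℕ) :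
    IsNegligible (ShiftComplex U (fun n => (f n : ℝ)) c) := by
  refine negligible_of_small ?_
  intro M hM hM2 ε hε
  obtain ⟨b, hb⟩ := key_mass hU hM hM2 hfc hf c
  obtain ⟨t, ht⟩ := exists_pow_lt_of_lt_one hε (show (1 / 2 : ℝ) < 1 by norm_num)
  refine ⟨N0 (tab hf (t + b)), (hb (t + b) (by omega)).trans (le_trans ?_ ht.le)⟩
  exact pow_le_pow_of_le_one (by norm_num) (by norm_num) (by omega)

end Pool.Agent.H81.SC.G
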