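import Mathlib
import Pool.Agent.H81.SC.GDeep

/-!
# The threshold: regular order functions, `n / log* n` and `n / log n`
-/

set_option autoImplicit false

namespace Pool.Agent.H81.SC

lemma half_le_max (x : ℝ) (hx : 0 ≤ x) (n : ℕ) (h : x < n + 1) : x / 2 ≤ ((max 1 n : ℕ) : ℝ) := by
  rcases Nat.eq_zero_or_pos n with h0 | h0
  · subst h0
    simp only [Nat.cast_zero, zero_add] at h
    have : ((max 1 0 : ℕ) : ℝ) = 1 := by simp
    rw [this]
    linarith
  · have h1 : (1 : ℝ) ≤ n := by exact_mod_cast h0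
    have h2 : (n : ℝ) ≤ ((max 1 n : ℕ) : ℝ) := by exact_mod_cast le_max_right 1 n
    linarith

/-- Below the threshold, for functions bounded by `n / b k` on the scale of the tower. -/
theorem below_threshold {b : ℕ → ℕ} (hb : Computable b) (hb1 : ∀ k, 1 ≤ b k)
    (hs : Summable (fun k => (1 : ℝ) / b k)) {f : ℕ → ℝ}
    (hf : ∃ k₁, ∀ k, k₁ ≤ k → ∀ n, tw k ≤ n → n < tw (k + 1) → f n * b k ≤ n)
    {U : Str →. Str} (hU : IsUniversalMachine U) :
    ∃ c₀ : ℕ, ∀ c, c₀ ≤ c → ¬ IsNegligible (ShiftComplex U f c) ∧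
      ∀ M : Str → ℝ, IsUniversalSemimeasure M → ¬ IsDeep M (ShiftComplex U f c) := by
  obtain ⟨c₀, h⟩ := not_negligible_tower hb hb1 hs hf hU
  exact ⟨c₀, fun c hc => ⟨h c hc, fun M hM hd => h c hc (negligible_of_deep hM hd)⟩⟩

/-- Below the threshold, for regular order functions. -/
theorem below_threshold_regular {f : ℕ → ℕ} (hf : IsOrder f) {C m₀ : ℕ}
    (hreg : ∀ m n, m₀ ≤ m → m ≤ n → f n * m ≤ C * f m * n)
    (hs : Summable (fun k => (f (tw k) : ℝ) / tw k))
    {U : Str →. Str} (hU : IsUniversalMachine U) :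
    ∃ c₀ : ℕ, ∀ c, c₀ ≤ c → ¬ IsNegligible (ShiftComplex U (fun n => (f n : ℝ)) c) ∧
      ∀ M : Str → ℝ, IsUniversalSemimeasure M →
        ¬ IsDeep M (ShiftComplex U (fun n => (f n : ℝ)) c) := by
  classical
  obtain ⟨hfc, hfm, hfu⟩ := hf
  -- eventually `f (tw k) ≥ 1`
  obtain ⟨n₁, hn₁⟩ := hfu 1
  have hf1 : ∀ k, n₁ ≤ k → 1 ≤ f (tw k) := fun k hk =>
    hn₁.trans (hfm (hk.trans (lt_tw k).le))
  -- `C ≥ 1`
  have hC : 1 ≤ C := by
    by_contra hC
    have h0 : C = 0 := by omega
    obtain ⟨n₂, hn₂⟩ := hfu 1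
    have h1 := hreg (m₀ + 1) (m₀ + 1 + n₂) (by omega) (by omega)
    rw [h0] at h1
    have h2 : 1 ≤ f (m₀ + 1 + n₂) := hn₂.trans (hfm (by omega))
    have h3 : 1 * 1 ≤ f (m₀ + 1 + n₂) * (m₀ + 1) := Nat.mul_le_mul h2 (by omega)
    omega
  set b : ℕ → ℕ := fun k => max 1 (tw k / (C * f (tw k))) with hb
  have hbc : Computable b := by
    have h1 : Computable (fun k => (tw k, f (tw k))) :=
      primrec_tw.to_comp.pair (hfc.comp primrec_tw.to_comp)
    have h2 : Primrec (fun x : ℕ × ℕ => max 1 (x.1 / (C * x.2))) :=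
      Primrec.nat_max.comp (Primrec.const 1) (Primrec.nat_div.comp Primrec.fst
        (Primrec.nat_mul.comp (Primrec.const C) Primrec.snd))
    exact h2.to_comp.comp h1
  have hb1 : ∀ k, 1 ≤ b k := fun k => le_max_left _ _
  -- the quotient is eventually small
  have hsmall : ∀ᶠ k in Filter.atTop, (f (tw k) : ℝ) / tw k < 1 / C := by
    have h1 := hs.tendsto_atTop_zero
    have hC0 : (0 : ℝ) < 1 / C := by
      have : (0 : ℝ) < C := by exact_mod_cast hC
      positivity
    exact h1.eventually (gt_mem_nhds hC0)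
  obtain ⟨k₂, hk₂⟩ := Filter.eventually_atTop.1 hsmall
  have hbs : Summable (fun k => (1 : ℝ) / b k) := by
    refine Summable.of_norm_bounded_eventually_nat (g := fun k => 2 * C * ((f (tw k) : ℝ) / tw k))
      (hs.mul_left _) ?_
    refine Filter.eventually_atTop.2 ⟨n₁, fun k hk => ?_⟩
    have h1 := hf1 k hk
    have htk : (0 : ℝ) < tw k := by exact_mod_cast tw_pos k
    have hD : 0 < C * f (tw k) := Nat.mul_pos hC h1
    have hD' : (0 : ℝ) < ((C * f (tw k) : ℕ) : ℝ) := by exact_mod_cast hD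
    have h2 : (tw k : ℝ) / ((C * f (tw k) : ℕ) : ℝ) / 2 ≤ (b k : ℝ) := by
      refine half_le_max _ (by positivity) _ ?_
      rw [div_lt_iff₀ hD']
      have h3 := Nat.lt_div_mul_add (a := tw k) hD
      have h4 : tw k < (tw k / (C * f (tw k)) + 1) * (C * f (tw k)) := by
        rw [Nat.add_mul, Nat.one_mul]
        exact h3
      exact_mod_cast h4
    have h5 : (0 : ℝ) < b k := by exact_mod_cast hb1 k
    rw [Real.norm_eq_abs, abs_of_nonneg (by positivity), div_le_iff₀ h5]
    have h6 : 2 * (C : ℝ) * ((f (tw k) : ℝ) / tw k) *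
        ((tw k : ℝ) / ((C * f (tw k) : ℕ) : ℝ) / 2) = 1 := by
      push_cast
      have h7 : (f (tw k) : ℝ) ≠ 0 := by
        have : (1 : ℝ) ≤ f (tw k) := by exact_mod_cast h1
        linarith
      have h8 : (C : ℝ) ≠ 0 := by
        have : (1 : ℝ) ≤ C := by exact_mod_cast hC
        linarith
      field_simp
    calc (1 : ℝ) = 2 * (C : ℝ) * ((f (tw k) : ℝ) / tw k) *
          ((tw k : ℝ) / ((C * f (tw k) : ℕ) : ℝ) / 2) := h6.symm
      _ ≤ _ := mul_le_mul_of_nonneg_left h2 (by positivity)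
  refine below_threshold hbc hb1 hbs ⟨max (max n₁ k₂) m₀, fun k hk n hn _ => ?_⟩ hU
  have hk1 : n₁ ≤ k := (le_max_left _ _).trans ((le_max_left _ _).trans hk)
  have hk2 : k₂ ≤ k := (le_max_right _ _).trans ((le_max_left _ _).trans hk)
  have hk3 : m₀ ≤ tw k := ((le_max_right _ _).trans hk).trans (lt_tw k).le
  have h1 := hf1 k hk1
  have h2 := hk₂ k hk2
  have htk : (0 : ℝ) < tw k := by exact_mod_cast tw_pos k
  have hC' : (0 : ℝ) < C := by exact_mod_cast hC
  have hD : 0 < C * f (tw k) := Nat.mul_pos hC h1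
  have h3 : C * f (tw k) ≤ tw k := by
    rw [div_lt_div_iff₀ htk hC'] at h2
    have h4 : f (tw k) * C < 1 * tw k := by exact_mod_cast h2
    rw [Nat.mul_comm] at h4
    omega
  have h4 : b k = tw k / (C * f (tw k)) := by
    simp only [hb]
    refine max_eq_right ?_
    exact (Nat.one_le_div_iff hD).2 h3
  have h5 : b k * (C * f (tw k)) ≤ tw k := by
    rw [h4]
    exact Nat.div_mul_le_self _ _
  have h6 := hreg (tw k) n hk3 hn
  have h7 : f n * b k * (C * f (tw k)) ≤ n * (C * f (tw k)) := by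
    calc f n * b k * (C * f (tw k)) = f n * (b k * (C * f (tw k))) := by ring
      _ ≤ f n * tw k := Nat.mul_le_mul_left _ h5
      _ ≤ C * f (tw k) * n := h6
      _ = _ := by ring
  have h8 : f n * b k ≤ n := Nat.le_of_mul_le_mul_right h7 hD
  exact_mod_cast h8

/-- Below the threshold: functions of order `n / log n`. -/
theorem below_threshold_log {C : ℝ} {g : ℕ → ℝ} {n₀ : ℕ}
    (hg : ∀ n, n₀ ≤ n → g n ≤ C * (n / Real.logb 2 n))
    {U : Str →. Str} (hU : IsUniversalMachine U) :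
    ∃ c₀ : ℕ, ∀ c, c₀ ≤ c → ¬ IsNegligible (ShiftComplex U g c) ∧
      ∀ M : Str → ℝ, IsUniversalSemimeasure M → ¬ IsDeep M (ShiftComplex U g c) := by
  classical
  obtain ⟨D', hD'⟩ := exists_nat_ge C
  set D : ℕ := max 1 D' with hD
  have hD1 : 1 ≤ D := le_max_left _ _
  have hCD : C ≤ D := hD'.trans (by exact_mod_cast le_max_right _ _)
  have hD0 : (0 : ℝ) < D := by exact_mod_cast hD1
  set b : ℕ → ℕ := fun k => max 1 (tw (k - 1) / D) with hb
  have hbc : Computable b := by
    have h2 : Primrec (fun k : ℕ => max 1 (tw (k - 1) / D)) :=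
      Primrec.nat_max.comp (Primrec.const 1) (Primrec.nat_div.comp (primrec_tw.comp
        (Primrec.nat_sub.comp Primrec.id (Primrec.const 1))) (Primrec.const D))
    exact h2.to_comp
  have hb1 : ∀ k, 1 ≤ b k := fun k => le_max_left _ _
  have hsum : Summable (fun k : ℕ => (1 : ℝ) / tw (k - 1)) := by
    have h1 : Summable (fun k : ℕ => (1 : ℝ) / tw (k + 1 - 1)) := by
      simpa using summable_inv_tw
    exact (summable_nat_add_iff (f := fun k : ℕ => (1 : ℝ) / tw (k - 1)) 1).1 h1
  have hbs : Summable (fun k => (1 : ℝ) / b k) := by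
    refine Summable.of_nonneg_of_le (fun k => by positivity) (fun k => ?_) (hsum.mul_left (2 * (D : ℝ)))
    have htk : (0 : ℝ) < tw (k - 1) := by exact_mod_cast tw_pos (k - 1)
    have h2 : (tw (k - 1) : ℝ) / D / 2 ≤ (b k : ℝ) := by
      refine half_le_max _ (by positivity) _ ?_
      rw [div_lt_iff₀ hD0]
      have h3 := Nat.lt_div_mul_add (a := tw (k - 1)) hD1
      have h4 : tw (k - 1) < (tw (k - 1) / D + 1) * D := by
        rw [Nat.add_mul, Nat.one_mul]
        exact h3
      exact_mod_cast h4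
    have h5 : (0 : ℝ) < b k := by exact_mod_cast hb1 k
    rw [div_le_iff₀ h5]
    have h6 : 2 * (D : ℝ) * (1 / tw (k - 1)) * ((tw (k - 1) : ℝ) / D / 2) = 1 := by
      field_simp
    calc (1 : ℝ) = 2 * (D : ℝ) * (1 / tw (k - 1)) * ((tw (k - 1) : ℝ) / D / 2) := h6.symm
      _ ≤ _ := mul_le_mul_of_nonneg_left h2 (by positivity)
  refine below_threshold hbc hb1 hbs ⟨max (D + 1) n₀, fun k hk n hn _ => ?_⟩ hU
  have hk1 : D + 1 ≤ k := (le_max_left _ _).trans hk
  have hk2 : n₀ ≤ k := (le_max_right _ _).trans hk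
  have hkn : k < n := (lt_tw k).trans_le hn
  have hn0 : (0 : ℝ) < n := by
    have : 0 < n := by omega
    exact_mod_cast this
  -- `tw (k - 1) ≤ log n`
  have hlog : (tw (k - 1) : ℝ) ≤ Real.logb 2 n := by
    rw [Real.le_logb_iff_rpow_le (by norm_num) hn0, Real.rpow_natCast]
    have h1 : 2 ^ tw (k - 1) ≤ n := by
      rw [← tw_succ, show k - 1 + 1 = k by omega]
      exact hn
    exact_mod_cast h1
  have htk : (0 : ℝ) < tw (k - 1) := by exact_mod_cast tw_pos (k - 1)
  have hlog0 : 0 < Real.logb 2 n := htk.trans_le hlog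
  have h4 : b k * D ≤ tw (k - 1) := by
    have h3 : D ≤ tw (k - 1) := by
      have := lt_tw (k - 1)
      omega
    have h5 : b k = tw (k - 1) / D := by
      simp only [hb]
      exact max_eq_right ((Nat.one_le_div_iff hD1).2 h3)
    rw [h5]
    exact Nat.div_mul_le_self _ _
  have h4' : (b k : ℝ) * D ≤ tw (k - 1) := by exact_mod_cast h4
  have h5 : g n ≤ D * (n / Real.logb 2 n) :=
    (hg n (by omega)).trans (mul_le_mul_of_nonneg_right hCD (by positivity))
  have hbk0 : (0 : ℝ) ≤ b k := Nat.cast_nonneg _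
  calc g n * b k ≤ D * (n / Real.logb 2 n) * b k := mul_le_mul_of_nonneg_right h5 hbk0
    _ = (b k * D) * n / Real.logb 2 n := by ring
    _ ≤ Real.logb 2 n * n / Real.logb 2 n := by
        refine div_le_div_of_nonneg_right ?_ hlog0.le
        exact mul_le_mul_of_nonneg_right (h4'.trans hlog) hn0.le
    _ = n := by field_simp

/-! ### An explicit sublinear function above the threshold -/

/-- The iterated logarithm `log* n`: the least `k` with `n ≤ 2^2^...^2` (`k` twos). -/
def logStar (n : ℕ) : ℕ := Nat.find (⟨n, (lt_tw n).le⟩ : ∃ k, n ≤ tw k)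

lemma logStar_tw (k : ℕ) : logStar (tw k) = k := by
  unfold logStar
  rw [Nat.find_eq_iff]
  exact ⟨le_rfl, fun j hj => not_le.2 (tw_strictMono hj)⟩

lemma computable_logStar : Computable logStar := by
  have h1 : PrimrecRel (fun n k : ℕ => n ≤ tw k) :=
    Primrec.nat_le.comp Primrec.fst (primrec_tw.comp Primrec.snd)
  exact Computable.find (P := fun n k => n ≤ tw k) h1.computablePred
    (fun n => ⟨n, (lt_tw n).le⟩)

/-- `nls n` is the maximum of `m / (1 + log* m)` (rounded down) over `m ≤ n`. -/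
def nls : ℕ → ℕ
  | 0 => 0
  | n + 1 => max (nls n) ((n + 1) / (1 + logStar (n + 1)))

lemma computable_nls : Computable nls := by
  have h1 : Computable (fun n : ℕ => (n + 1) / (1 + logStar (n + 1))) := by
    have h2 : Primrec (fun x : ℕ × ℕ => x.1 / (1 + x.2)) :=
      Primrec.nat_div.comp Primrec.fst (Primrec.nat_add.comp (Primrec.const 1) Primrec.snd)
    exact h2.to_comp.comp (Computable.succ.pair (computable_logStar.comp Computable.succ))
  have h : Computable (fun n : ℕ => (Nat.rec 0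
      (fun n v => max v ((n + 1) / (1 + logStar (n + 1)))) n : ℕ)) := by
    refine Computable.nat_rec (f := fun n : ℕ => n) (g := fun _ : ℕ => 0)
      (h := fun (_ : ℕ) (y : ℕ × ℕ) => max y.2 ((y.1 + 1) / (1 + logStar (y.1 + 1))))
      Computable.id (Computable.const 0) ?_
    exact Primrec.nat_max.to_comp.comp (Computable.snd.comp Computable.snd)
      (h1.comp (Computable.fst.comp Computable.snd))
  refine h.of_eq (fun n => ?_)
  induction n with
  | zero => rfl
  | succ n ih =>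
    show _ = max (nls n) ((n + 1) / (1 + logStar (n + 1)))
    rw [← ih]

lemma nls_mono : Monotone nls := monotone_nat_of_le_succ (fun _ => le_max_left _ _)

lemma le_nls (n : ℕ) : n / (1 + logStar n) ≤ nls n := by
  cases n with
  | zero => simp
  | succ n => exact le_max_right _ _

lemma nls_le (n s : ℕ) : nls n ≤ n / (1 + s) + tw s := by
  induction n with
  | zero => simp [nls]
  | succ n ih =>
    refine max_le (ih.trans (Nat.add_le_add_right (Nat.div_le_div_right (Nat.le_succ n)) _)) ?_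
    rcases le_total s (logStar (n + 1)) with h | h
    · exact (Nat.div_le_div_left (by omega) (by omega)).trans (Nat.le_add_right _ _)
    · have h1 : n + 1 ≤ tw (logStar (n + 1)) :=
        Nat.find_spec (⟨n + 1, (lt_tw (n + 1)).le⟩ : ∃ k, n + 1 ≤ tw k)
      have h2 : tw (logStar (n + 1)) ≤ tw s := tw_strictMono.monotone h
      exact ((Nat.div_le_self _ _).trans (h1.trans h2)).trans (Nat.le_add_left _ _)

lemma nls_tendsto : Filter.Tendsto (fun n : ℕ => (nls n : ℝ) / n) Filter.atTop (nhds 0) := by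
  rw [Metric.tendsto_atTop]
  intro ε hε
  obtain ⟨s, hs⟩ := exists_nat_gt (2 / ε)
  obtain ⟨N, hN⟩ := exists_nat_gt (2 * (tw s : ℝ) / ε)
  refine ⟨N + 1, fun n hn => ?_⟩
  have hn0 : (0 : ℝ) < n := by
    have : 0 < n := by omega
    exact_mod_cast this
  rw [Real.dist_eq, sub_zero, abs_of_nonneg (by positivity), div_lt_iff₀ hn0]
  have h1 : (nls n : ℝ) ≤ (n : ℝ) / (1 + s) + tw s := by
    have h2 : (nls n : ℝ) ≤ ((n / (1 + s) + tw s : ℕ) : ℝ) := by exact_mod_cast nls_le n s
    refine h2.trans ?_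
    push_cast
    have h3 : ((n / (1 + s) : ℕ) : ℝ) ≤ (n : ℝ) / ((1 + s : ℕ) : ℝ) := Nat.cast_div_le
    push_cast at h3
    linarith
  have h4 : (n : ℝ) / (1 + s) < ε / 2 * n := by
    rw [div_lt_iff₀ (by positivity)]
    have h5 : 2 < ε * s := by
      rw [div_lt_iff₀ hε] at hs
      linarith
    nlinarith
  have h7 : (tw s : ℝ) < ε / 2 * n := by
    rw [div_lt_iff₀ hε] at hN
    have h8 : (N : ℝ) < n := by exact_mod_cast (by omega : N < n)
    nlinarith
  linarith

lemma nls_divergent : ¬ Summable (fun k => (nls (tw k) : ℝ) / tw k) := by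
  intro hs
  have h1 := hs.add summable_inv_tw
  have h2 : Summable (fun k : ℕ => (1 : ℝ) / ((k + 1 : ℕ) : ℝ)) := by
    refine Summable.of_nonneg_of_le (fun k => by positivity) (fun k => ?_) h1
    have htk : (0 : ℝ) < tw k := by exact_mod_cast tw_pos k
    have h3 := le_nls (tw k)
    rw [logStar_tw] at h3
    have h4 := Nat.lt_div_mul_add (a := tw k) (show 0 < 1 + k by omega)
    have h5 : tw k ≤ (nls (tw k) + 1) * (k + 1) := by
      calc tw k ≤ tw k / (1 + k) * (1 + k) + (1 + k) := h4.le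
        _ = (tw k / (1 + k) + 1) * (k + 1) := by ring
        _ ≤ _ := Nat.mul_le_mul_right _ (Nat.add_le_add_right h3 1)
    have h6 : (tw k : ℝ) ≤ (nls (tw k) + 1) * ((k + 1 : ℕ) : ℝ) := by exact_mod_cast h5
    have hk0 : (0 : ℝ) < ((k + 1 : ℕ) : ℝ) := by positivity
    rw [← add_div, div_le_div_iff₀ hk0 htk]
    linarith
  have h3 : Summable (fun k : ℕ => (1 : ℝ) / (k : ℝ)) :=
    (summable_nat_add_iff (f := fun k : ℕ => (1 : ℝ) / (k : ℝ)) 1).1 h2
  exact Real.not_summable_one_div_natCast h3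

lemma nls_unbounded (b : ℕ) : ∃ n, b ≤ nls n := by
  by_contra hcon
  push Not at hcon
  apply nls_divergent
  refine Summable.of_nonneg_of_le (fun k => by positivity) (fun k => ?_)
    (summable_inv_tw.mul_left (b : ℝ))
  have htk : (0 : ℝ) < tw k := by exact_mod_cast tw_pos k
  have h1 : (nls (tw k) : ℝ) ≤ b := by exact_mod_cast (hcon (tw k)).le
  rw [mul_one_div]
  exact div_le_div_of_nonneg_right h1 htk.le

theorem isOrder_nls : IsOrder nls := ⟨computable_nls, nls_mono, nls_unbounded⟩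

end Pool.Agent.H81.SC
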